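import Pool.Agent.MVO.StmtsL

/-!
# Squad MVO, block A: class a (s1 and s2), sufficiency (MP_23468a_al)

Class a: `xyzxty ≈ yxzxty` (s1) and `xzxyty ≈ xzyxty` (s2).  An occurrence of a letter which is not
its last occurrence commutes with every adjacent multiple letter; so a word is given, up to the
congruence, by the types of its letters and the order of their LAST occurrences.
-/

namespace Pool.Agent.MVO

open Pool.Agent.Helper14_MV Pool.Agent.Helper2_MV

/-- the identities s1 and s2 -/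
structure ClA (β : FIC) : Prop where
  s1 : RR β [0, 1, 2, 0, 3, 1] [1, 0, 2, 0, 3, 1]
  s2 : RR β [0, 2, 0, 1, 3, 1] [0, 2, 1, 0, 3, 1]

/-- `x²y² ≈ y²x²` -/
def R0 (β : FIC) : Prop := RR β [0, 0, 1, 1] [1, 1, 0, 0]

/-- all exchanges of the types `a` and `b` in block `i` -/
def Bt (ρ : FIC) (k : ℕ) (a b : ℕ → ℕ) (i : ℕ) : Prop := ∀ e, Ex ρ k a b e i

/-- **FMA** (uses nothing).  The free move.
PROOF.  `c = d`: trivial.  `d ∈ q` (and `c ∈ q`): in `q` one of the letters `c, d` comes first and the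
other one occurs behind it: `q = q1 ++ c :: (q2 ++ d :: q3)` or `q = q1 ++ d :: (q2 ++ c :: q3)`; s1 (in
the first case for `x = c, y = d`, in the second for `x = d, y = c`, read backwards) under the
substitution `2 ↦ q1, 3 ↦ q2` (`RR.sub`), times `p` from the left and `q3` from the right.  `d ∈ p`:
`p = p1 ++ d :: p2`, `q = q1 ++ c :: q2`: s2 for `x = d, y = c`, `2 ↦ p2, 3 ↦ q1`. -/
def FmaStmt : Prop :=
  ∀ β : FIC, ClA β → ∀ (p q : List ℕ) (c d : ℕ), c ∈ q → (d ∈ p ∨ d ∈ q) →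
    RR β (p ++ c :: d :: q) (p ++ d :: c :: q)

/-- **NFA** (uses FMA).  Normal form: types and the order of the last occurrences determine the word.
PROOF.  Claim for lists `u, v, q` by induction on the length of `v`: if (1) for every letter `c` which is
not a simple letter (`2..k+1`) the lists `u, v` filtered to `c` and the simple letters are equal (also
filtered to the simple letters only), (2) every simple letter occurs at most once in `u ++ q`, (3)
every other letter of `u` occurs at least twice in `u ++ q`, (4) for all letters `c, d ∉ q`: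
`(u.filter (· ∈ {c, d})).getLast? = (v.filter (· ∈ {c, d})).getLast?`, then `RR β (u ++ q) (v ++ q)`.
`v = []`: `u = []`.  `v = v' ++ [c]`.
(a) `c` simple: by (1) no letter occurs in `u` behind `c` (filter to `c` and this letter), `u = u' ++ [c]`;
induction with `q := c :: q`.
(b) `c` not simple, `c ∈ q`: by (1) `u = u1 ++ c :: u2`, where `u2` contains neither `c` nor a simple
letter; FMA moves `c` to the right over all letters `d` of `u2` (`c ∈ q`; `d` occurs elsewhere by (3)):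
`u ++ q ~ (u1 ++ u2) ++ (c :: q)`; induction for `u1 ++ u2`, `v'`, `c :: q`.
(c) `c` not simple, `c ∉ q`: (4) says that every letter of `u` behind the last `c` is in `q` (the last
occurrence of `c` is behind the last occurrence of every `d ∉ q`, because this is true in `v`):
`u = u1 ++ c :: u2`, `c ∉ u2`, `u2 ⊆ q`, no simple letters in `u2` (2), `c ∈ u1` by (3).  FMA (for the
letter `d ∈ u2 ⊆ q` and the other letter `c ∈ u1`) moves `c` to the right over `u2`; induction with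
`c :: q`.
The statement is the case `q = []` (`asm_filter`, `uniq`-free: equal counts in the blocks give equal
filtered words). -/
def NfaStmt : Prop :=
  ∀ β : FIC, ClA β → ∀ (k : ℕ) (B B' : ℕ → List ℕ), BlkOk k B → BlkOk k B' →
    (∀ j ≤ k, ∀ c, (B j).count c = (B' j).count c) →
    (∀ j ≤ k, ∀ c ∈ B j, 2 ≤ deg k (fun j => (B j).count c)) →
    (∀ c d, NS k c → NS k d →
      ((asm k B).filter (fun x => decide (x = c ∨ x = d))).getLast? =
        ((asm k B').filter (fun x => decide (x = c ∨ x = d))).getLast?) →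
      RR β (asm k B) (asm k B')

/-- **GAA** (uses NFA).  PROOF.  Let `L` be the list of the letters of `X` in the order of their last
occurrences in `asm k B` (letters which do not occur first): `L := (X.filter (∉ asm k B)) ++
(asm k B).dedup.filter (· ∈ X)` (`List.dedup` keeps the last occurrences), a permutation of `X`;
`D j := L` for all `j`.  Same counts in the blocks; for two letters `c, d` which occur: if their last
blocks are different the last letter is the one with the later block in both words, if they are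
equal it is the one which is later in `L`.  NFA. -/
def GaaStmt : Prop := ∀ β : FIC, ClA β → Gath β

/-- **RGA** (uses NFA).  PROOF.  `i` := the last block in which `a` or `b` is not 0 (exists, `deg ≥ 2`).
For the letters 0, 1 the last one of `w2 k a b e` depends only on `e i` (if both occur in block `i`)
or is the letter which occurs in block `i`.  NFA. -/
def RgaStmt : Prop := ∀ β : FIC, ClA β → Rig β

/-- **SWA** (uses NFA).  PROOF.  If `n i x = 0` or `n i y = 0`: the words are equal.  If `x` or `y` occurs in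
a block behind `i`: the last occurrences have the same order in both words, NFA for `β` (`≤ ω`).
Otherwise `i` is the last block of both.  For `j ≠ i` let `D' j := (D j without x, y) ++ [x, y]`,
`D' i := D i`: `gw k n D ~ gw k n D'` by NFA (only non-last occurrences of `x, y` are moved; the order
of the last occurrences does not change; note that for `j > i` the letters `x, y` do not occur).
Now `gw k n D'` is `asm k (fun j => P j ++ (bl (n j x) (n j y) false with 0 ↦ x, 1 ↦ y) ++ Q j)`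
with `P j = gb (n j) (D j without x, y)`, `Q j = []` for `j ≠ i`, `P i = gb (n i) A`, `Q i = gb (n i) B`:
`rr_ins` for the identity `Ex ω k (n · x) (n · y) (fun _ => false) i`; back with NFA. -/
def SwaStmt : Prop := ∀ β : FIC, ClA β → SW β

/-- **FAA** (uses NFA).  The calculus of exchanges in class a.
PROOF.  (F0) The order of the last occurrences of `x`, `y` does not depend on the order in block `i`;
NFA.  (F2) `w2 k a b e ~ w2 k a' b e` in `ρ` for every `e`: `rr_ins` for `mw k a ~ mw k a'` with the powers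
of `y` as `P j` (if `e j`) or `Q j` (if not).  (F3) If the last blocks of `a + d`, `b + d'` are not both `i`:
(F0).  Else `d, d'` vanish behind `i`; `rr_ins'` with `P j = x^(d j) y^(d' j)`: the words have the types
`a + d`, `b + d'` and the last order of the two words `w2 k a b e`, `w2 k a b (flp e i)`; NFA.
(F4) `rr_push`; the words `asm k' (pshB k f ..)` have the types `psh k f a`, `psh k f b` and the
same last letters as before; NFA.  (F5) exchange the letters 0 and 1: `bl p q e` becomes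
`bl q p (!e)`.  (F6) If `i` is not the last block of both: (F0).  Else block `i` is
`x^(a i) y^(b i) ~ x^(a i - 2) y^(b i - 2) x² y²` (NFA) and `x²y² ~ y²x²`. -/
def FaaStmt : Prop :=
  ∀ ρ : FIC, ClA ρ →
    (∀ (k : ℕ) (a b : ℕ → ℕ) (i : ℕ), 2 ≤ deg k a → 2 ≤ deg k b → i ≤ k →
      ¬ ((sp k a).max = (i : WithBot ℕ) ∧ (sp k b).max = (i : WithBot ℕ)) → Bt ρ k a b i) ∧
    (∀ (k : ℕ) (a a' b : ℕ → ℕ) (i : ℕ), L1 ρ k a a' → Bt ρ k a' b i → Bt ρ k a b i) ∧
    (∀ (k : ℕ) (a b d d' : ℕ → ℕ) (i : ℕ), 2 ≤ deg k a → 2 ≤ deg k b → i ≤ k →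
      (sp k a).max = (i : WithBot ℕ) → (sp k b).max = (i : WithBot ℕ) → Bt ρ k a b i →
        Bt ρ k (fun j => a j + d j) (fun j => b j + d' j) i) ∧
    (∀ (k k' : ℕ) (f : ℕ → ℕ) (a b : ℕ → ℕ) (i : ℕ), BMap k k' f → 2 ≤ deg k a →
      2 ≤ deg k b → i ≤ k → (sp k a).max = (i : WithBot ℕ) → (sp k b).max = (i : WithBot ℕ) →
        Bt ρ k a b i → Bt ρ k' (psh k f a) (psh k f b) (f i)) ∧
    (∀ (k : ℕ) (a b : ℕ → ℕ) (i : ℕ), Bt ρ k a b i → Bt ρ k b a i) ∧
    (R0 ρ → ∀ (k : ℕ) (a b : ℕ → ℕ) (i : ℕ), i ≤ k → 2 ≤ a i → 2 ≤ b i → Bt ρ k a b i)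

/-- the identity `I`: `(1,1,1) ~ (2,0,1)` -/
def II (R : FC) : Prop := R.R 2 (v3 1 1 1) (v3 2 0 1)
/-- the identity `J`: `(1,1,1) ~ (0,2,1)` -/
def JJ (R : FC) : Prop := R.R 2 (v3 1 1 1) (v3 0 2 1)

/-- the clauses of class a over `O1` -/
def ClauseA1 (β : FIC) : Prop :=
  (O2 (FC.ofFIC β) ∨ Bt β 1 (v2 0 3) (v2 1 1) 1 ∨ Bt β 1 (v2 1 2) (v2 1 1) 1) ∧
  (II (FC.ofFIC β) ∨ Bt β 2 (v3 0 2 1) (v3 1 0 1) 2) ∧
  (II (FC.ofFIC β) ∨ Bt β 2 (v3 2 0 1) (v3 0 1 1) 2 ∨ Bt β 2 (v3 1 1 1) (v3 0 1 1) 2)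

/-- the clauses of class a over `O2` -/
def ClauseA2 (β : FIC) : Prop :=
  (O1 (FC.ofFIC β) ∨ Bt β 1 (v2 0 3) (v2 1 1) 1 ∨ Bt β 1 (v2 2 1) (v2 1 1) 1) ∧
  (JJ (FC.ofFIC β) ∨ Bt β 2 (v3 2 0 1) (v3 0 1 1) 2) ∧
  (JJ (FC.ofFIC β) ∨ Bt β 2 (v3 0 2 1) (v3 1 0 1) 2 ∨ Bt β 2 (v3 1 1 1) (v3 1 0 1) 2)

/-- **TAA** (uses OAA, OAR, FAA).  Tightness of class a over `O1`.
Notation: `F0, F2, .., F6` are the parts of FAA (`F2`: transfer, `F3`: add, `F4`: push, `F5`: symmetry,
`F6`: squares); `e_i` unit vectors; a set stands for the types with this support.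
PROOF.  `ρ ≥ β`, `L1 ρ k a a'`, `d = deg k a = deg k a' ≥ 2`, not `L1 β k a a'`; `b`, `deg k b ≥ 2`, `i ≤ k`; show
`Bt ρ k a b i`.  By F0 we may assume `i = ℓ` is the maximum of `S = sp k a` and of `sp k b`.
`S' = sp k a'`; `S ≠ S'` (OAA for `β`).  If `max S' ≠ ℓ`: `Bt ρ k a' b ℓ` by F0, so F2.  Let `max S' = ℓ`, so
`S, S'` are not both of size 1.  `N := max |S| |S'|`; OAR for `ρ`: `IP ρ N d`.
(1) `min S = min S' =: p`.  Then `N ≥ 3`, `d ≥ 3`, `p < ℓ`.  `II` is not in `β`: otherwise `IP β m d` for all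
`m`, `d` (push and add: `{p,q,ℓ} ~ {p,ℓ}` in degree 3, so by adding any vector an interior element of
the support can be removed or added as long as the degree allows it), and `L1 β k a a'`.  So
`g1 := Bt β 2 (0,2,1) (1,0,1) 2` and (`g2 := Bt β 2 (2,0,1) (0,1,1) 2` or `h2 := Bt β 2 (1,1,1) (0,1,1) 2`).
 If `b ℓ ≥ 2`: `a'' := e_p + (d-1) e_ℓ`, `L1 ρ k a a''` (`IP`), F6 for `a'', b`, F2.
 If `b ℓ = 1`: there is `j < ℓ` with `b j ≥ 1`.  `j < p`: F4 with `0 ↦ j, 1 ↦ p, 2 ↦ ℓ` for `g1`, then F3: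
 `Bt β k ((d-1) e_p + e_ℓ) b ℓ`, F2 (`IP`).  `j = p`: the same with `0, 1 ↦ p`.  `p < j < ℓ`: `g2` with
 `0 ↦ p, 1 ↦ j, 2 ↦ ℓ`, the same vector; or `h2`: `Bt β k ((d-2) e_p + e_j + e_ℓ) b ℓ`, its support
 `{p, j, ℓ}` has size `3 ≤ N`, F2 (`IP`).
(2) `min S ≠ min S'`: `BP ρ d` (OAR).  `S ~ρ {min S, ℓ} ~ρ {ℓ} ~ρ {j, ℓ}` for all `j < ℓ`.
 `d = 2`: `a ~ρ 2 e_ℓ`; if `b ℓ = 1` take `j < ℓ` with `b j ≥ 1`: `b ~ρ b - e_j + e_ℓ` (BP ρ 2 and `add`); F6 and
 F2, F5.
 `d ≥ 3`: claim: `s := Bt β 1 (0,3) (1,1) 1` or `s' := Bt β 1 (1,2) (1,1) 1`.  If not, the first clause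
 gives `O2 β`, so `BP β d` (push, add, OAA); as `L1 β k a a'` fails, `IP β N d` fails, so `II` fails in `β`
 (as in (1)) and `g1` holds; F4 with `0, 1 ↦ 0, 2 ↦ 1` gives `Bt β 1 (2,1) (1,1) 1`, and `(2,1) ~β (1,2)`
 (O1) gives `s'` (F2), contradiction.  If `b ℓ ≥ 2`: `a'' = d e_ℓ`, F6.  If `b ℓ = 1`, `b j ≥ 1`, `j < ℓ`: `s`
 with F4, F3: `Bt β k (d e_ℓ) b ℓ`; or `s'`: `Bt β k (e_j + (d-1) e_ℓ) b ℓ`; F2. -/
def TaaStmt : Prop :=
  ∀ β : FIC, ClA β → R0 β → O1 (FC.ofFIC β) → ClauseA1 β → Tight β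

/-- **TAB** (uses OPF, OCR, FAA).  Tightness of class a over `O2`.
Notation as in TAA; the type over `O2` is given by the REVERSED profile
`P = {j ∈ sp k a : all entries behind j are ≤ 1}` and the degree (OPF, OCA; the representative has
1 on `P` without its minimum and the rest at `min P`); `max P = max (sp k a)`.
PROOF.  As in TAA we may assume `i = ℓ = max (sp k a) = max (sp k b)`, `P ≠ P'` the reversed profiles
of `a`, `a'`, `max P' = ℓ` (else F0, F2).  `c ≥ 1` = length of the longest common final segment,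
`N = max |P| |P'| > c`.  OCR for the reversed congruence: `J'(m, d)` (an `m`-set is related to itself
without its MINIMUM) for all `m ≥ 3`, `c < m ≤ N`, and if `c = 1` also `{j, ℓ} ~ρ {ℓ}` (degree `d`).
(1) `c = 1`: all reversed profiles with maximum `ℓ` and size `≤ N` are `ρ`-related, in particular
`a ~ρ d e_ℓ` and `a ~ρ (d-1) e_j + e_ℓ` for all `j < ℓ`.  `d = 2`: as in TAA (2).  `d ≥ 3`: claim
`s := Bt β 1 (0,3) (1,1) 1` or `u := Bt β 1 (2,1) (1,1) 1`: if not, `O1 β`, so with `O2` all reversed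
profiles of size `≤ 2` and with the same maximum are `β`-related in every degree `≥ 3`; as
`L1 β k a a'` fails, some `J'(m, d)`, `3 ≤ m ≤ N`, fails in `β`, so `JJ` fails in `β` (`JJ` gives all `J'(m, d)`
by push and add) and `v1 := Bt β 2 (2,0,1) (0,1,1) 2` holds, which gives `u` (F4, `0, 1 ↦ 0`).
 `b ℓ ≥ 2`: F6 with `d e_ℓ`.  `b ℓ = 1`, `b j ≥ 1`, `j < ℓ`: `s` with `d e_ℓ` or `u` with `(d-1) e_j + e_ℓ`.
(2) `c ≥ 2`: let `X` be the common final segment, `x1 = min X < ℓ`; `d ≥ N ≥ c + 1`.  `a ~ρ` the type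
with reversed profile `X` and degree `d` (entry `≥ 2` at `x1`, 1 on the rest of `X`), and `~ρ` the one with
`{j} ∪ X` for every `j < x1` (`c + 1 ≤ N`).  `L1 β k a a'` fails, so `JJ` fails in `β` (else all `J'(m,d)`, and
`P`, `P'` are both `β`-related to `X`); so `v1` and (`v2 := Bt β 2 (0,2,1) (1,0,1) 2` or
`h := Bt β 2 (1,1,1) (1,0,1) 2`).  `b ℓ ≥ 2`: `v1` with F4 (`0 ↦ x1`, `1, 2 ↦ ℓ`): `Bt β k (2 e_x1 + e_ℓ) (2 e_ℓ) ℓ`,
F3, F2.  `b ℓ = 1`, `b j ≥ 1`, `j < ℓ`: `x1 < j`: `v1` with `0 ↦ x1, 1 ↦ j, 2 ↦ ℓ`; `j = x1`: `v1` with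
`0, 1 ↦ x1`; `j < x1`: `v2` with `0 ↦ j, 1 ↦ x1, 2 ↦ ℓ`, or `h` with the same map and the type with
reversed profile `{j} ∪ X`. -/
def TabStmt : Prop :=
  ∀ β : FIC, ClA β → R0 β → O2 (FC.ofFIC β) → ClauseA2 β → Tight β

/-- **TAC** (uses OCA, OCR, FAA).  Tightness of class a over `O3`; no clauses.
Notation as in TAA; `P = pr k a`.
PROOF.  (0) Facts in `β` (and `ρ`): if `a i ≥ 3`, `i ≤ k`, then `Bt β k a b i` (`deg k b ≥ 2`): if `i` is not the last
block of both, F0; else `O3` with the substitution `t ↦ y^(b i)`: `x³ y^(b i) ~ x² y^(b i) x`, and NFA-moves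
(non-last occurrences), i.e.: it is enough to have `Bt β 0 (3) (q)`-type exchange: `x^p y^q ~ y^q x^p` for
`p ≥ 3` in the last block.  (In Lean: `rr_ins'` and `RR.append` around the instance of `O3`; then NFA.)
As in TAA: `i = ℓ = max (sp k a) = max (sp k b)`, `P ≠ P' := pr k a'` (OCA), `d` the degree.
(1) If `ℓ ∉ P`, or `ℓ ∈ P` and `|P| < d - 1`: `a ~β` the representative (1 on `P` without its maximum, the
rest at `max P`): in the first case its last block is not `ℓ` (F0, F2), in the second its entry at `ℓ`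
is `≥ 3` ((0), F2).  So `ℓ = max P` and `|P| ∈ {d-1, d}`.
(2) `P` is an initial segment of `P'`: then `|P| = d - 1`, `|P'| = d`, `a'` is 1 on `P'`, `max P' > ℓ`: F0, F2.
(3) `P` is not an initial segment of `P'`, `|P| = m ≥ 3`: `tr m P ≠ tr m P'`, so `JP ρ m d`: `a ~ρ` the
representative of `P \ {ℓ}`, whose last block is `< ℓ`: F0, F2.
(4) `|P| = 2`, `P = {p, ℓ}`, not an initial segment: if `min P' = p`: `A3 ρ d` (OCR): `a ~ρ d e_p`: F0, F2.  If
`min P' ≠ p`: `B3 ρ d`: `a ~ρ d e_ℓ`.  `d ≥ 3`: (0).  `d = 2`: `a ~ρ 2 e_ℓ`, and as in TAA (2) `b ~ρ` a vector with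
entry `≥ 2` at `ℓ` (if `b ℓ = 1`): F6.
(5) `|P| = 1`, `P = {ℓ}`, `d = 2` (`d = 1` is excluded), `a = 2 e_ℓ`: if `max (sp k a') ≠ ℓ`: F0, F2.  Else `a' =
e_j + e_ℓ`: `B3 ρ 2`; as in (4). -/
def TacStmt : Prop := ∀ β : FIC, ClA β → R0 β → O3 (FC.ofFIC β) → Tight β

/-- **TAD** (uses OAR, ODA, ODR, FAA).  Tightness of class a over `O4`; no clauses.
Notation as in TAA.
PROOF.  (0) If `a i ≥ 3` then `Bt β k a b i`: `O4` with `t ↦ y^q`: `x³ y^q ~ x y^q x²` (as in TAC (0)).
(1) If `d ≥ 3` and `|par k a| < d`: there is a square; put all squares into block `ℓ` (ODA): the entry at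
`ℓ` is `≥ 3` ((0), F2), or it is 2, then `ℓ ∉ par`, `par ≠ ∅` (`d ≥ 3`), `par` is behind... all elements of
`par` are `< ℓ`: move the square to one of them: the last block is `< ℓ`: F0, F2.
(2) `d ≥ 3`, `|par k a| = d`: `par k a' ≠ par k a` (ODA, not `L1 β`), ODR: `EP ρ d d`, so `a ~ρ d e_ℓ`: (0).
(3) `d = 2`: as in TAA: `max (sp k a') = ℓ`, `sp k a ≠ sp k a'`, both of size `≤ 2` and not both of size 1;
OAR: `BP ρ 2`, so `a ~ρ 2 e_ℓ`, and `b ~ρ` a vector with entry `≥ 2` at `ℓ`: F6, F2, F5. -/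
def TadStmt : Prop := ∀ β : FIC, ClA β → R0 β → O4 (FC.ofFIC β) → Tight β

/-- the positive part of the theorem for class a -/
def GoodA (β : FIC) : Prop :=
  R0 β ∧ Cent β ∧ ((O1 (FC.ofFIC β) ∧ ClauseA1 β) ∨ (O2 (FC.ofFIC β) ∧ ClauseA2 β) ∨
    O3 (FC.ofFIC β) ∨ O4 (FC.ofFIC β))

/-- **SFA** (uses SUF, OLW, WUW, GAA, RGA, SWA, TAA, TAB, TAC, TAD).  Sufficiency for class a.
PROOF.  `Gath`, `Rig`, `SW` by GAA, RGA, SWA; `Tight` by TAA..TAD; `OneLaw` by OLW; `WU` by WUW; SUF. -/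
def SfaStmt : Prop := ∀ β : FIC, ClA β → GoodA β → ModF β

end Pool.Agent.MVO
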