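import Pool.Agent.MVO.Basic

/-!
# One block of a word and its context
-/

namespace Pool.Agent.MVO

open Pool.Agent.Helper14_MV Pool.Agent.Helper2_MV

/-- the word before block `i` -/
def pre (B : ℕ → List ℕ) : ℕ → List ℕ
  | 0 => []
  | i + 1 => asm i B ++ [i + 2]

/-- the word behind block `i` up to block `i + r` -/
def suf (B : ℕ → List ℕ) (i : ℕ) : ℕ → List ℕ
  | 0 => []
  | r + 1 => suf B i r ++ (i + r + 2) :: B (i + r + 1)

theorem asm_pre (B : ℕ → List ℕ) (i : ℕ) : asm i B = pre B i ++ B i := by
  cases i with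
  | zero => simp [asm, pre]
  | succ i => simp [asm, pre]

theorem asm_split' (B : ℕ → List ℕ) (i r : ℕ) :
    asm (i + r) B = pre B i ++ B i ++ suf B i r := by
  induction r with
  | zero => simp [suf, asm_pre]
  | succ r ih =>
    have e : i + (r + 1) = (i + r) + 1 := by omega
    rw [e]
    simp only [asm, suf]
    rw [ih]
    simp

/-- **SPLIT** -/
theorem asm_split {k i : ℕ} (h : i ≤ k) (B : ℕ → List ℕ) :
    asm k B = pre B i ++ B i ++ suf B i (k - i) := by
  have e : k = i + (k - i) := by omega
  conv_lhs => rw [e]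
  exact asm_split' B i (k - i)

theorem pre_congr {B B' : ℕ → List ℕ} {i : ℕ} (h : ∀ j < i, B j = B' j) :
    pre B i = pre B' i := by
  cases i with
  | zero => rfl
  | succ i =>
    simp only [pre]
    rw [asm_congr (fun j hj => h j (by omega))]

theorem suf_congr {B B' : ℕ → List ℕ} {i r : ℕ} (h : ∀ j, i < j → j ≤ i + r → B j = B' j) :
    suf B i r = suf B' i r := by
  induction r with
  | zero => rfl
  | succ r ih =>
    simp only [suf]
    rw [ih (fun j h1 h2 => h j h1 (by omega)), h (i + r + 1) (by omega) (by omega)]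

theorem mem_pre {B : ℕ → List ℕ} {i c : ℕ} :
    c ∈ pre B i ↔ (2 ≤ c ∧ c ≤ i + 1) ∨ ∃ j < i, c ∈ B j := by
  cases i with
  | zero =>
    simp only [pre]
    constructor
    · intro h; simp at h
    · rintro (h | ⟨j, hj, _⟩)
      · omega
      · omega
  | succ i =>
    simp only [pre, List.mem_append, List.mem_singleton, mem_asm]
    constructor
    · rintro ((h | ⟨j, hj, h⟩) | h)
      · left; omega
      · exact Or.inr ⟨j, by omega, h⟩
      · left; omega
    · rintro (h | ⟨j, hj, h⟩)
      · by_cases hc : c = i + 2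
        · exact Or.inr hc
        · exact Or.inl (Or.inl (by omega))
      · exact Or.inl (Or.inr ⟨j, by omega, h⟩)

theorem mem_suf {B : ℕ → List ℕ} {i r c : ℕ} :
    c ∈ suf B i r ↔ (i + 2 ≤ c ∧ c ≤ i + r + 1) ∨ ∃ j, i < j ∧ j ≤ i + r ∧ c ∈ B j := by
  induction r with
  | zero =>
    simp only [suf]
    constructor
    · intro h; simp at h
    · rintro (h | ⟨j, h1, h2, _⟩)
      · omega
      · omega
  | succ r ih =>
    simp only [suf, List.mem_append, List.mem_cons, ih]
    constructor
    · rintro ((h | ⟨j, h1, h2, h⟩) | h | h)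
      · left; omega
      · exact Or.inr ⟨j, h1, by omega, h⟩
      · left; omega
      · exact Or.inr ⟨i + r + 1, by omega, by omega, h⟩
    · rintro (h | ⟨j, h1, h2, h⟩)
      · by_cases hc : c = i + r + 2
        · exact Or.inr (Or.inl hc)
        · exact Or.inl (Or.inl (by omega))
      · by_cases hj : j = i + r + 1
        · subst hj; exact Or.inr (Or.inr h)
        · exact Or.inl (Or.inr ⟨j, h1, by omega, h⟩)

/-- a block `j < i` inside the word before block `i` -/
theorem pre_split {B : ℕ → List ℕ} {i j : ℕ} (h : j < i) :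
    ∃ R, pre B i = pre B j ++ B j ++ R := by
  cases i with
  | zero => omega
  | succ i =>
    refine ⟨suf B j (i - j) ++ [i + 2], ?_⟩
    have e : pre B (i + 1) = asm i B ++ [i + 2] := rfl
    rw [e, asm_split (by omega : j ≤ i)]
    simp only [List.append_assoc]

/-- a block `j > i` inside the word behind block `i` -/
theorem suf_split {B : ℕ → List ℕ} {i j r : ℕ} (h1 : i < j) (h2 : j ≤ i + r) :
    ∃ R R', suf B i r = R ++ B j ++ R' := by
  induction r with
  | zero => omega
  | succ r ih =>
    simp only [suf]
    by_cases hj : j = i + r + 1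
    · subst hj
      exact ⟨suf B i r ++ [i + r + 2], [], by simp⟩
    · obtain ⟨R, R', h⟩ := ih (by omega)
      exact ⟨R, R' ++ (i + r + 2) :: B (i + r + 1), by rw [h]; simp⟩

/-- change of one block -/
theorem asm_update {k i : ℕ} (h : i ≤ k) (B : ℕ → List ℕ) (L : List ℕ) :
    asm k (Function.update B i L) = pre B i ++ L ++ suf B i (k - i) := by
  rw [asm_split h, Function.update_self]
  rw [pre_congr (B' := B) (fun j hj => Function.update_of_ne (by omega) _ _),
    suf_congr (B' := B) (fun j h1 _ => Function.update_of_ne (by omega) _ _)]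

end Pool.Agent.MVO
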