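import Pool.Agent.MVO.StmtsA
import Pool.Agent.MVO.Split
import Pool.Agent.MVD.Defs

/-!
# Squad MVO, block C: class c1 (s2, the pins F and Z, and A), sufficiency (MP_23468a_al)

Class Cc (`MVD.Cc`, file `MVD/Defs.lean`): s2 (`MVD.S2`: `xtxysy ≈ xtyxsy`) and
[F] (`MVD.FF`) `p xy q x c y r ≈ p yx q x c y r`, [Z] (`MVD.ZZ`) `p x c y q xy r ≈ p x c y q yx r` for all words
`p, q, c, r` such that no letter of `c` is simple in the whole word.  Class c1: class Cc and A
(`MVD.IA`): `xtxyy ≈ xtyyx`.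
In words of class c1 only two kinds of adjacent pairs do not commute: two first occurrences
(`FR`) and two last occurrences (`ZR`).

Every row: file `Pool/Agent/HelperNN_MVO/XXX.lean`, import `Pool.Agent.MVO.StmtsC`, theorem
`xxx (hypotheses = rows in uses, in this order) : XxxStmt`.  Read `Defs.lean`, `Basic.lean`,
`Push.lean`, `Split.lean` (`asm_split`, `mem_pre`, `mem_suf`, `pre_split`, `suf_split`, `asm_update`).
All words are lists; `RR β` is an equivalence relation, closed under `RR.append`, `RR.sub`,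
`RR.filter`.  Notation `x^m` for `List.replicate m x`.
-/

namespace Pool.Agent.MVO

open Pool.Agent.Helper14_MV Pool.Agent.Helper2_MV

/-- class c1: class Cc and A: `xtxyy ≈ xtyyx` -/
structure ClC1 (β : FIC) : Prop where
  cc : MVD.Cc β
  A : MVD.IA β

/-- `x` and later `y` occur in `l`, and no letter between these occurrences is simple in `w` -/
def Cob (w l : List ℕ) (x y : ℕ) : Prop :=
  ∃ l1 c l2 : List ℕ, l = l1 ++ x :: (c ++ y :: l2) ∧ ∀ z ∈ c, 2 ≤ w.count z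

/-- **SGC** (uses nothing).  Single exchanges in class Cc.
PROOF.  (1) `x ∈ p`, `y ∈ q`: `p = p1 ++ x :: p2`, `q = q1 ++ y :: q2` (`List.append_of_mem`); s2 under the
substitution `0 ↦ [x], 3 ↦ [y], 2 ↦ p2, 5 ↦ q1` (`RR.sub`), times `p1` and `q2`.  (2) The axiom F with
`q = l1 ++ x :: (c ++ y :: l2)`; if `q = l1 ++ y :: (c ++ x :: l2)`: F for `y, x`, read backwards (the
counts in the two words are the same: `List.Perm`).  (3) The axiom Z, in the same way:
`p = l1 ++ x :: (c ++ y :: l2)`, so the word is `l1 ++ x :: (c ++ y :: (l2 ++ x :: y :: q))`. -/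
def SgcStmt : Prop :=
  ∀ β : FIC, MVD.Cc β → ∀ (p q : List ℕ) (x y : ℕ),
    (x ∈ p → y ∈ q → RR β (p ++ x :: y :: q) (p ++ y :: x :: q)) ∧
    (Cob (p ++ x :: y :: q) q x y ∨ Cob (p ++ x :: y :: q) q y x →
      RR β (p ++ x :: y :: q) (p ++ y :: x :: q)) ∧
    (Cob (p ++ x :: y :: q) p x y ∨ Cob (p ++ x :: y :: q) p y x →
      RR β (p ++ x :: y :: q) (p ++ y :: x :: q))

/-- **APC** (uses SGC).  The identity A' of class c1.
PROOF.  Induction on `m`.  `m = 2`: `p = p1 ++ x :: p2`, A under `0 ↦ [x], 3 ↦ [y], 2 ↦ p2`, times `p1` and `q`.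
`m ≥ 3`: `x y^m q`: `x` goes over the first `y` by SGC (1) (`x ∈ p`, `y ∈ y^(m-1) ++ q`), then over `y^(m-1)`
by induction with `p := p ++ [y]`. -/
def ApcStmt : Prop :=
  ∀ β : FIC, ClC1 β → ∀ (p q : List ℕ) (x y m : ℕ), x ∈ p → 2 ≤ m →
    RR β (p ++ x :: (List.replicate m y ++ q)) (p ++ List.replicate m y ++ x :: q)

/-- **PWC** (uses SGC, APC).  Exchange of powers in class c1.
PROOF.  All words which occur are permutations of `w`.  If `x = y`: equal words
(`x^a x^b = x^(a+b)`); if `a = 0` or `b = 0`: trivial.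
(1) `x ∈ p`, `y ∈ q`: all single exchanges `p' x y q' ~ p' y x q'` have `x ∈ p'`, `y ∈ q'`: SGC (1); move the
`x`'s one after the other over `y^b`.  (2) `y ∈ p`, `x ∈ q`: the same (SGC (1) for `y, x`, backwards).
(3) `x ∈ p`, `2 ≤ b`: APC for each `x` (the last `x` first; `x ∈ p ++ x^j`).  (4) `y ∈ p`, `2 ≤ a`: APC for
`y, x` backwards: `y^b x^a ~ x^a y^b`.
(5) `2 ≤ a`, `2 ≤ b`: `x x^(a-1) y^b ~ x y^b x^(a-1)` by (3) with `p := p ++ [x]`; then the remaining `x` goes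
over the first `y` by SGC (2) (`x y (y^(b-1) x^(a-1)) q`: `y .. x` is a `Cob`, only letters `y` between, or
take adjacent ones), and over the others by SGC (1) for `y, x` backwards (`y` in the left part, `x` in
the right part).
(6) a `Cob` in `p` or in `q`: it is still there for every single exchange (`p'` begins with `p`, `q'` ends
with `q`; the counts are the same): SGC (2), (3). -/
def PwcStmt : Prop :=
  ∀ β : FIC, ClC1 β → ∀ (p q : List ℕ) (x y a b : ℕ) (w : List ℕ),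
    w = p ++ List.replicate a x ++ List.replicate b y ++ q →
    ((x ∈ p ∧ y ∈ q) ∨ (y ∈ p ∧ x ∈ q) ∨ (x ∈ p ∧ 2 ≤ b) ∨ (y ∈ p ∧ 2 ≤ a) ∨ (2 ≤ a ∧ 2 ≤ b) ∨
      Cob w p x y ∨ Cob w p y x ∨ Cob w q x y ∨ Cob w q y x) →
      RR β w (p ++ List.replicate b y ++ List.replicate a x ++ q)

/-- **GMC** (uses SGC, APC).  One more occurrence of `z` in a gathered word.
PROOF.  Induction on the length of `D`.  Call `c ∈ D` stuck if `n c = 1` and `c ∉ q` (then `c ∈ p`).
(1) No element is stuck: the last `z` goes left over all powers `c^(n c)`: if `2 ≤ n c` by APC (for `x := z`,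
read backwards; `1 ≤ m`, so `z` is in the left part), if `n c = 1`, `c ∈ q`, by SGC (1) (`z` in the left
part, `c ∈ q`; backwards).  `D' = z :: D`.  (Induction on `D` from the right.)
(2) Otherwise let `v` be the first stuck element, `D = E1 ++ v :: E2`, no element of `E1` is stuck.  `v` goes
left over `gb n E1` (its powers: APC with `x := v`, `v ∈ p`, or SGC (1): `v ∈ p`, `c ∈ q`) and over `z^m`
(`2 ≤ m`: APC; `m = 1`: SGC (1) with `v ∈ p` and the last `z` on the right).  All these are of the form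
`p' c^s v q' ~ p' v c^s q'`.  Now the word is `(p ++ [v]) ++ z^m ++ gb n (E1 ++ E2) ++ z :: q`; induction
gives `D1'` for `E1 ++ E2`; `D' = v :: D1'` (`v ≠ z`, `n v = 1`). -/
def GmcStmt : Prop :=
  ∀ β : FIC, ClC1 β → ∀ (D : List ℕ) (n : ℕ → ℕ) (z m : ℕ) (p q : List ℕ), D.Nodup → z ∉ D →
    1 ≤ m → (∀ c ∈ D, 1 ≤ n c) → (∀ c ∈ D, n c = 1 → c ∈ p ∨ c ∈ q) →
      ∃ D' : List ℕ, D'.Perm (z :: D) ∧
        RR β (p ++ List.replicate m z ++ gb n D ++ z :: q)
          (p ++ gb (Function.update n z (m + 1)) D' ++ q)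

/-- **GBC** (uses GMC).  Every block can be gathered in its context.
PROOF.  Induction on `L` from the right (`List.reverseRecOn`), for all `p, q`.  `L = L' ++ [z]`: the
induction hypothesis for `L'`, `p`, `z :: q` (the same word) gives `D'` and
`w ~ p ++ gb n' D' ++ z :: q`, `n' c = L'.count c`.  If `z ∉ L'`: `D = D' ++ [z]`.  If `z ∈ L'`:
`D' = D1 ++ z :: D2`, and GMC for `D2`, `m = n' z`, `p := p ++ gb n' D1` (if `n' c = 1` for `c ∈ D2` then,
because `c ≠ z` has at least 2 occurrences in the word and `D'` has no repetitions, `c ∈ p` or `c ∈ q`) gives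
`D3`, a permutation of `z :: D2`; `D = D1 ++ D3`. -/
def GbcStmt : Prop :=
  ∀ β : FIC, ClC1 β → ∀ L p q : List ℕ, (∀ c ∈ L, 2 ≤ (p ++ L ++ q).count c) →
    ∃ D : List ℕ, D.Nodup ∧ (∀ c, c ∈ D ↔ c ∈ L) ∧
      RR β (p ++ L ++ q) (p ++ gb (fun c => L.count c) D ++ q)

/-- **GAC** (uses GBC).  PROOF.  Induction on `s ≤ k + 1`: there is `D` with `(D j).Perm X` for all `j` and
`asm k B ~ asm k (fun j => if j < s then gb (fun c => (B j).count c) (D j) else B j)`.  Step: block `s` in its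
context (`asm_split`, `asm_update`), GBC (all letters of the blocks are multiple in the new word, as the
counts did not change) gives `D0`; the new `D s` is `D0 ++ X.filter (· ∉ D0)`, the added letters have
`(B s).count c = 0`, so `gb` does not change. -/
def GacStmt : Prop := ∀ β : FIC, ClC1 β → Gath β

/-- the first occurrences of the two letters are in block `i` and their order matters -/
def FR (k : ℕ) (a b : ℕ → ℕ) (i : ℕ) : Prop :=
  (∀ j < i, a j = 0 ∧ b j = 0) ∧ (∀ j ≤ k, j ≠ i → a j = 0 ∨ b j = 0) ∧ 1 ≤ a i ∧ 1 ≤ b i ∧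
    (a i = 1 ∨ b i = 1)

/-- the last occurrences of the two letters are in block `i` and their order matters -/
def ZR (k : ℕ) (a b : ℕ → ℕ) (i : ℕ) : Prop :=
  (∀ j ≤ k, i < j → a j = 0 ∧ b j = 0) ∧ (∀ j ≤ k, j ≠ i → a j = 0 ∨ b j = 0) ∧ a i = 1 ∧ b i = 1

/-- **EXC** (uses PWC).  The free exchanges in gathered words.
PROOF.  `asm_split`, `asm_update`: the word is `p ++ x^a ++ y^b ++ q` with `a = n i x`, `b = n i y`,
`p = pre .. i ++ gb (n i) A`, `q = gb (n i) B ++ suf .. i (k-i)`; `x, y ∉ A, B` (no repetitions),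
`x ≠ y`.  `x ∈ p` iff `1 ≤ n j x` for some `j < i`, `x ∈ q` iff `1 ≤ n j x` for some `i < j ≤ k`, the same
for `y` (`mem_pre`, `mem_suf`; `x, y` are not simple letters).  `a = 0` or `b = 0`: equal words.
If `n j x, n j y ≥ 1` for some `j ≠ i`, `j ≤ k`: `Cob` in `p` or `q` (`pre_split`, `suf_split`; between the
two letters in the gathered block `j` there are letters of `X`, which are multiple: `count_asm`,
`GData.mult`).  So assume that there is no such `j`.  Let `Bx` := `x ∈ p`, `Ax` := `x ∈ q`, `By`, `Ay`.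
`Bx ∧ Ay` or `By ∧ Ax`: PWC (1), (2).  Otherwise:  `Bx`: then not `Ay`.  If `Ax`: then not `By`, so `y` occurs
only in block `i`, `b ≥ 2`: PWC (3).  If not `Ax`: neither `x` nor `y` occurs behind `i`; if `b ≥ 2`: PWC (3).
If `b = 1`: `By` (`y` is multiple), and `a ≥ 2` (else `ZR`): PWC (4).  `By`: symmetric.  Neither `Bx` nor
`By`: `a, b ≥ 2` (else `FR`): PWC (5). -/
def ExcStmt : Prop :=
  ∀ β : FIC, ClC1 β → ∀ (k : ℕ) (X : List ℕ) (n : ℕ → ℕ → ℕ) (D : ℕ → List ℕ), GData k X n D →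
    ∀ i ≤ k, ∀ (A B : List ℕ) (x y : ℕ), D i = A ++ x :: y :: B →
      ¬ FR k (fun j => n j x) (fun j => n j y) i → ¬ ZR k (fun j => n j x) (fun j => n j y) i →
        RR β (gw k n D) (gw k n (Function.update D i (A ++ y :: x :: B)))

/-- **RGC** (uses EXC).  PROOF.  `w2 k a b e` is `gw k n D` for `X = [0, 1]`, `n j 0 = a j`, `n j 1 = b j`,
`n j c = 0` else, `D j = [0, 1]` if `e j = false`, `[1, 0]` if `e j = true`.  If `FR k a b r` or `ZR k a b r`
for some `r ≤ k` take `i := r`: then `a j = 0` or `b j = 0` for the other blocks, so neither `FR` nor `ZR`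
holds for `j ≠ i`.  If there is no such `r` take `i := 0`.  In all cases the words for `e`, `e'` with
`e i = e' i` are connected by exchanges in blocks `j ≠ i`, `j ≤ k` (change the values of `e` to those of
`e'` one after the other, `asm_congr` at the end): EXC (also in the other direction: `RR.symm`). -/
def RgcStmt : Prop := ∀ β : FIC, ClC1 β → Rig β

/-- **SWC** (uses EXC).  PROOF.  If neither `FR` nor `ZR` holds for the types of `x`, `y` in block `i`: EXC
and `β ≤ ω`.  Otherwise `n j x = 0` or `n j y = 0` for all `j ≠ i`, `j ≤ k`.  Use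
`Ex ω k (n · x) (n · y) (fun _ => false) i` and `rr_ins` with `h 0 = [x]`, `h 1 = [y]`, and
`P i = gb (n i) A`, `Q i = gb (n i) B`; for `j ≠ i`: let `c` be the one of `x, y` with `n j c ≠ 0` (or `x`), and
`D j = Z1 ++ c :: Z2`: `P j = gb (n j) Z1`, `Q j = gb (n j) Z2`; the block is
`gb (n j) Z1 ++ c^(n j c) ++ gb (n j) Z2 = gb (n j) (D j)`, since the other letter has the exponent 0
and contributes nothing to `gb`. -/
def SwcStmt : Prop := ∀ β : FIC, ClC1 β → SW β

/-- **FCC** (uses SGC, EXC).  The calculus of exchanges in class c1.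
`Bt ρ k a b i` (StmtsA) := all exchanges of the types `a`, `b` in block `i` are in `ρ`.
PROOF.  (C0) EXC for the two letter words (as in RGC).  (C2) For every `e`: `w2 k a b e ~ w2 k a' b e` in
`ρ` (`rr_ins` for `mw k a ~ mw k a'` with the powers of `y` as `P j` if `e j`, as `Q j` if not).
(C5) exchange the letters 0 and 1: `bl p q e` becomes `bl q p (!e)`.
(C3) If the pair `a + d, b + d'` is neither `FR` nor `ZR` at `i`: (C0) (the degrees are `≥ 2`).  In both
other cases in every block `j ≠ i` only one of `a + d`, `b + d'` is not 0.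
`ZR`: `a i = b i = 1`, `d i = d' i = 0`: `rr_ins'` with `P j = 0^(d j) 1^(d' j)`, `Q j = []`: the blocks
are the blocks of `w2 k (a+d) (b+d') e`.
`FR`, `(a + d) i = 1`: so `a i = 1`, `d i = 0`.  `rr_ins'` with `P j = []`, `Q j = 0^(d j) 1^(d' j)`.  Blocks
`j ≠ i`: correct.  Block `i`: `0 1^(b i) 1^(d' i)` is correct, and `1^(b i) 0 1^(d' i) ~ 1^(b i + d' i) 0`
by SGC (1) in the context (`1` in the left part; `0` occurs in a block behind `i`, because
`deg k (a + d) ≥ 2` and it has only one occurrence in the blocks up to `i`).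
`FR`, `(b + d') i = 1`: by (C5) from the previous case.
(C4F) The pushed pair `a', b'` has the same degrees.  If it is neither `FR` nor `ZR` at `f i`: (C0).
`ZR` is impossible: `a' (f i) = 1` means that `a j = 0` for all `j ≠ i` with `f j = f i`, and
`a' j = 0` behind `f i` means that `a j = 0` for all `j > i` with `f j > f i`; so `deg k a = a i = 1`.
`FR`: in the blocks `≠ f i` only one of the letters occurs.  Let `a' (f i) = 1` (the other case by
(C5)): `a i = 1` and `a j = 0` for `j ≠ i`, `f j = f i`.  `rr_push` for `w2 k a b e` and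
`w2 k a b (flp e i)` with `e i := e' (f i)`: block `f i` is `bl 1 (b i) (e i) ++ 1^t` (nothing on the left
side because `b j = 0` for `j < i`), `b' (f i) = b i + t`; as in (C3) `1^(b i) 0 1^t ~ 1^(b i + t) 0`.  The
other blocks are powers of one letter.
(C4Z) If the pushed pair is neither `FR` nor `ZR` at `f i`: (C0).  `FR`: `a', b'` vanish before `f i`, and
`a j = b j = 0` for `j > i`, so both are 0 outside `f i`, hence `a' (f i), b' (f i) ≥ 2`, a contradiction.
`ZR`: `a' (f i) = b' (f i) = 1`: only block `i` contributes to block `f i`; `rr_push`; the other blocks are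
powers of one letter. -/
def FccStmt : Prop :=
  ∀ ρ : FIC, ClC1 ρ →
    (∀ (k : ℕ) (a b : ℕ → ℕ) (i : ℕ), 2 ≤ deg k a → 2 ≤ deg k b → i ≤ k → ¬ FR k a b i →
      ¬ ZR k a b i → Bt ρ k a b i) ∧
    (∀ (k : ℕ) (a a' b : ℕ → ℕ) (i : ℕ), L1 ρ k a a' → Bt ρ k a' b i → Bt ρ k a b i) ∧
    (∀ (k : ℕ) (a b d d' : ℕ → ℕ) (i : ℕ), 2 ≤ deg k a → 2 ≤ deg k b → i ≤ k → 1 ≤ a i →
      1 ≤ b i → Bt ρ k a b i → Bt ρ k (fun j => a j + d j) (fun j => b j + d' j) i) ∧
    (∀ (k k' : ℕ) (f : ℕ → ℕ) (a b : ℕ → ℕ) (i : ℕ), BMap k k' f → 2 ≤ deg k a →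
      2 ≤ deg k b → i ≤ k → 1 ≤ a i → 1 ≤ b i → (∀ j < i, a j = 0 ∧ b j = 0) →
        Bt ρ k a b i → Bt ρ k' (psh k f a) (psh k f b) (f i)) ∧
    (∀ (k k' : ℕ) (f : ℕ → ℕ) (a b : ℕ → ℕ) (i : ℕ), BMap k k' f → 2 ≤ deg k a →
      2 ≤ deg k b → i ≤ k → 1 ≤ a i → 1 ≤ b i → (∀ j ≤ k, i < j → a j = 0 ∧ b j = 0) →
        Bt ρ k a b i → Bt ρ k' (psh k f a) (psh k f b) (f i)) ∧
    (∀ (k : ℕ) (a b : ℕ → ℕ) (i : ℕ), Bt ρ k a b i → Bt ρ k b a i)

/-- the identity `Jd`: `(1,1,1) ~ (1,2,0)` -/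
def JJd (R : FC) : Prop := R.R 2 (v3 1 1 1) (v3 1 2 0)

/-- the clause of class c1 over `O1`: `II` or g1d -/
def ClauseC1 (β : FIC) : Prop := II (FC.ofFIC β) ∨ Bt β 2 (v3 1 2 0) (v3 1 0 1) 0
/-- the clause of class c1 over `O2`: `JJ` or v1 -/
def ClauseC2 (β : FIC) : Prop := JJ (FC.ofFIC β) ∨ Bt β 2 (v3 2 0 1) (v3 0 1 1) 2
/-- the clause of class c1 over `O3`: `JJd` or v1d -/
def ClauseC3 (β : FIC) : Prop := JJd (FC.ofFIC β) ∨ Bt β 2 (v3 1 0 2) (v3 1 1 0) 0

/-- tightness for one pair of congruences -/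
def TightAt (β ρ : FIC) : Prop :=
  ∀ (k : ℕ) (a a' : ℕ → ℕ), 2 ≤ deg k a → deg k a = deg k a' → L1 ρ k a a' →
    L1 β k a a' ∨ ∀ (b : ℕ → ℕ) (e : ℕ → Bool), 2 ≤ deg k b → ∀ i ≤ k, Ex ρ k a b e i

/-- **TC2** (uses OAA, OAR, FCC).  Tightness for small supports (in particular in degree 2).
Notation (also in the following rows): `e_i` unit vectors; `S = sp k a`, `S' = sp k a'`,
`Q = sp k b`; free = neither `FR` nor `ZR` for the pair of types at `i`.  RULE (R): if `L1 ρ k a a''`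
and `(a'', b)` is free at `i`, then `Bt ρ k a b i` ((C0), (C2)).
PROOF.  By (C0) we may assume `FR` or `ZR` for `(a, b)` at `i`.
`ZR`: `i` is the maximum of `S` and of `Q`, `a i = b i = 1`, so `|S|, |Q| ≥ 2` (degrees `≥ 2`), `S = {p, i}`,
`p < i`; types with last block `≠ i` or with entry `≥ 2` at `i` are free with `b` (`FR` needs `min Q = i`,
impossible).  If `max S' ≠ i`: (R) with `a'`.  If `max S' = i`: `S' ≠ S`, so `min S ≠ min S'`, not both of
size 1: `BP ρ d` (OAR): `a ~ d e_i`: (R).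
`FR`: `i = min S = min Q`.  If `min S' ≠ i`: (R) with `a'` (`FR` fails; `ZR` needs `max Q = i`, so `Q = {i}` and
`b i = deg k b ≥ 2`, so it fails).  If `min S' = i`: `S ≠ S'` have at most 2 elements, so
`max S ≠ max S'`, not both of size 1: `AP ρ d`: `a ~ d e_i ~ (d-1) e_i + e_q` for all `q > i`, `q ≤ k`.  If
`Q = {i}`: `b i ≥ 2`, (R) with `d e_i`, `d ≥ 2`.  If `q ∈ Q`, `q > i`: (R) with `(d-1) e_i + e_q` (the supports
meet in `q ≠ i`). -/
def Tc2Stmt : Prop :=
  ∀ ρ : FIC, ClC1 ρ → ∀ (k : ℕ) (a a' b : ℕ → ℕ) (i : ℕ),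
    (O1 (FC.ofFIC ρ) ∨ deg k a = 2) → 2 ≤ deg k a → deg k a = deg k a' → 2 ≤ deg k b → i ≤ k →
      L1 ρ k a a' → sp k a ≠ sp k a' → (sp k a).card ≤ 2 → (sp k a').card ≤ 2 → Bt ρ k a b i

/-- **TCA** (uses OAA, OAR, FCC, TC2).  Tightness of class c1 over `O1`.
(Only `ρ` is assumed to be of class c1; the calculus FCC is used for `ρ`; g1d is in `β ≤ ρ`.)
PROOF.  Notation and rule (R) as in TC2.  `ρ ≥ β`, `L1 ρ k a a'`, `d = deg k a = deg k a' ≥ 2`, not
`L1 β k a a'`; `b`, `i` given.  `S ≠ S'` (OAA for `β`).  `N := max |S| |S'|`.  `N ≤ 2`: TC2.  Let `N ≥ 3`, so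
`d ≥ 3`, and `IP ρ N d` (OAR).  We may assume `FR` or `ZR` at `i` (C0).
`ZR`: `a i = 1`, `i = max S`, `|S| ≥ 2`; `a ~ρ e_p + (d-1) e_i` with `p = min S` (`IP`), entry `≥ 2` at `i`: (R).
`FR`: `i = min S = min Q`.  `min S' ≠ i`: (R) with `a'` as in TC2.  Let `min S' = i`.
(1) If `max S ≠ max S'`: `AP ρ d` (OAR; `S, S'` are not both of size 1).  `S ~ {i, max S}` (or `{i}`) by `IP`,
so `a ~ρ d e_i ~ρ (d-1) e_i + e_q` for all `i < q ≤ k`: finish as in TC2.
(2) `max S = max S' = j'`; then `j' > i` (`N ≥ 3`).  `II` is not in `β`: otherwise `IP β m d` for all `m` (as in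
TAA (1)), and `L1 β k a a'`.  So g1d is in `β`.
 - there is `q ∈ Q` with `i < q ≤ j'`: `a ~ρ` a vector with the support `{i, q, j'}` (size `≤ 3 ≤ N`, the
   same ends; `IP`): meets `Q` in `q`: (R).
 - `Q = {i}`: `b i ≥ 2`, (R) with `(d-1) e_i + e_(j')`, `d - 1 ≥ 2` (`IP`).
 - otherwise there is `q ∈ Q`, `q > j'`.  g1d with (C4F), `0 ↦ i, 1 ↦ j', 2 ↦ q`:
   `Bt ρ k (e_i + 2 e_(j')) (e_i + e_q) i`; (C3) with `d := (d-3) e_(j')` and `d' := b - e_i - e_q`:
   `Bt ρ k (e_i + (d-1) e_(j')) b i`; and `a ~ρ e_i + (d-1) e_(j')` (`IP`): (C2). -/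
def TcaStmt : Prop :=
  ∀ β ρ : FIC, β ≤ ρ → ClC1 ρ → O1 (FC.ofFIC β) → ClauseC1 β → TightAt β ρ

/-- **TCB** (uses OPF, OCA, OCR, FCC).  Tightness of class c1 over `O2`.
Over `O2` the type is (degree, reversed profile `P = {j ∈ sp k a : all entries behind j are ≤ 1}`)
(OPF, OCA); representative `rep P`: 1 on `P` without `min P`, the rest `d - |P| + 1` at `min P`.
`max P = max (sp k a)`.  Let `P, P'` be the reversed profiles of `a, a'`; `P ≠ P'` (OCA for `β`).  OCR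
(reversed) gives for `ρ`: `J'(m)`: for `m ≥ 3` with `top m P ≠ top m P'` and `m ≤ |P|` or `m ≤ |P'|`: every
`m`-set is related to itself without its minimum (degree `d`); if `max P = max P'` and
`top 2 P ≠ top 2 P'`: `{j, ℓ} ~ {ℓ}` for all `j < ℓ` (A3 of the reversed congruence); if `max P ≠ max P'`, not
both of size 1: `{j} ~ {j, ℓ}` for all `j < ℓ` (B3 reversed).  Rule (R) as in TC2.
PROOF.  We may assume `FR` or `ZR` at `i`.
`FR`: `i = min (sp k a) = min Q`, `Q = sp k b`.  If `min P > i`: (R) with `rep P` (`FR` fails, `ZR` needs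
`max Q = i`, hence `Q = {i}`, `b i ≥ 2`, fails).  So `min P = i`.  If `min P' ≠ i`: (R) with `rep P'`.  So
`min P' = i`.  `P` and `P'` are not final segments of each other (both have the minimum `i`).  If
`|P| ≥ 3`: `J'(|P|)` gives `a ~ρ rep (P \ {i})`: (R).  `|P'| ≥ 3`: `J'(|P'|)`: `a ~ρ a' ~ρ rep (P' \ {i})`: (R).
If both have at most 2 elements: `max P ≠ max P'`, not both of size 1: B3 reversed: `a ~ρ d e_i ~ρ
(d-1) e_i + e_q` for all `q > i` (if `P = {i, ℓ}` then `P ~ {i}`): finish as in TC2.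
`ZR`: `i = max P = max Q`, `a i = b i = 1`, `|P| ≥ 2`, `Q` has an element `< i`; types with last block
`≠ i` or entry `≥ 2` at `i` are free with `b` (as in TC2).  `max P' ≠ i`: (R) with `a'`.  Let
`max P' = i`, `X` = the longest common final segment of `P`, `P'`, `c = |X| ≥ 1`, `N = max |P| |P'| > c`.
`c = 1`: `J'(m)` for `3 ≤ m ≤ |P|` and A3 reversed: `a ~ρ {p, i} ~ρ {i}`, i.e. `a ~ρ d e_i`: (R).
`c ≥ 2`: `J'(m)` for `c < m ≤ N`: `a ~ρ rep X`, and `rep X ~ρ rep ({j} ∪ X)` for all `j < x1 := min X`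
(`c + 1 ≤ N ≤ d`).  `JJ` is not in `β` (it gives `J'(m)` for all `m ≥ 3` in `β` by push and add, so `P ~ X ~ P'`).
So v1 is in `β`.  If `Q` meets `X` outside `i`: (R) with `rep X`.  If `j ∈ Q`, `j < x1`: (R) with
`rep ({j} ∪ X)`.  Otherwise take `j ∈ Q`, `j ≠ i`: `x1 < j < i`; v1 with (C4Z), `0 ↦ x1, 1 ↦ j, 2 ↦ i`:
`Bt ρ k (2 e_x1 + e_i) (e_j + e_i) i`; (C3) (`rep X` has the entry `d - c + 1 ≥ 2` at `x1`):
`Bt ρ k (rep X) b i`; (C2).  (FCC is used for `ρ` only.) -/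
def TcbStmt : Prop :=
  ∀ β ρ : FIC, β ≤ ρ → ClC1 ρ → O2 (FC.ofFIC β) → ClauseC2 β → TightAt β ρ

/-- **TCC** (uses OCA, OCR, FCC).  Tightness of class c1 over `O3`.
Type = (degree, profile `P = pr k a`) (OCA); `rep P`: 1 on `P` without `max P`, the rest at `max P`;
`min P = min (sp k a)`.  `P' = pr k a'`, `P ≠ P'`.  OCR for `ρ`.  Rule (R) as in TC2.
PROOF.  We may assume `FR` or `ZR` at `i`.
`ZR`: `i = max (sp k a) = max Q`, `a i = b i = 1`; types with last block `≠ i` or entry `≥ 2` at `i` are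
free with `b`.  If `max P < i`: (R) with `rep P`.  So `i ∈ P`, hence `a` is 1 on `P = sp k a`, `|P| = d ≥ 2`.
`max P' ≠ i`: (R) with `rep P'`.  `max P' = i`: `P`, `P'` are not initial segments of each other.  `|P| ≥ 3`:
`JP ρ |P| d`: `a ~ρ rep (P \ {i})`: (R).  `|P| = 2 = d`: `P' = {i}` or `{p', i}`, so `min P ≠ min P'`, not both
of size 1: `B3 ρ 2`: `a ~ρ 2 e_i`: (R).
`FR`: `i = min P = min Q`, `Q = sp k b`.  `min P' ≠ i`: (R) with `a'`.  Let `min P' = i`, `X` = the longest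
common initial segment, `c = |X| ≥ 1`, `N = max |P| |P'| > c`.
`c = 1`: `JP ρ m d` for `3 ≤ m ≤ |P|` and `A3 ρ d`: `a ~ρ d e_i ~ρ e_i + (d-1) e_q` for all `q > i`, `q ≤ k`.  If
`q ∈ Q`, `q > i`: (R).  If `Q = {i}`: `b i ≥ 2`, (R) with `d e_i`.
`c ≥ 2`: `JP ρ m d` for `c < m ≤ N`: `a ~ρ rep X`, and `rep X ~ρ rep (X ∪ {j})` for all `j > xc := max X`,
`j ≤ k`.  `JJd` is not in `β` (it gives `JP β m d` for all `m ≥ 3`, so `P ~ X ~ P'`), so v1d is in `β`.  If `Q`
meets `X` outside `i`: (R) with `rep X`.  If `j ∈ Q`, `j > xc`: (R) with `rep (X ∪ {j})`.  If there is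
`j ∈ Q`, `i < j < xc`: v1d with (C4F), `0 ↦ i, 1 ↦ j, 2 ↦ xc`: `Bt ρ k (e_i + 2 e_xc) (e_i + e_j) i`; if
`Q = {i}`: v1d with (C4F), `0, 1 ↦ i, 2 ↦ xc`: `Bt ρ k (e_i + 2 e_xc) (2 e_i) i`.  In both cases (C3)
gives `Bt ρ k (rep X) b i` (`rep X` has the entry `d - c + 1 ≥ 2` at `xc`, 1 at `i`), and (C2). -/
def TccStmt : Prop :=
  ∀ β ρ : FIC, β ≤ ρ → ClC1 ρ → O3 (FC.ofFIC β) → ClauseC3 β → TightAt β ρ

/-- **TCD** (uses ODA, ODR, FCC, TC2).  Tightness of class c1 over `O4`; no clause.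
PROOF.  Rule (R) as in TC2.  `d = 2`: if `sp k a = sp k a'` then `L1 β k a a'` (`FC.ext`); else TC2.  `d ≥ 3`:
`S = par k a`, `S' = par k a'`, `S ≠ S'` (ODA for `β`).  We may assume `FR` or `ZR` at `i`.  `Q = sp k b`.
(1) `|S| < d`: there is a square and it can be moved to any block (ODA).  `ZR`: move it to `i`: entry `≥ 2`
at `i`, free (`ZR` needs 1, `FR` needs `min Q = i`, but `b i = 1 = ` entry at `max Q`).  `FR`: if `q ∈ Q`,
`q ≠ i`: move it to `q`: the supports meet in `q`; if `Q = {i}`: `b i ≥ 2`, move it to `i`.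
(2) `|S| = d`: `EP ρ d d` (ODR; `|S'| ≤ d`).  `ZR`: `a ~ρ d e_i`.  `FR`: `a ~ρ (d-1) e_i + e_q` with `q ∈ Q`,
`q ≠ i`, or `a ~ρ d e_i` if `Q = {i}`. -/
def TcdStmt : Prop := ∀ β ρ : FIC, β ≤ ρ → ClC1 ρ → O4 (FC.ofFIC β) → TightAt β ρ

/-- the positive part of the theorem for class c1 -/
def GoodC1 (β : FIC) : Prop :=
  Cent β ∧ ((O1 (FC.ofFIC β) ∧ ClauseC1 β) ∨ (O2 (FC.ofFIC β) ∧ ClauseC2 β) ∨
    (O3 (FC.ofFIC β) ∧ ClauseC3 β) ∨ O4 (FC.ofFIC β))

/-- **SFC** (uses SUF, OLW, WUW, GAC, RGC, SWC, TCA, TCB, TCC, TCD).  Sufficiency for class c1.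
PROOF.  `Gath`, `Rig`, `SW` by GAC, RGC, SWC; `Tight β` by TCA..TCD for all `ρ ≥ β` (`ClC1` is inherited by
larger congruences); `OneLaw` by OLW; `WU` by WUW; SUF. -/
def SfcStmt : Prop := ∀ β : FIC, ClC1 β → GoodC1 β → ModF β

end Pool.Agent.MVO
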