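import Pool.Agent.MVO.StmtsA

/-!
# Squad MVO, block N: necessity (MP_23468a_al)

General lemma `LnnStmt` (Lemma N) and the congruences `gam P`; the clauses of class a; the one
letter identities `O1 .. O4` are necessary.

`RR β u v` is `β.r (ofList u) (ofList v)`; `gam P` (file `Helper14_MV/B2.lean`) is the largest fully
invariant congruence which preserves the predicate `P` on words; `β ≤ gam P` as soon as `P` is
preserved by `β` (`β` is closed under substitutions and multiplication).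
`β ≤ thC3` means: `x²` is an isoterm; then the number of occurrences of a letter is preserved if it
is `≤ 2` (`cnt_thC3`); `Iso3 β`: `xyx` is an isoterm; it implies `NC2 β`.
-/

namespace Pool.Agent.MVO

open Pool.Agent.Helper14_MV Pool.Agent.Helper2_MV

/-- **WBL** (uses nothing).  Words related to a word in blocks with the letters 0, 1.
PROOF.  Counts: every simple letter `2..k+1` occurs once in `asm k B`, hence once in `v` (`cnt_thC3`);
every letter `> k+1` does not occur.  `v.filter sep` is a permutation of `seps k` and `β`-related to it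
(`RR.filter`, `filter_sep`); if it were different, two letters would be exchanged and `NC2 β` would
fail (compare SEQ).  `dec`. -/
def WblStmt : Prop :=
  ∀ β : FIC, β ≤ thC3 → NC2 β → ∀ (k : ℕ) (B : ℕ → List ℕ) (v : List ℕ),
    (∀ j ≤ k, ∀ c ∈ B j, c = 0 ∨ c = 1) → RR β (asm k B) v →
      ∃ B' : ℕ → List ℕ, v = asm k B' ∧ (∀ j, ∀ c ∈ B' j, c = 0 ∨ c = 1) ∧
        ∀ c, deg k (fun j => (B j).count c) ≤ 2 →
          deg k (fun j => (B' j).count c) = deg k (fun j => (B j).count c)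

/-- **LNN** (uses WBL).  LEMMA N.
PROOF.  Let `K w` (for `w : Word`) be: `RR β (w without 1) (mw k a')` and
`RR β (w without 0) (asm k (fun j => replicate (b j) 1))`; `Γ := gam K`.
(1) `β ≤ Γ` (filters preserve `β`).
(2) `Γ` contains every exchange `Ex Γ k1 a1 b1 e j` with `2 ≤ deg k1 a1`, `2 ≤ deg k1 b1`: let
`u = w2 k1 a1 b1 e`, `v = w2 k1 a1 b1 (flp e j)`, `W = m φ(u) q`, `W' = m φ(v) q`, `K W`.  A letter `t ≠ 0` of
`φ(0) without 1` would occur at least twice in `W without 1`, but it occurs at most once in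
`mw k a'`: contradiction to `β ≤ thC3`.  So `φ(0) without 1` and `φ(1) without 1` are powers of 0, they
commute, so `W without 1 = W' without 1`.  The same for `without 0`.  So `K W'`.
(3) Let `x := (w2 k a' b e, w2 k a' b (flp e i))`.  `ρ := inf G1 Γ`, `σ := G2`, `τ := Γ`.  `x ∈ τ` by (2).
`x ∈ sup ρ σ`: `w2 k a' b e ~G2 w2 k a b e ~ρ w2 k a b (flp e i) ~G2 w2 k a' b (flp e i)` (type change
by `rr_ins` with the powers of 1 as `P j`, `Q j`).  `ModF β`: `x ∈ sup ρ (inf σ τ)`.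
(4) All steps of this chain are in `Γ`, and `K` holds for the first word, so for all words `w` of the
chain.  `K w` implies: `w = asm k B` with letters 0, 1 (WBL for `w without 1`, `w without 0`), the types are
`β`-related to `a'`, `b`, the degrees are `≥ 2` (else they would be preserved and smaller), and by
`Gath β` (with `X = [0,1]`) and type change `w ~β w2 k a' b e_w` for some `e_w`.
(5) `r` := the index of `Rig β` for `a', b`.  If `r ≠ i`: `Bt β k a' b i`, done.  If `r = i`: the flag `e_w i` is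
`e i` at the start and `!(e i)` at the end (or two flags give `β`-related words: then `Bt β k a' b i` by
`Rig`, done); at a step where it changes: `Ex G1 k a' b e_w i` or `Ex G2 k a' b e_w i`, and by `Rig` for
all flags. -/
def LnnStmt : Prop :=
  ∀ β : FIC, β ≤ thC3 → NC2 β → Gath β → Rig β → ModF β → ∀ G1 G2 : FIC, β ≤ G1 → β ≤ G2 →
    ∀ (k : ℕ) (a a' b : ℕ → ℕ) (i : ℕ), 2 ≤ deg k a → 2 ≤ deg k a' → 2 ≤ deg k b → i ≤ k →
      Bt G1 k a b i → L1 G2 k a a' → Bt G1 k a' b i ∨ Bt G2 k a' b i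

/-! ### the congruences of a set of pairs of types (class a) -/

/-- the word has blocks with the letters 0, 1, the pair of types is in `T`, and the last one of the
letters 0, 1 is 1 -/
def QT (k : ℕ) (T : (ℕ → ℕ) → (ℕ → ℕ) → Prop) (w : Word) : Prop :=
  ∃ B : ℕ → List ℕ, w.toList = asm k B ∧ (∀ j ≤ k, ∀ c ∈ B j, c = 0 ∨ c = 1) ∧
    T (fun j => (B j).count 0) (fun j => (B j).count 1) ∧
      (w.toList.filter (fun c => decide (c = 0 ∨ c = 1))).getLast? = some 1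

/-- the congruence of `T` -/
def GT (k : ℕ) (T : (ℕ → ℕ) → (ℕ → ℕ) → Prop) : FIC := gam (QT k T)

/-- `T` depends only on the blocks `0..k` -/
def TExt (k : ℕ) (T : (ℕ → ℕ) → (ℕ → ℕ) → Prop) : Prop :=
  ∀ a a' b b', (∀ j ≤ k, a j = a' j) → (∀ j ≤ k, b j = b' j) → T a b → T a' b'

/-- the types in `T` are multiple and have the last block `l` -/
def TLast (k l : ℕ) (T : (ℕ → ℕ) → (ℕ → ℕ) → Prop) : Prop :=
  ∀ a b, T a b → 2 ≤ deg k a ∧ 2 ≤ deg k b ∧ (sp k a).max = (l : WithBot ℕ) ∧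
    (sp k b).max = (l : WithBot ℕ)

/-- **GTB** (uses WBL, NFA).
PROOF.  `QT k T` is preserved by `β`: let `W ~β W'`, `QT W`, `W = asm k B`.  WBL: `W' = asm k B'`, letters 0, 1.
Types: `L1 β` for both letters (filter, rename), so `T` holds for the types of `W'` (closure).  The last
letter: `W ~β w2 k a b e`, `e l = false` (NFA: same types, same last letter; e.g. `e` constant false),
and if the last letter of `W'` were 0, `W' ~β w2 k a' b' e'` with `e' l = true`, `~β w2 k a b e'` (type change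
with `rr_ins`), so `Ex β k a b e l`, and by NFA `Bt β k a b l`, contradiction. -/
def GtbStmt : Prop :=
  ∀ β : FIC, β ≤ thC3 → NC2 β → ClA β → ∀ (k l : ℕ) (T : (ℕ → ℕ) → (ℕ → ℕ) → Prop), TExt k T →
    TLast k l T → (∀ a b a' b', T a b → L1 β k a a' → L1 β k b b' → T a' b') →
      (∀ a b, T a b → ¬ Bt β k a b l) → β ≤ GT k T

/-- **GTN** (uses nothing).  PROOF.  `e` = constant false: `QT` holds for `w2 k a b e` (last letter 1: block
`l` ends with `y^(b l)`, `b l ≥ 1`, later blocks are empty), not for `w2 k a b (flp e l)` (last letter 0);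
take `φ = id`, `m = q = 1` in `gam`. -/
def GtnStmt : Prop :=
  ∀ (k l : ℕ) (T : (ℕ → ℕ) → (ℕ → ℕ) → Prop), TExt k T → TLast k l T → l ≤ k →
    ∀ a b, T a b → ¬ Bt (GT k T) k a b l

/-- `T` consists of pairs of degrees 3 and 2 -/
def TDeg (k : ℕ) (T : (ℕ → ℕ) → (ℕ → ℕ) → Prop) : Prop :=
  ∀ a b, T a b → deg k a = 3 ∧ deg k b = 2

/-- **GTS** (uses nothing).  Exchanges in `GT k T`.
PROOF.  `u = w2 k1 a1 b1 e`, `v = w2 k1 a1 b1 (flp e i)`, `W = m φ(u) q`, `W' = m φ(v) q`; let `QT W` (the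
other direction is the same with `flp e i`).  The letter 0 occurs 3 times in `W`, 1 twice, every other
letter at most once.  `z0 = φ(0)` occurs 3 times: `z0 = []` or `z0 = [0]`.  `z0 = []`: `W = W'`.  `z0 = [0]`: all
0's of `W` come from it; `z1 = φ(1)` occurs twice, so `z1 = []` (`W = W'`) or `z1 = [1]`.  In the last case
`m`, `q` and the images of the simple letters are words in simple letters, together
`m φ(2) .. φ(k1+1) q = seps k`; with `f j` = the number of letters in `m φ(2) .. φ(j+1)`: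
`BMap k1 k f`, `W = asm k (pshB k1 f ..)`, so the types of `W` are `psh k1 f a1`, `psh k1 f b1`: in `T`,
contradiction to the hypothesis. -/
def GtsStmt : Prop :=
  ∀ (k : ℕ) (T : (ℕ → ℕ) → (ℕ → ℕ) → Prop), TExt k T → TDeg k T →
    ∀ (k1 : ℕ) (a1 b1 : ℕ → ℕ), deg k1 a1 = 3 → deg k1 b1 = 2 →
      (∀ f, BMap k1 k f → ¬ T (psh k1 f a1) (psh k1 f b1)) → ∀ i, Bt (GT k T) k1 a1 b1 i

/-- **GTK** (uses nothing).  One letter identities of degree 3 in `GT k T`.
PROOF.  `W = m φ(mw k1 c) q`, `W' = m φ(mw k1 c') q`, `QT W`.  `z = φ(0)` occurs 3 times: `z = []` (`W = W'`) or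
`z = [0]` and no other 0 comes from `m, q`, simple letters.  The remaining letters are simple letters
and two 1's.  With `f j` = the number of simple letters in `m φ(2) .. φ(j+1)`: `BMap k1 k f`; the type
of 0 in `W` is `psh k1 f c`, in `W'` `psh k1 f c'`; the type of 1 is the same `b` in both.  The last 0 of both
words stands directly in front of `q` (the last block of `c`, `c'` is not empty), so the last letter of
`{0,1}` is 1 in `W` iff `1 ∈ q` iff it is 1 in `W'`. -/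
def GtkStmt : Prop :=
  ∀ (k : ℕ) (T : (ℕ → ℕ) → (ℕ → ℕ) → Prop), TExt k T → TDeg k T →
    ∀ (k1 : ℕ) (c c' : ℕ → ℕ), deg k1 c = 3 → deg k1 c' = 3 → 1 ≤ c k1 → 1 ≤ c' k1 →
      (∀ f, BMap k1 k f → ∀ b, T (psh k1 f c) b ↔ T (psh k1 f c') b) → L1 (GT k T) k1 c c'

/-- **ISO** (uses WBL).  Types of degree 2 in two blocks are isolated if `xyx` is an isoterm.
PROOF.  `b = e_p + e_q`, `p < q`, on `0..k`; `z` with `L1 β k b z`; `deg k z = 2` (`thC3`).  For every cut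
`t < k` (push with `j ↦ 0` (`j ≤ t`), `j ↦ 1` (`j > t`)): the pushed types are `β`-related in
`{(2,0), (1,1), (0,2)}`; by `Iso3` `(1,1)` is related only to itself (`[0,2,0]` and `[0,1,0]` by renaming);
so `z` has the pushed type `(1,1)` exactly for `p ≤ t < q`.  Hence `z = e_p + e_q`. -/
def IsoStmt : Prop :=
  ∀ β : FIC, β ≤ thC3 → Iso3 β → ∀ (k : ℕ) (b z : ℕ → ℕ), deg k b = 2 → (∀ j ≤ k, b j ≤ 1) →
    L1 β k b z → ∀ j ≤ k, z j = b j

/-! ### the clauses of class a -/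

/-- the hypotheses of the necessity rows of class a -/
structure HypA (β : FIC) : Prop where
  th : β ≤ thC3
  iso : Iso3 β
  cl : ClA β
  md : ModF β
  ce : Cent β

/-- **NRA** (uses LNN, GTB, GTN, GAA, RGA, WBL, ISO, FAA).  `R0` is necessary.
PROOF.  Assume `R0 β` fails.  `k = 1`.  LNN with `a = (0,2)`, `a' = (1,1)`, `b = (0,2)`, `i = 1` (`v2`):
`G1 := GT 1 T1`, `T1 a b`: `a = (1,1)` and `b = (0,2)` on the blocks 0, 1; `G2 := GT 1 T2`, `T2 a b`: both of
degree 2 with entry `≥ 1` in block 1.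
(a) In `β`: `¬ Bt β 1 c c' 1` for all `c, c' ∈ {(0,2), (1,1)}`: merging the blocks (F4) gives
`Bt β 0 (2) (2) 0`, i.e. `x²y² ≈ y²x²`.  `(2,0) ~ (0,2)` is not in `β` (substitute `t ↦ y²`: `R0`), `(1,1)` is
isolated (ISO); so `T1`, `T2` are closed under `β` (degrees `≤ 2` are preserved); GTB: `β ≤ G1, G2`.
(b) `Bt G1 1 (0,2) (0,2) 1`: `u = [2,0,0,1,1]`, `v = [2,1,1,0,0]`; if `QT 1 T1` holds for `m φ(u) q`, this word is
`[0,2,0,1,1]` or `[0,2,1,0,1]`, and `φ(0)φ(0)φ(1)φ(1)` is a factor of it; if both images are not empty the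
factor has length `≥ 4`; the words have length 5, so it is of the form `ccdd`; no factor of the two words has this form
(check); so one of them is empty and both words are equal; the same for `v`.
(c) `L1 G2 1 (0,2) (1,1)`: `W = m φ(2) z z q`, `W' = m z φ(2) z q`, `z = φ(0)`: the letters of `z` occur at least
twice, so they are 0 or 1, each at most once in `z`.  If `z = []`: equal.  If `φ(2)` contains no simple
letter the types of `W, W'` agree; if it contains the simple letter 2 then a letter of `z` has the type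
`(0,2)` in one word and `(1,1)` in the other one, the other letters have the same types; in all cases
`T2` holds for both or for none; the last letter is the last one of `z q` in both.
(d) GTN: not `Bt G1 1 (1,1) (0,2) 1`, not `Bt G2 1 (1,1) (0,2) 1`: contradiction to LNN. -/
def NraStmt : Prop := ∀ β : FIC, HypA β → R0 β

/-- **NCA** (uses LNN, GTB, GTN, GTS, GTK, GAA, RGA, WUA, OAA, OAR, ISO, FAA).  First clause over `O1`.
Notation: sets stand for types of degree 3 with this support; OAA, OAR describe relations; `b = (1,1)`.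
PROOF.  Assume `O1 β`, not `O3 β`, and none of `O2 β`, `s = Bt β 1 (0,3) (1,1) 1`,
`s' = Bt β 1 (1,2) (1,1) 1`.  LNN with `k = 1`, `a = (0,3)`, `a' = (1,2)`, `b = (1,1)`, `i = 1`.
`T1 x y`: `x` of degree 3 with the support `{0,1}`, `y = (1,1)` on `0..1`.  `T2 x y`: `x` of degree 3 with
entry `≥ 1` in block 1, `y = (1,1)`.
Closure under `β`: `y`: ISO.  `x ~β x'`: the degree of `x'` is 3: otherwise `WUA` gives `x ~β` every `sg j 3`
(`j ≤ 1`); for `x` with support `{0,1}` this gives `(3,0) ~ (2,1)`, i.e. `O3 β` (OAA); for `x = (0,3)` it gives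
`(0,3) ~ (3,0)`, so `s` (F2, F0): both excluded.  Support of `x'`: `{0,1} ~ {0}` is `O3`, `{0,1} ~ {1}` is
`O2`, `{1} ~ {0}` gives `s`: all excluded.  No exchange: `x` with support `{0,1}`: `(2,1) ~β (1,2)` and not
`s'`; `x = (0,3)`: not `s`.  So `β ≤ G1, G2` (GTB).
`Bt G1 1 (0,3) (1,1) 1`: GTS (`psh` of `(0,3)` has a support of size 1).  `L1 G2 1 (0,3) (1,2)`: GTK
(`psh 1 f (0,3)`, `psh 1 f (1,2)` have degree 3 and the same last block `f 1`).  GTN twice:
contradiction. -/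
def NcaStmt : Prop :=
  ∀ β : FIC, HypA β → O1 (FC.ofFIC β) → ¬ O3 (FC.ofFIC β) →
    O2 (FC.ofFIC β) ∨ Bt β 1 (v2 0 3) (v2 1 1) 1 ∨ Bt β 1 (v2 1 2) (v2 1 1) 1

/-- **NCB** (uses LNN, GTB, GTN, GTS, GTK, GAA, RGA, WUA, OAA, OAR, ISO, FAA).  Second clause over `O1`.
PROOF.  Assume `O1 β`, not `O3 β`, not `II β`, not `g1 = Bt β 2 (0,2,1) (1,0,1) 2`.  `k = 3`,
`a = (0,2,0,1)`, `a' = (0,1,1,1)`, `b = (1,0,0,1)` (`v4`), `i = 3`.
`T1 x y`: `x = a'`, `y = b` on `0..3`.  `T2 x y`: `y = b`, `deg 3 x = 3`, `max (sp 3 x) = 3`, and (`O2 β` or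
`min (sp 3 x) = 1`).
Closure: `y`: ISO.  `a'`: if `a' ~β x'` and `x' ≠ a'`: of a different degree: WUA: `a' ~β sg 0 3`; in all cases
OAR gives `IP β 3 3`, hence `II β`: excluded.  `T2`: `x ~β x'`, `x ∈ T2`.  `x'` of another degree: WUA:
`x ~β sg 0 3` and `sg 3 3 ~β sg 0 3`; if `O2 β`: `BP β 3` and `CP β 3` give `AP β 3`, so `O3 β`; if not
`O2 β`, `|sp x| ≥ 2` and OAR gives `AP β 3`, so `O3 β`.  Same degree, `max sp x' ≠ 3`: OAR: `AP β 3` (so `O3`),
or both of size 1 and `CP β 3`, then `O2 β` and again `O3`.  So the maxima agree; if `min` changes and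
not `O2 β`: not both of size 1, OAR: `BP β 3`, `O2 β`, contradiction.
No exchange of `β` in `T1, T2`: `x = (0,1,1,1)` or `sp x = {1,3}` (then `x ~β (0,2,0,1)` OAA): push (F4)
with `0 ↦ 0, 1, 2 ↦ 1, 3 ↦ 2` gives `g1`.  If `O2 β`, `x` any type of `T2`: size `≤ 2`: `x ~β (0,2,0,1)`
(`BP β 3`; F2), as before; size 3 without 0: `{1,2,3}`, as before; `{0,q,3}`: push everything `≤ 2` to 0:
`Bt β 1 (2,1) (1,1) 1`, `(2,1) ~β (0,3)` so `Bt β 1 (0,3) (1,1) 1`; push `0 ↦ 0, 1 ↦ 2`: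
`Bt β 2 (0,0,3) (1,0,1) 2`, and `(0,0,3) ~β (0,2,1)`: `g1`.  Contradiction.
`Bt G1 3 a b 3`: from `Bt G1 2 (0,2,1) (1,0,1) 2` (GTS: `psh` has support of size `≤ 2`) by F4 with
`0, 1, 3` (`ClA G1` because `β ≤ G1`).  `L1 G2 3 a a'`: from `L1 G2 2 (1,1,1) (2,0,1)` (GTK: same first
and last block) by push with `1, 2, 3`.  GTN twice. -/
def NcbStmt : Prop :=
  ∀ β : FIC, HypA β → O1 (FC.ofFIC β) → ¬ O3 (FC.ofFIC β) →
    II (FC.ofFIC β) ∨ Bt β 2 (v3 0 2 1) (v3 1 0 1) 2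

/-- **NCC** (uses LNN, GTB, GTN, GTS, GTK, GAA, RGA, WUA, OAA, OAR, ISO, FAA).  Third clause over `O1`.
PROOF.  Assume `O1 β`, not `O3 β`, not `II β`, not `g2 = Bt β 2 (2,0,1) (0,1,1) 2`, not
`h2 = Bt β 2 (1,1,1) (0,1,1) 2`.  `k = 2`, `a = (2,0,1)`, `a' = (1,1,1)`, `b = (0,1,1)`, `i = 2`.
`T1 x y`: `x = a'`, `y = b`.  `T2 x y`: `y = b`, `deg 2 x = 3`, `max (sp 2 x) = 2`, and (`O2 β` or
`min (sp 2 x) = 0`).  Closure as in NCB.  No exchange of `β`: `{0,1,2}`: not `h2`; `{0,2}`: not `g2` (OAA);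
if `O2 β`: sizes `≤ 2` are all `β`-related to `(2,0,1)`: not `g2` (F2).
`Bt G1 2 a b 2`: GTS.  `L1 G2 2 a a'`: GTK.  LNN and GTN. -/
def NccStmt : Prop :=
  ∀ β : FIC, HypA β → O1 (FC.ofFIC β) → ¬ O3 (FC.ofFIC β) →
    II (FC.ofFIC β) ∨ Bt β 2 (v3 2 0 1) (v3 0 1 1) 2 ∨ Bt β 2 (v3 1 1 1) (v3 0 1 1) 2

/-- **NCD** (uses LNN, GTB, GTN, GTS, GTK, GAA, RGA, WUB, ISO, FAA).  First clause over `O2`.
PROOF.  Assume `O2 β`, not `O3 β`, not `O1 β`, not `s = Bt β 1 (0,3) (1,1) 1`, not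
`u = Bt β 1 (2,1) (1,1) 1`.  `k = 1`, `a = (0,3)`, `a' = (2,1)`, `b = (1,1)`, `i = 1`.  `T1 x y`: `x = (2,1)`,
`y = (1,1)`.  `T2 x y`: `deg 1 x = 3`, `x 1 ≥ 1`, `y = (1,1)`.
Closure: `(2,1) ~β x'`: another degree: WUB: `(2,1) ~ (3,0)`, `O3`; `(3,0)`: `O3`; `(1,2)`: `O1`; `(0,3)`: with `O2`
`O1`: excluded.  `x ∈ {(0,3), (1,2)}` related to `(3,0)` or to another degree: (`O2`, WUB) `(0,3) ~ (3,0)`, so
`s` by F2, F0: excluded.  No exchange: not `u`; `(0,3)`, `(1,2)` (F2): not `s`.  GTS, GTK (last block `f 1`),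
LNN, GTN. -/
def NcdStmt : Prop :=
  ∀ β : FIC, HypA β → O2 (FC.ofFIC β) → ¬ O3 (FC.ofFIC β) →
    O1 (FC.ofFIC β) ∨ Bt β 1 (v2 0 3) (v2 1 1) 1 ∨ Bt β 1 (v2 2 1) (v2 1 1) 1

/-- **NCE** (uses LNN, GTB, GTN, GTS, GTK, GAA, RGA, WUB, OAA, OAR, OPF, OCR, ISO, FAA).  Second clause
over `O2`.
PROOF.  Assume `O2 β`, not `O3 β`, not `JJ β`, not `v1 = Bt β 2 (2,0,1) (0,1,1) 2`.  `k = 3`,
`a = (0,2,0,1)`, `a' = (1,1,0,1)`, `b = (0,0,1,1)`, `i = 3`.
`T1 x y`: `x = a'`, `y = b` on `0..3`.  `T2 x y`: `y = b`, `deg 3 x = 3`, `max (sp 3 x) = 3`, and (`O1 β` or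
`x = (0,2,0,1)` or `x = (1,1,0,1)` on `0..3`).
Rule (OCR for the reversed congruence `R'` of OPF, `O3 R'`; reversed profiles `P`, `P'` of two
`β`-related types of degree 3, `P ≠ P'`): (J) if one of them has three elements: `JP R' 3 3`, which is
`JJ β`: excluded; so both have size `≤ 2`.  If the maxima differ and not both have size 1: `B3 R' 3`,
i.e. `(3,0) ~ (2,1)`: `O3 β`, excluded.  If the maxima agree (then not both of size 1): `A3 R' 3`, i.e.
`(0,3) ~ (2,1)`: `O1 β` (with `O2`).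
Closure under `β`.  `y`: ISO.  `x` of degree 3 and `x ~β x'` with another degree: `WUB` gives
`x ~β sg j 3` for all `j`, in particular `x ~β sg 0 3` (degree 3), which has another maximum; so this is
excluded by the following, except for `x` with reversed profile `{3}`, which is in `T2` only if `O1 β`.
`x = (1,1,0,1)`: reversed profile of size 3: related only to itself (rule).  `x = (0,2,0,1)`, not
`O1 β`: reversed profile `{1,3}`: related only to the same reversed profile in degree 3, i.e. to itself.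
`O1 β`: `x ∈ T2`, `x ~β x'`, `max (sp x') ≠ 3`: OAR: not both of size 1: `AP β 3`, so `O3 β`; both of size 1:
`CP β 3`, and `O1`, `O2` give `(2,1) ~ (1,2) ~ (0,3) ~ (3,0)`: `O3 β`.  Excluded.
No exchange of `β`: `(0,2,0,1)` and `(1,1,0,1)`: push `0, 1 ↦ 0, 2 ↦ 1, 3 ↦ 2` (F4): `v1`.  If `O1 β` (all
types of degree 3, size `≤ 2` and maximum 3 are `β`-related): size `≤ 2`: `x ~β (0,2,0,1)` (F2);
`{0,1,3}`: as before; `{p,2,3}`: push everything `≤ 2` to 0: `Bt β 1 (2,1) (1,1) 1`, `(2,1) ~ (0,3)` (F2); push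
`0 ↦ 1, 1 ↦ 2`: `Bt β 2 (0,0,3) (0,1,1) 2`, `(0,0,3) ~ (2,0,1)` (F2): `v1`.
`Bt G1 3 a b 3`: GTS for `(2,0,1), (0,1,1)` (`psh` has a support of size `≤ 2`) and F4 with `1, 2, 3`
(`ClA G1` because `β ≤ G1`).  `L1 G2 3 a a'`: GTK for `(0,2,1)`, `(1,1,1)` and push with `0, 1, 3`; condition
of GTK: `psh f (1,1,1) = (1,1,0,1)` iff `f = (0,1,3)`, then `psh f (0,2,1) = (0,2,0,1)`;
`psh f (1,1,1) = (0,2,0,1)` iff `f = (1,1,3)`, then both are equal; `psh f (0,2,1) = (0,2,0,1)` iff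
`f 1 = 1, f 2 = 3`, then `psh f (1,1,1)` is one of the two; `psh f (0,2,1) = (1,1,0,1)` never; if `O1 β` only
the degree and the last block matter.  LNN, GTN twice: contradiction. -/
def NceStmt : Prop :=
  ∀ β : FIC, HypA β → O2 (FC.ofFIC β) → ¬ O3 (FC.ofFIC β) →
    JJ (FC.ofFIC β) ∨ Bt β 2 (v3 2 0 1) (v3 0 1 1) 2

/-- **NCF** (uses LNN, GTB, GTN, GTS, GTK, GAA, RGA, WUB, OAA, OAR, OPF, OCR, ISO, FAA).  Third clause
over `O2`.
PROOF.  Assume `O2 β`, not `O3 β`, not `JJ β`, not `v2 = Bt β 2 (0,2,1) (1,0,1) 2`, not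
`h = Bt β 2 (1,1,1) (1,0,1) 2`.  `k = 2`, `a = (0,2,1)`, `a' = (1,1,1)`, `b = (1,0,1)`, `i = 2`.
`T1 x y`: `x = a'`, `y = b`.  `T2 x y`: `y = b`, `deg 2 x = 3`, `max (sp 2 x) = 2`, and (`O1 β` or
`x = (0,2,1)` or `x = (1,1,1)`).  Closure as in NCE (reversed profiles `{1,2}` and `{0,1,2}`).  No
exchange of `β`: not `v2`, not `h`; if `O1 β`: sizes `≤ 2` are `β`-related to `(0,2,1)`: not `v2`.  GTS for
`a, b` (support `≤ 2`); GTK for `(0,2,1), (1,1,1)`: `psh f (1,1,1) = (1,1,1)` iff `f = id`; `= (0,2,1)` iff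
`f = (1,1,2)`; `psh f (0,2,1) = (0,2,1)` iff `f 1 = 1, f 2 = 2`.  LNN, GTN. -/
def NcfStmt : Prop :=
  ∀ β : FIC, HypA β → O2 (FC.ofFIC β) → ¬ O3 (FC.ofFIC β) →
    JJ (FC.ofFIC β) ∨ Bt β 2 (v3 0 2 1) (v3 1 0 1) 2 ∨ Bt β 2 (v3 1 1 1) (v3 1 0 1) 2

/-! ### the identities `O1 .. O4` are necessary -/

/-- one letter words of degree 3 whose type is in `C`, and (if `hi`) all of degree `≥ 4` -/
def PC (k : ℕ) (C : (ℕ → ℕ) → Prop) (hi : Prop) (w : Word) : Prop :=
  ∃ a : ℕ → ℕ, w.toList = mw k a ∧ ((deg k a = 3 ∧ C a) ∨ (4 ≤ deg k a ∧ hi))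

/-- the congruence of a partition of the types of degree 3 on the blocks `0..k`: `cls` names the
class, `h0` is the class of the words of degree `≥ 4` -/
def GE (k : ℕ) (cls : (ℕ → ℕ) → ℕ) (h0 : ℕ) : FIC where
  r := fun u v => ∀ c, (gam (PC k (fun a => cls a = c) (c = h0))).r u v
  refl := fun u c => FIC.refl _ u
  symm := fun h c => FIC.symm _ (h c)
  trans := fun h h' c => FIC.trans _ (h c) (h' c)
  mul := fun h h' c => FIC.mul _ (h c) (h' c)
  sub := fun φ _ _ h c => FIC.sub _ φ (h c)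

/-- `cls` depends only on the blocks `0..k` -/
def CExt (k : ℕ) (cls : (ℕ → ℕ) → ℕ) : Prop :=
  ∀ a a', (∀ j ≤ k, a j = a' j) → cls a = cls a'

/-- **ECB** (uses WBL).  PROOF.  Every predicate `PC ..` is preserved by `β`: `W = mw k a`, `W ~β W'`:
`W' = mw k a'` (WBL) and `deg k a' ≥ 3` (counts `≤ 2` are preserved in both directions); the four cases
(degree 3 or `≥ 4`) are the hypotheses. -/
def EcbStmt : Prop :=
  ∀ β : FIC, β ≤ thC3 → NC2 β → ∀ (k : ℕ) (cls : (ℕ → ℕ) → ℕ) (h0 : ℕ), CExt k cls →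
    (∀ a a', deg k a = 3 → deg k a' = 3 → L1 β k a a' → cls a = cls a') →
    (∀ a a', deg k a = 3 → 4 ≤ deg k a' → L1 β k a a' → cls a = h0) → β ≤ GE k cls h0

/-- **ECK** (uses nothing).  PROOF.  `W = m φ(mw k1 c) q`, `W' = m φ(mw k1 c') q`; let `PC` hold for `W`,
`W = mw k a`.  `z = φ(0)` occurs 3 times, every letter different from 0 at most once in `W`: `z = 0^s`.
`s = 0`: equal.  `s ≥ 1`: `W'` is also a one letter word `mw k a'` with the same degree (the simple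
letters come from `m, q` and the images of the simple letters).  If the degree is `≥ 4`: only `hi`
matters.  If it is 3: `s = 1`, `m, q` and the other images are words in the simple letters; as in GTS
`W` has the type `psh k1 f c` and `W'` the type `psh k1 f c'` with the same `f`. -/
def EckStmt : Prop :=
  ∀ (k : ℕ) (cls : (ℕ → ℕ) → ℕ) (h0 : ℕ), CExt k cls → ∀ (k1 : ℕ) (c c' : ℕ → ℕ),
    deg k1 c = 3 → deg k1 c' = 3 → (∀ f, BMap k1 k f → cls (psh k1 f c) = cls (psh k1 f c')) →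
      L1 (GE k cls h0) k1 c c'

/-- the relations of `β` between the four types `(3,0), (2,1), (1,2), (0,3)`: no `O i` -/
structure NoO (β : FIC) : Prop where
  n1 : ¬ O1 (FC.ofFIC β)
  n2 : ¬ O2 (FC.ofFIC β)
  n3 : ¬ O3 (FC.ofFIC β)
  n4 : ¬ O4 (FC.ofFIC β)

/-- **NPA** (uses ECB, ECK).  No relation at all.
PROOF.  `L1 β 1 (3,0) (0,3)`, `(3,0) ~ (1,2)`, `(2,1) ~ (0,3)` all fail, and no `O i`: the four types are
pairwise not `β`-related (`(3,0) ~ (2,1)` is `O3`, `(2,1) ~ (1,2)` `O1`, `(1,2) ~ (0,3)` `O2`).  A relation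
between degree 3 and degree `≥ 4` gives `x³ ~ x^n` (merge), so `x³ ~ x^N` with `N` large, central
(`Cent`): `(3,0) ~ (0,3)`, excluded.  `k = 1`, points `0, 1, 2, 3` = value at block 0.  `h0 = 9`.
`clsX`: `0, 1 ↦ 0`, others separate; `clsY`: `0, 1 ↦ 0`; `2, 3 ↦ 2`; `clsZ`: `1, 2 ↦ 1`; `0, 3 ↦ 0`.  By ECK
(the maps `BMap 1 1 f` are `f = (0,1)`, or `f 0 = f 1`) two types are related in `GE` iff they have the
same class; `GE X ≤ GE Y`; ECB: `β ≤` all three.  `ρ = GE X`, `σ = GE Z`, `τ = GE Y`: the pair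
`(2,1), (3,0)` (points 2, 3) is in `τ` and in `sup ρ σ` (`2 ~Z 1 ~X 0 ~Z 3`), but not in
`sup ρ (inf σ τ)`: the predicate `w = mw 1 (2,1)` is preserved by `ρ` (its class is `{2}`) and by
`inf σ τ` (`{1,2} ∩ {2,3}`).  So `ModF β` fails. -/
def NpaStmt : Prop :=
  ∀ β : FIC, β ≤ thC3 → NC2 β → Cent β → NoO β → ¬ L1 β 1 (v2 3 0) (v2 0 3) →
    ¬ L1 β 1 (v2 3 0) (v2 1 2) → ¬ L1 β 1 (v2 2 1) (v2 0 3) → ¬ ModF β

/-- **NPB** (uses ECB, ECK).  Only `(3,0) ~ (0,3)`.
PROOF.  Then `(3,0) ~ (1,2)` and `(2,1) ~ (0,3)` fail too (with `(3,0) ~ (0,3)` they give `O2`, `O3`).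
(UB) `(2,1)` and `(1,2)` are not `β`-related to a type `(p,q)` with `p + q = n ≥ 4`: then `x³ ~ x^n`, so
`x³ ~ x^(3 + j(n-3))` for all `j`, and large powers are central.  If `p ≥ 3`: replace `x³` in block 0 by
`x^N`, `N = 3 + j (n-3)` large, move `x^(p - 3 + N)` to block 1: `(p,q) ~ x^(n + N - 3)` in one block `~ x³`,
so `(2,1) ~ (0,3)` (resp. `(1,2) ~ (0,3)`), excluded; `q ≥ 3`: the same; `p = q = 2`: add: `(2,1) ~ (2,2)`
gives `(2,2) ~ (2,3)` (add (0,1)), so `(2,1) ~ (2,3)`, `q = 3`; `(1,2) ~ (2,2)` gives `(2,2) ~ (3,2)`.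
`k = 2`; the ten types `abc`, `a+b+c = 3`.  By the two merges to two blocks: a `β`-relation between two
different types of degree 3 is one between `300, 030, 003` (merge 0,1: `(a+b,c)`; merge 1,2:
`(a,b+c)`; both merged types must be equal or both in `{(3,0), (0,3)}`); a relation of degree 3 to
degree `≥ 4`: by (UB) both merged types are in `{(3,0), (0,3)}`, so the type is `300`, `030` or `003`.
`clsX` (h0 = 0): `300, 210, 201, 030, 021, 003 ↦ 0`; `120 ↦ 1`; `102 ↦ 2`; `012 ↦ 3`; `111 ↦ 4`.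
`clsY` (h0 = 0): the same with `111 ↦ 1`.
`clsZ` (h0 = 0): `300, 030, 003 ↦ 0`; `210, 120 ↦ 1`; `201, 102, 111 ↦ 2`; `021, 012 ↦ 3`.
ECK: `(2,1) ~ (3,0)` in `GE X` and `GE Y`; `(1,2,0) ~ (1,1,1)` in `GE Y`; `(2,1) ~ (1,2)` and
`(1,1,1) ~ (2,0,1)` in `GE Z` (finite checks of the maps `f : {0,1} → {0,1,2}`, `{0,1,2} → {0,1,2}`).
`ρ = GE X ≤ τ = GE Y`, `σ = GE Z`; the pair `120, 111` is in `τ` and in `sup ρ σ`
(`120 ~Z 210 ~X 201 ~Z 111`), not in `sup ρ (inf σ τ)`: the predicate `w = mw 2 (1,1,1)` is preserved by `ρ`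
(class `{111}`) and by `inf σ τ` (`{201,102,111} ∩ {120,111}`). -/
def NpbStmt : Prop :=
  ∀ β : FIC, β ≤ thC3 → NC2 β → Cent β → NoO β → L1 β 1 (v2 3 0) (v2 0 3) → ¬ ModF β

/-- **NPC** (uses ECB, ECK).  `(3,0) ~ (1,2)`.
PROOF.  `(3,0) ~ (0,3)` fails (it would give `O2`), so there are no relations between degree 3 and
degree `≥ 4` (they give `x³ ~ x^n`, `(3,0) ~ (0,3)`); `(2,1) ~ (0,3)` fails (`O4`).  `k = 2`: by the two merges
the `β`-relations between types of degree 3 are inside the classes `{300, 120, 102}`, `{030, 012}`.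
`h0 = 9`.  `clsX`: `300, 120, 102, 210, 201 ↦ 0`; `030, 012, 021 ↦ 1`; `111 ↦ 2`; `003 ↦ 3`.  `clsY`: the same
with `111 ↦ 0`.  `clsZ`: `300, 120, 102, 030, 012, 003 ↦ 0`; `111, 021 ↦ 1`; `210 ↦ 2`; `201 ↦ 3`.
ECK: `(3,0) ~ (2,1)` in `GE X`, `GE Y`; `(1,1,1) ~ (3,0,0)` in `GE Y`; `(0,3) ~ (3,0)`,
`(1,1,1) ~ (0,2,1)` in `GE Z`.  `ρ = GE X ≤ τ = GE Y`, `σ = GE Z`; the pair `111, 300` is in `τ` and in
`sup ρ σ` (`111 ~Z 021 ~X 030 ~Z 300`), not in `sup ρ (inf σ τ)`: `w = mw 2 (1,1,1)` is preserved by `ρ`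
(`{111}`) and `inf σ τ` (`{111,021} ∩ {300,120,102,210,201,111}`). -/
def NpcStmt : Prop :=
  ∀ β : FIC, β ≤ thC3 → NC2 β → Cent β → NoO β → L1 β 1 (v2 3 0) (v2 1 2) → ¬ ModF β

/-- **RVO** (uses nothing).  Reversal of words and of types (`FIC.op`).
PROOF.  `(mw k a).reverse` is `mw k (fun j => a (k - j))` with the simple letters renamed (`t` to
`k + 3 - t`); rename back with `RR.sub`. -/
def RvoStmt : Prop :=
  ∀ (β : FIC) (k : ℕ) (a a' : ℕ → ℕ),
    L1 (FIC.op β) k a a' ↔ L1 β k (fun j => a (k - j)) (fun j => a' (k - j))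

/-- **NPD** (uses NPC, RVO).  `(2,1) ~ (0,3)`.  PROOF.  NPC for `FIC.op β` (`op_modF`; `thC3`, `NC2`, `Cent`
are invariant under reversal; `O1`, `O4` are reversed to themselves, `O2` to `O3` and back). -/
def NpdStmt : Prop :=
  ∀ β : FIC, β ≤ thC3 → NC2 β → Cent β → NoO β → L1 β 1 (v2 2 1) (v2 0 3) → ¬ ModF β

/-- **NOO** (uses NPA, NPB, NPC, NPD).  PROOF.  Cases. -/
def NooStmt : Prop := ∀ β : FIC, β ≤ thC3 → NC2 β → Cent β → ModF β → OO β

/-- **NEA** (uses NRA, NCA, NCB, NCC, NCD, NCE, NCF, NOO).  Necessity for class a.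
PROOF.  `Cent` from `Helper14_MV.B2`; `NC2` from `Iso3`.  NOO: if `O3` or `O4`: done.  Otherwise `O1` (NCA,
NCB, NCC) or `O2` (NCD, NCE, NCF). -/
def NeaStmt : Prop :=
  ∀ β : FIC, β ≤ thC3 → Iso3 β → ClA β → ModF β → GoodA β

end Pool.Agent.MVO
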