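import Pool.Agent.MVO.StmtsG

/-!
# Squad MVO, block L: one letter words (MP_23468a_al)

Pure combinatorics of functorial congruences `FC` (see `Defs.lean`): equivalence relations on the
vectors `a : ℕ → ℕ` (only the values on `0..k` matter: `FC.ext`), closed under adding vectors
(`FC.add`) and under order preserving maps of the blocks (`FC.push`).
Goals: the modular law (`LawFC`) and the law for unbalanced relations (`WU1`) over each of the four
identities `O1`, `O2`, `O3`, `O4`.
-/

namespace Pool.Agent.MVO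

open Pool.Agent.Helper14_MV Pool.Agent.Helper2_MV

/-- a vector with two entries -/
def v2 (p q : ℕ) : ℕ → ℕ := fun j => if j = 0 then p else if j = 1 then q else 0

/-- a vector with three entries -/
def v3 (p q r : ℕ) : ℕ → ℕ := fun j => if j = 0 then p else if j = 1 then q else if j = 2 then r
  else 0

/-- a vector with four entries -/
def v4 (p q r s : ℕ) : ℕ → ℕ := fun j => if j = 0 then p else if j = 1 then q else if j = 2 then r
  else if j = 3 then s else 0

/-- the vector with one entry -/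
def sg (i d : ℕ) : ℕ → ℕ := fun j => if j = i then d else 0

/-- `(2,1) ~ (1,2)`: the identity `x²tx ≈ xtx²` -/
def O1 (R : FC) : Prop := R.R 1 (v2 2 1) (v2 1 2)
/-- `(1,2) ~ (0,3)`: the identity `xtx² ≈ tx³` -/
def O2 (R : FC) : Prop := R.R 1 (v2 1 2) (v2 0 3)
/-- `(3,0) ~ (2,1)`: the identity `x³t ≈ x²tx` -/
def O3 (R : FC) : Prop := R.R 1 (v2 3 0) (v2 2 1)
/-- `(0,3) ~ (2,1)` and `(1,2) ~ (3,0)`: the identities `tx³ ≈ x²tx` and `xtx² ≈ x³t` -/
def O4 (R : FC) : Prop := R.R 1 (v2 0 3) (v2 2 1) ∧ R.R 1 (v2 1 2) (v2 3 0)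

/-- the support -/
def sp (k : ℕ) (a : ℕ → ℕ) : Finset ℕ := (Finset.range (k + 1)).filter (fun j => a j ≠ 0)

/-- the profile: the blocks up to the first square -/
def pr (k : ℕ) (a : ℕ → ℕ) : Finset ℕ := (sp k a).filter (fun j => ∀ i < j, a i ≤ 1)

/-- the parity set -/
def par (k : ℕ) (a : ℕ → ℕ) : Finset ℕ := (Finset.range (k + 1)).filter (fun j => a j % 2 = 1)

/-- inclusion of functorial congruences -/
def FLe (R S : FC) : Prop := ∀ k a b, R.R k a b → S.R k a b

/-- one step of the same degree -/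
def Stp (R S : FC) (k : ℕ) (a b : ℕ → ℕ) : Prop := deg k a = deg k b ∧ (R.R k a b ∨ S.R k a b)

/-- the modular law for a pair: `U` is any functorial congruence which contains `R` and
`S ∩ T`, for `R ≤ T` -/
def LawFC (P : FC → Prop) : Prop :=
  ∀ R S T U : FC, P R → P S → P T → P U → FLe R T → FLe R U →
    (∀ k a b, S.R k a b → T.R k a b → U.R k a b) →
      ∀ (k : ℕ) (a a' : ℕ → ℕ), 2 ≤ deg k a → deg k a = deg k a' → T.R k a a' →
        Relation.ReflTransGen (Stp R S k) a a' → U.R k a a'

/-- the law for unbalanced relations -/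
def WU1 (P : FC → Prop) : Prop :=
  ∀ R : FC, P R → (∃ K, ∀ m, K ≤ m → R.R 1 (v2 m 0) (v2 0 m)) →
    ∀ (k : ℕ) (a b : ℕ → ℕ), 2 ≤ deg k a → deg k a ≠ deg k b → R.R k a b →
      (∀ j ≤ k, R.R k a (sg j (deg k a))) ∧ R.R 1 (v2 (deg k a) 0) (v2 0 (deg k a))

/-! ### tools -/

/-- **TRI** (uses nothing).  The partition lattice of a set with three elements is modular.
PROOF.  `c : X → Fin 3` names the class of a point; points of the same class are related in all
relations.  Let `x, y` with `t x y` and an `r, s` chain from `x` to `y`; `c x ≠ c y` (else `u x y`); let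
`w` be the third class.  (1) If `t` relates `x` to a point of the class `w` (or there is no point of
this class: then the same argument as in (2)), then any two points which occur in the chain are
`t`-related, every step of the chain is in `r` or in `s ∧ t`, hence in `u`.  (2) Otherwise: if
`r x y`, then `u x y`.  If not, every `r`-step `(z, z')` of the chain has `c z = c z'` (an `r`-step
between the classes of `x` and `y` gives `r x y`; an `r`-step between `w` and one of them is in `t`,
excluded), so it is also an `s`-step; hence `s x y`, and with `t x y` we get `u x y`. -/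
def TriStmt : Prop :=
  ∀ (X : Type) (r s t u : X → X → Prop) (c : X → Fin 3), Equivalence r → Equivalence s →
    Equivalence t → Equivalence u →
      (∀ x y, c x = c y → r x y ∧ s x y ∧ t x y ∧ u x y) → (∀ x y, r x y → t x y) →
        (∀ x y, r x y → u x y) → (∀ x y, s x y → t x y → u x y) →
          ∀ x y, t x y → Relation.ReflTransGen (fun a b => r a b ∨ s a b) x y → u x y

/-- **SEP** (uses nothing).  Separation of two sets of blocks by a retraction.
PROOF.  Let `up j` = the largest element of `S` which is `≤ j`, or `min S` if there is none; `dn j` =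
the smallest element of `S` which is `≥ j`, or `max S` if there is none.  Both are monotone and fix
`S`; the images of `S'` are contained in `S`.  If one image is not `S`, done (first alternative).  If
both images are `S`, then `|S'| = |S| = m` and `up`, `dn` are order isomorphisms `S' → S`; write
`S = {s 1 < .. < s m}`, `S' = {s' 1 < .. < s' m}`: `up (s' i) = s i = dn (s' i)` gives `s' i = s i` for
`1 < i < m`, `s' 1 ≤ s 1`, `s' m ≥ s m` (and `s' 1 < s 2`, `s' m > s (m-1)`).  As `S ≠ S'`, say
`s' 1 < s 1`: then the map `dn` for `S'` sends `s 1` to `s' 2` and no element of `S` to `s' 1` (`m ≥ 2`),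
so its image of `S` is a proper subset of `S'` (second alternative).  If `s' m > s m`: the map `up`
for `S'`. -/
def SepStmt : Prop :=
  ∀ S S' : Finset ℕ, S.Nonempty → S'.Nonempty → S ≠ S' → S'.card ≤ S.card → 2 ≤ S.card →
    (∃ f : ℕ → ℕ, Monotone f ∧ (∀ j, f j ∈ S) ∧ (∀ s ∈ S, f s = s) ∧ S'.image f ⊂ S) ∨
      (S'.card = S.card ∧
        ∃ f : ℕ → ℕ, Monotone f ∧ (∀ j, f j ∈ S') ∧ (∀ s ∈ S', f s = s) ∧ S.image f ⊂ S')

/-! ### the identity `O1`; degree 2 -/

/-- **OAA** (uses nothing).  Over `O1` the type is (degree, support); in degree 2 this is true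
without `O1`.
PROOF.  Degree 2: a vector of degree 2 is determined on `0..k` by its support (`FC.ext`).  `O1`:
for `p ≠ q` in `0..k` with `a p ≥ 2`, `a q ≥ 1`: `R a (a - e_p + e_q)`: push `(2,1) ~ (1,2)` with the
map `0 ↦ min p q`, `1 ↦ max p q` (and `j ↦ max p q` for `j ≥ 1`) and add the rest of the vector.  So
with `s` the smallest element of the support every vector is related to the vector
`e_S + (deg - |S|) e_s` (induction on the sum of `a j - 1` over `j ≠ s` in the support). -/
def OaaStmt : Prop :=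
  ∀ (R : FC) (k : ℕ) (a b : ℕ → ℕ), (O1 R ∨ deg k a = 2) → deg k a = deg k b →
    sp k a = sp k b → R.R k a b

/-- all types of degree `d` with supports of size `≤ m` and the same ends are related -/
def IP (R : FC) (m d : ℕ) : Prop :=
  ∀ (k : ℕ) (a b : ℕ → ℕ), deg k a = d → deg k b = d → (sp k a).card ≤ m → (sp k b).card ≤ m →
    (sp k a).min = (sp k b).min → (sp k a).max = (sp k b).max → R.R k a b

/-- all types of degree `d` with supports of size `≤ 2` and the same first block are related -/
def AP (R : FC) (d : ℕ) : Prop :=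
  ∀ (k : ℕ) (a b : ℕ → ℕ), deg k a = d → deg k b = d → (sp k a).card ≤ 2 → (sp k b).card ≤ 2 →
    (sp k a).min = (sp k b).min → R.R k a b

/-- all types of degree `d` with supports of size `≤ 2` and the same last block are related -/
def BP (R : FC) (d : ℕ) : Prop :=
  ∀ (k : ℕ) (a b : ℕ → ℕ), deg k a = d → deg k b = d → (sp k a).card ≤ 2 → (sp k b).card ≤ 2 →
    (sp k a).max = (sp k b).max → R.R k a b

/-- all types of degree `d` with one block are related -/
def CP (R : FC) (d : ℕ) : Prop :=
  ∀ (k : ℕ) (a b : ℕ → ℕ), deg k a = d → deg k b = d → (sp k a).card = 1 → (sp k b).card = 1 →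
    R.R k a b

/-- **OAI** (uses OAA).  The interior lemma.
PROOF (`O1 R`; for `m ≤ 2` the statement `IP R m d` follows from OAA, because a set of size `≤ 2` is
determined by its ends; so `m ≥ 3`, and then `d ≥ m ≥ 3`).  Notation: `S ~ S'` for sets: some (all, by
OAA) vectors of degree `d` with these supports are related; `S ~ S'` implies `f(S) ~ f(S')` for
order preserving `f` (`FC.push`; `sp (psh k f a) = image f (sp k a)`).  Given: `S ~ S1`, `S1 ⊂ S`,
`S1 ≠ S`, `|S| = m`; we may take `S = [m] = {0, …, m-1}` (push).  Claim: `IP R m d`.  Induction on `m`.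
(1) `IP R (m-1) d`: for `m = 3` trivial.  For `m ≥ 4` we find a map which identifies two neighbours
of `[m]` and keeps `f(S1) ≠ f([m])`: then induction.  If `0 ∉ S1`: identify `m-2, m-1`.  If
`m-1 ∉ S1`: identify `0, 1`.  Else some `p ∉ S1`, `0 < p < m-1`: identify a pair of neighbours which
does not contain `p` (`{0,1}` if `p ≥ 2`, `{m-2,m-1}` if `p = 1`).
(2) `[m] ~ {0, m-1}`: if `S1` contains `0` and `m-1`, then `S1 ~ {0, m-1}` by (1) (`|S1| ≤ m-1`).  If
`0 ∉ S1`: the map `0 ↦ 0`, `j ↦ 1` (`j ≥ 1`) gives `{0,1} ~ {1}`, so `{j, l} ~ {l}` for all `j < l`.  By (1)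
`S1 ~ {min S1, max S1} ~ {max S1}`.  If `max S1 = m-1`: `{m-1} ~ {0, m-1}`, done.  If `max S1 < m-1`:
the map `j ↦ 0` (`j < m-1`), `m-1 ↦ 1` gives also `{0,1} ~ {0}`, so all sets of size `≤ 2` are related,
done.  If `0 ∈ S1`, `m-1 ∉ S1`: symmetric.
(3) For every set `S` with `|S| = m`: push (2) with `[m] → S`: `S ~ {min S, max S}`; with (1) all sets
of size `≤ m` with the same ends are related. -/
def OaiStmt : Prop :=
  ∀ (R : FC) (k : ℕ) (a b : ℕ → ℕ), O1 R → deg k a = deg k b → sp k b ⊂ sp k a → R.R k a b →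
    (sp k b).Nonempty → IP R (sp k a).card (deg k a)

/-- **OAR** (uses SEP, OAA, OAI).  What a relation between different supports implies.
PROOF.  Notation as in OAI; `S = sp k a`, `S' = sp k b`, `S ≠ S'`, both nonempty (`d ≥ 2`), `S ~ S'`.
(i) `IP R (max |S| |S'|) d`: trivial if the maximum is `≤ 2` (OAA), in particular for `d = 2`; else
`O1 R`.  By symmetry `|S'| ≤ |S|`.  SEP: first alternative: push with `f`: `S ~ f(S') ⊂ S`, OAI.
Second: `S' ~ f(S) ⊂ S'`, `|S'| = |S|`, OAI.
(ii) `min S ≠ min S'` and not both of size 1: `BP R d`.  Let `p = min S < min S' = q` (symmetric).  If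
`|S| ≥ 2`: the map `j ↦ 0` (`j ≤ p`), `j ↦ 1` (`j > p`) gives `{0,1} ~ {1}`, so (push with `0 ↦ j, 1 ↦ l`)
`{j,l} ~ {l}` for all `j < l`: `BP R d`.  If `|S| = 1`: `|S'| ≥ 2`; the same map gives `{0} ~ {1}`, and the
map `j ↦ 0` (`j ≤ q`), `j ↦ 1` (`j > q`) gives `{0} ~ {0,1}`; so all three are related, `BP R d`.
(iii) `max S ≠ max S'`, not both of size 1: `AP R d`, symmetric.
(iv) both of size 1: `CP R d`: `{p} ~ {q}` gives `{0} ~ {1}`. -/
def OarStmt : Prop :=
  ∀ (R : FC) (k : ℕ) (a b : ℕ → ℕ), (O1 R ∨ deg k a = 2) → 2 ≤ deg k a → deg k a = deg k b →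
    R.R k a b → sp k a ≠ sp k b →
      IP R (max (sp k a).card (sp k b).card) (deg k a) ∧
      ((sp k a).min ≠ (sp k b).min → ¬ ((sp k a).card = 1 ∧ (sp k b).card = 1) →
        BP R (deg k a)) ∧
      ((sp k a).max ≠ (sp k b).max → ¬ ((sp k a).card = 1 ∧ (sp k b).card = 1) →
        AP R (deg k a)) ∧
      ((sp k a).card = 1 → (sp k b).card = 1 → CP R (deg k a))

/-- **LWA** (uses TRI, OAA, OAR).  The one letter law over `O1`, and in degree 2 without `O1`.
PROOF.  `S = sp k a`, `S' = sp k a'`; if `S = S'`: OAA for `U`.  Let `S ≠ S'`, `d = deg`, `m = max |S| |S'|`.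
(I) `IP U m d`.  If `m ≤ 2`: OAA.  Let `m ≥ 3`, say `|S| = m` (else reverse the chain).  There is a
first step `(z, z')` of the chain with `sp z = S`, `sp z' ≠ S`; OAR for `R` (or `S`, the congruence):
`IP R m d` (or `IP S m d`); OAR for `T`: `IP T m d`.  In both cases `IP U m d`.
(II) Two blocks: by TRI (classes: the supports `{0}, {1}, {0,1}` of vectors of degree `d` on the
blocks `0, 1`) for every map `f` to the blocks `0, 1` the pushed pair is in `U`:
`U.R 1 (psh k f a) (psh k f a')` (push the chain and the `T`-relation).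
(III) If `min S ≠ min S'`, not both of size 1, then `BP U d`; if `max S ≠ max S'`, not both of size 1,
then `AP U d`; if both have size 1, `CP U d`: exactly the maps used in OAR (ii), (iii), (iv), with
(II) instead of pushing in `R`.
(IV) `U.R k a a'`: by `IP` `S ~ {min S, max S}` and `S' ~ {min S', max S'}` in `U`; if both have size 1
use `CP`; if the minima differ use `BP` to replace `{min S, max S}` by `{max S}` and
`{min S', max S'}` by `{max S'}`; if the maxima differ use `AP`; if both differ then all types of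
size `≤ 2` are related. -/
def LwaStmt : Prop :=
  ∀ R S T U : FC, FLe R T → FLe R U → (∀ k a b, S.R k a b → T.R k a b → U.R k a b) →
    ∀ (k : ℕ) (a a' : ℕ → ℕ), ((O1 R ∧ O1 S ∧ O1 T ∧ O1 U) ∨ deg k a = 2) → 2 ≤ deg k a →
      deg k a = deg k a' → T.R k a a' → Relation.ReflTransGen (Stp R S k) a a' → U.R k a a'

/-- **WUA** (uses OAA).  Unbalanced relations over `O1`.
PROOF.  `d = deg k a`, `e = deg k b`, `C(i)` := `R.R 1 (v2 i 0) (v2 0 i)`.
(0) Push everything to one block: `x^d ~ x^e` (one block), so `x^δ ~ x^(δ + n |e - d|)` for all `n`,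
`δ = min d e`; hence `x^δ ~ x^N` for arbitrarily large `N`, and `x^N` is central: `C(δ)`, and
`C(d)`, `C(e)` (push; `FC.trans`).  It remains `a ~ sg j d` for one `j ≤ k` (then for all `j`, by `C(d)` and
push).  As `a ~ b` and `sg j d ~ sg j e` it is enough to prove `c ~ sg j δ` for the one `c` of `a, b` of the
smaller degree `δ`; let `c'` be the other one, of degree `ε > δ`.  `δ = 0`: `c` is 0.  `δ = 1`: `c` is some
`sg i 1`, use `C(1)`.  Let `δ ≥ 2` (so `ε ≥ 3`).
(1) Emptying blocks: if the degree of a vector `z` is `≥ K + (size of the support)`, then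
`z ~ sg s (deg z)` for every `s` in its support: for `i ≠ s` in the support move by OAA at least `K`
occurrences to the block `i`; the whole power `x^(z i)` is central (`C(z i)`, push, add), move it to `s`;
the block `i` is empty; continue.
(2) `S = sp k c`, `f` = a retraction onto `S` (`up` in SEP): `psh k f c = c`, so `c ~ c1 := psh k f c'`,
`S1 := sp k c1 ⊆ S`, nonempty.
If `S1 = S`: `c1 ~ c + (ε - δ) e_s` (OAA, `s ∈ S`), so `c ~ c + (ε - δ) e_s`, and by adding and iterating
`c ~ c + n (ε - δ) e_s` for all `n`; for large `n` by (1) `c ~ sg s (δ + n (ε - δ)) ~ sg s δ`.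
If `S1 ≠ S`: `g` = a retraction onto `S1`: `c2 := psh k g c` has the support `S1` and degree `δ`,
`psh k g c1 = c1`, so `c2 ~ c1`, both have the support `S1`: the first case for `c2, c1` gives
`c2 ~ sg s δ`; hence `c ~ c1 ~ c2 ~ sg s δ`. -/
def WuaStmt : Prop := WU1 O1

/-! ### the identity `O3` -/

/-- **OCA** (uses nothing).  Over `O3` the type is (degree, profile).
PROOF.  Push and add from `(3,0) ~ (2,1)`: if `p < q`, `a p ≥ 2`, `a q ≥ 1`, then
`R a (a + e_p - e_q)`.  So every vector is related to: 1 on the profile without its maximum, the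
rest of the degree at the maximum (if there is a square, all occurrences behind the first square
are moved to it; if there is none the vector is `e_P` itself). -/
def OcaStmt : Prop :=
  ∀ (R : FC) (k : ℕ) (a b : ℕ → ℕ), O3 R → deg k a = deg k b → pr k a = pr k b → R.R k a b

/-- the first `m` elements of a finite set -/
def tr (m : ℕ) (P : Finset ℕ) : Finset ℕ := P.filter (fun j => (P.filter (fun i => i < j)).card < m)

/-- types of degree `d` whose profiles have the same first `m - 1` elements and at most `m`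
elements are related: the last of `m` elements can be removed -/
def JP (R : FC) (m d : ℕ) : Prop :=
  ∀ (k : ℕ) (a b : ℕ → ℕ), deg k a = d → deg k b = d → (pr k a).card = m →
    pr k b = tr (m - 1) (pr k a) → R.R k a b

/-- the three possible relations between the types `{0}`, `{0,1}`, `{1}` of degree `d`, for all pairs
of blocks, over `O3` -/
def A3 (R : FC) (d : ℕ) : Prop := R.R 1 (v2 d 0) (v2 1 (d - 1))
/-- see `A3` -/
def B3 (R : FC) (d : ℕ) : Prop := R.R 1 (v2 0 d) (v2 1 (d - 1))
/-- see `A3` -/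
def C3 (R : FC) (d : ℕ) : Prop := R.R 1 (v2 d 0) (v2 0 d)

/-- the larger one of the first two elements of the profile -/
def bm (P : Finset ℕ) : WithBot ℕ := (tr 2 P).max

/-- **OCR** (uses SEP, OCA).  What a relation between different profiles implies, over `O3`.
Notation: sets `P` stand for the types of degree `d` with this profile; `f_* P` = `f(P)` cut behind the
first collision: if `f(p_i) = f(p_(i+1))` for the first `i`, then `f_* P = {f(p_1), .., f(p_i)}`.
PROOF.  Let `P ~ Q`, `P ≠ Q`, `c` = length of the longest common initial segment.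
(J) Let `m ≥ 3`, `m > c`, `m ≤ |P|` or `m ≤ |Q|`; by symmetry `m ≤ |P|`; claim `JP R m d`.
Put all blocks `≥ p_m` together: `P' := {p_1..p_m} ~ Q1`, `Q1 ⊆ [0, p_m]`.
 (J1) `Q1 = P'`: then `Q = {p_1, .., p_(m-1), q_m, ..}` with `q_m > p_m`; the map which sends
 `[p_(m-1), q_m)` to `p_(m-1)` and `[q_m, ..)` to `q_m` gives `{p_1..p_(m-1)} ~ {p_1..p_(m-1), q_m}`: `JP`.
 (J2) `Q1 ≠ P'`.  The retraction `up` (`dn`) onto `P'` gives `P' ~ Q2` (`P' ~ Q3`) with `Q2, Q3 ⊆ P'`.  If
 one is not `P'` we have an `m`-set related to a proper subset.  If both are `P'`, then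
 `Q1 = {q_1, p_2, .., p_m}`, `q_1 < p_1`; the map `[p_1, p_2] ↦ p_2` gives `{p_2} ~ {q_1, p_2, .., p_m}`: again
 an `m`-set related to a proper subset.  So (push) `[m] ~ Q`, `Q ⊂ [m]` proper, nonempty.
 (J3) From this `[m] ~ [m-1]`: if `Q = [c']` is an initial segment, `c' < m`: identify `m-2, m-1`:
 `[m-1] ~ [c'] ~ [m]` (or `c' = m-1`).  If `Q` is not an initial segment and `c' := min ([m] \ Q) ≥ 1`: the
 retraction `up` onto `Q` fixes `Q` and sends `[m]` to `[c']` (collision at `c'-1`), so `[c'] ~ Q ~ [m]`.  If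
 `0 ∉ Q`, `q = min Q`: `up` onto `Q` sends `[m]` to `{q}` (0 and 1 collide, or `q ≥ 1`), so `{q} ~ Q ~ [m]`; if
 `q ≤ m-2`: identify `m-2, m-1`: `[m-1] ~ {q} ~ [m]`; if `q = m-1`: `[m] ~ {m-1}` gives `{0} ~ {1}` (map
 `0, 1 ↦ 0`, others `↦ 1`; `m ≥ 3`), and identifying `m-2, m-1`: `[m-1] ~ {m-2} ~ {m-1} ~ [m]`.
(A) `c = 1`: `A3`: if one of them is `{p_1}`: the map `j ↦ 0` (`j ≤ p_1`), `j ↦ 1` else.  Otherwise the
second elements are different, `p_2 < q_2`: the map `j ↦ 0` (`j ≤ p_2`), `j ↦ 1` else.
(B, C) `c = 0`, `p_1 < q_1` (symmetric).  Both of size 1: `C3`.  `bm P = bm Q`, not both of size 1: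
then `|P| ≥ 2` and the cut behind `p_1` gives `{0,1} ~ {1}`: `B3`.  `bm P ≠ bm Q`: all three.  `|P| = 1`:
(`|Q| ≥ 2`) the cut behind `p_1` gives `C3`, the cut behind `q_1` gives `A3`.  `|P| ≥ 2`: the cut behind
`p_1` gives `B3`; let `q = bm Q`; if `p_2 < q`, the cut behind `p_2` gives `{0} ~ {0,1}` (if `q_1 ≤ p_2`) or
`{0} ~ {1}`; if `p_2 > q`, the cut behind `q` gives `{0,1} ~ {0}`. -/
def OcrStmt : Prop :=
  ∀ (R : FC) (k : ℕ) (a b : ℕ → ℕ), O3 R → 2 ≤ deg k a → deg k a = deg k b → R.R k a b →
    pr k a ≠ pr k b →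
      (∀ m, 3 ≤ m → tr m (pr k a) ≠ tr m (pr k b) →
        (m ≤ (pr k a).card ∨ m ≤ (pr k b).card) → JP R m (deg k a)) ∧
      ((pr k a).min = (pr k b).min → tr 2 (pr k a) ≠ tr 2 (pr k b) → A3 R (deg k a)) ∧
      ((pr k a).min ≠ (pr k b).min → (pr k a).card = 1 → (pr k b).card = 1 →
        C3 R (deg k a)) ∧
      ((pr k a).min ≠ (pr k b).min → ¬ ((pr k a).card = 1 ∧ (pr k b).card = 1) →
        B3 R (deg k a)) ∧
      ((pr k a).min ≠ (pr k b).min → ¬ ((pr k a).card = 1 ∧ (pr k b).card = 1) →
        bm (pr k a) ≠ bm (pr k b) → A3 R (deg k a) ∧ C3 R (deg k a))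

/-- **LWC** (uses TRI, OCA, OCR).  The one letter law over `O3`.
PROOF.  `P = pr k a`, `Q = pr k a'`, `d = deg`.  `P = Q`: OCA.  Let `P ≠ Q`.
(J) For `m ≥ 3` with `tr m P ≠ tr m Q` and `m ≤ |P|` or `m ≤ |Q|`: `JP U m d`.  Say `m ≤ |P|` (else reverse
the chain).  First step `(z, z')` of the chain with `tr m (pr z) = tr m P` and
`tr m (pr z') ≠ tr m P`; `|pr z| ≥ m`; OCR: `JP R m d` (or `JP S m d`); and `JP T m d` by OCR for `(a, a')`.  So
`JP U m d`.
(II) Every pushed pair to two blocks is in `U` (TRI; the classes are the profiles `{0}, {0,1}, {1}` of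
vectors of degree `d` on the blocks `0, 1`).  So the maps in (A), (B, C) of OCR give `A3 U d`,
`B3 U d`, `C3 U d` in the same cases.
(III) `JP U m d` for all `m` between gives `P ~ tr c P` if `c = max(2, length of the common initial
segment)`, the same for `Q`.  If `tr 2 P = tr 2 Q` done.  If the first elements agree: `A3` removes the
second elements.  If they do not agree: `B3` (pushed) replaces `tr 2 P` by `{bm P}` (if `|P| ≥ 2`), the
same for `Q`; then `bm P = bm Q` or `C3`. -/
def LwcStmt : Prop := LawFC O3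

/-- **WUC** (uses OCA).  Unbalanced relations over `O3`.
PROOF.  As in WUA: `x^d ~ x^e`, `C(δ)`, `C(d)`, `C(e)`, `δ = min d e`, and it is enough to show `c ~ sg j δ`
for the vector `c` of the smaller degree `δ`; `c'` the other one, degree `ε > δ`; `δ ≤ 1` as in WUA.
`P = pr c`.  If `|P| = 1`: OCA.  Let `f` be the retraction `up` onto `P`: `psh f c ~ c` (profile `P`), so
`c ~ c1 := psh f c'`, `P1 := pr c1 ⊆ P`.
(1) If `P1 = P`: `c1 ~ c + (ε - δ) e_s`, `s = max P` (OCA), so `c ~ c + n (ε - δ) e_s` for all `n`; for large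
`n` the vector contains the central power `x^K` at `s`; move it to the first block `p_1` of `P`
(`FC.add`, `C(K)`): the profile is now `{p_1}`, so (OCA) it is `~ sg p_1 N ~ sg p_1 δ`.
(2) `P1 ≠ P`, let `i` be the first index with `p_i ≠ q_i` (`P1 = {q_1 < ..}`, `i ≤ |P1| + 1`; possible:
`q_i > p_i`, or `P1` is the initial segment of length `i - 1 ≥ 1`).  `g` = the retraction `up` onto `P1`:
`psh g c1 ~ c1`, and `pr (psh g c) = {p_1, .., p_(i-1)} =: P2` if `i ≥ 2` (`p_i` and `p_(i-1)` collide), `{q_1}` if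
`i = 1` (`p_1` and `q_1 ∈ P`, collide, because `P1 ⊆ P`).  So `c2 := psh g c ~ c1` has degree `δ` and a
profile `P2` of size `< |P|`.  If `P1 = P2`: (1) for `c2, c1`.  Otherwise let `h` be the retraction `up`
onto `P2`: `psh h c2 ~ c2`, `pr (psh h c1) = P2` (collision, as `P2` is an initial segment of `P1`, or
`|P2| = 1`), so `c2 ~ psh h c1` with equal profiles: (1) gives `c2 ~ sg .. δ`.  Hence
`c ~ c1 ~ c2 ~ sg .. δ`. -/
def WucStmt : Prop := WU1 O3

/-! ### the identity `O4` -/

/-- **ODA** (uses nothing).  Over `O4` and for degree `≥ 3` the type is (degree, parity set).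
PROOF.  Push and add: `2 e_p + e_q ~ 3 e_q` for all `p ≠ q`.  So a square can be moved from `p` to `q`
if `a p ≥ 2` and (`a q ≥ 1` or `a p ≥ 3`); if `a p = 2`, `a q = 0`, there is `r` with `a r ≥ 1`, `r ≠ p` (degree
`≥ 3`): move the square to `r` and then from `r` (now `≥ 3`) to `q`.  So all squares can be moved to
one block. -/
def OdaStmt : Prop :=
  ∀ (R : FC) (k : ℕ) (a b : ℕ → ℕ), O4 R → 3 ≤ deg k a → deg k a = deg k b →
    par k a = par k b → R.R k a b

/-- all types of degree `d` with parity sets of size `≤ m` are related -/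
def EP (R : FC) (m d : ℕ) : Prop :=
  ∀ (k : ℕ) (a b : ℕ → ℕ), deg k a = d → deg k b = d → (par k a).card ≤ m →
    (par k b).card ≤ m → R.R k a b

/-- **ODR** (uses SEP, ODA).  Relations over `O4` in degree `≥ 3`.
PROOF.  Notation: sets `S` with `|S| ≤ d`, `|S| ≡ d (mod 2)`; `f_* S` = the blocks `j` with an odd number
of `i ∈ S`, `f i = j`.  `S ~ S'`, `S ≠ S'`, `m = max |S| |S'|`; claim `EP R m d`.
(1) `EP R 2 d` for even `d`, `EP R 1 d` for odd `d`: let `t` be the smallest element of the symmetric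
difference; the cut `j ↦ 0` (`j ≤ t`), `j ↦ 1` (`j > t`) gives `∅ ~ {0,1}` (`d` even) or `{0} ~ {1}` (`d` odd).
(2) Induction on `m ≥ 3`, `|S'| ≤ |S| = m`.  SEP and push: some set with `m` elements is related to a
proper subset (the parity image of a set is contained in its image; if `S' = ∅` this is clear), so `[m] ~ S1`, `S1 ⊂ [m]`
proper, `|S1| ≤ m - 2`.  For `i = 0` and `i = m-2` let `f_i` identify `i, i+1`: `[m] \ {i, i+1} ~ (f_i)_* S1`;
if both were equalities then `S1 = {2, .., m-1}` and `S1 = {0, .., m-3}`, impossible.  So two different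
sets, the larger one of size `m - 2`, are related; induction: `EP R (m-2) d`.  Every set `S` with `m`
elements: push `[m] ~ S1`: `S ~` a set of size `≤ m-2`.  So `EP R m d`. -/
def OdrStmt : Prop :=
  ∀ (R : FC) (k : ℕ) (a b : ℕ → ℕ), O4 R → 3 ≤ deg k a → deg k a = deg k b → R.R k a b →
    par k a ≠ par k b → EP R (max (par k a).card (par k b).card) (deg k a)

/-- **LWD** (uses LWA, ODA, ODR).  The one letter law over `O4`.
PROOF.  Degree 2: LWA.  Degree `d ≥ 3`: parity sets `S`, `S'` of `a, a'`; equal: ODA.  Else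
`m = max |S| |S'|`, say `|S| = m` (else reverse the chain); the first step `(z, z')` of the chain with
`par z = S ≠ par z'` gives `EP R m d` or `EP S m d` (ODR); ODR for `T`: `EP T m d`.  So `EP U m d`. -/
def LwdStmt : Prop := LawFC O4

/-- **WUD** (uses ODA).  Unbalanced relations over `O4`.
PROOF.  As in WUA (0) it is enough to show `c ~ sg j δ` for the vector `c` of the smaller degree `δ`; `c'`
the other one, of degree `ε > δ`, `c ~ c'`, `p := ε - δ`, `C(δ)` holds and `x^δ ~ x^(δ + n p)`.  `δ ≤ 1` as in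
WUA.
`δ = 2`: `c = 2 e_i`: nothing to do.  `c = e_i + e_j`, `i ≠ j`: retraction onto `{i, j}`:
`c ~ s e_i + t e_j`, `s + t = ε ≥ 3`.  `s = 0`: `sg j ε ~ sg j δ`; `t = 0` the same.  Else put
`v := (s-1) e_i + (t-1) e_j ≠ 0`: `c ~ c + v`, so `c ~ c + n v` for all `n`; for large `n` one entry, say at `i`,
is `≥ K`, this whole power is central, move it to `j`: `c ~ sg j (2 + n p) ~ sg j δ`.
`δ ≥ 3`: `S = par k c`, `m = |S|`.  If `m ≤ 1`: ODA gives `c ~ sg j δ`.  Let `m ≥ 2`.  `(S, i)` stands for the types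
with parity set `S` and degree `i ≥ 3` (ODA).
(1) The retraction onto `S` gives `(S, δ) ~ (S1, ε)`, `S1 ⊆ S`.
(2) Claim: `(S, δ) ~ (S_n, δ + n p)` for all `n ≥ 1`, with `|S_n| ≤ m`.  `n = 1`: (1).  Step: choose an order
preserving map `g` of the blocks with `g_* S = S_n` if `|S_n| ≡ m (mod 2)`, and `g_* S = S_n ∪ {z}`, `z` a
block not in `S_n`, if not (then `|S_n| ≤ m - 1 ≤ k`, so `z` exists, and `p` is odd).  Such a `g` exists: for
a set `W`, `|W| ≡ m`, `|W| ≤ m`: if `W ≠ ∅` map the first `m - |W| + 1` elements of `S` (an odd number) to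
`min W` and the others in their order to the other elements; if `W = ∅` map everything to block 0.
`(S_n, δ + n p)` is `g_*(c) +` a vector of degree `n p` (with parity set `∅` or `{z}`; the degree `n p` has
the right parity).  Replace `g_*(c)` by `g_*(c1)`, `c1` of type `(S1, ε)`:
`~ (S_(n+1), δ + (n+1) p)`, `S_(n+1) = g_* S1` or `g_* S1 Δ {z}`; in the second case `p` is odd, so
`|S1| ≤ m - 1`; in both cases `|S_(n+1)| ≤ m`.
(3) If the degree is `≥ m + 2 m K + 3` say, then `(S_n, D) ~ sg j D`: for `i ≠ j` in the parity set float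
squares to `i` until the entry is `≥ K`; the whole power is central, move it to `j`.
So `c ~ sg j (δ + n p) ~ sg j δ`. -/
def WudStmt : Prop := WU1 O4

/-! ### the identity `O2` by reversal -/

/-- **OPF** (uses nothing).  The reversed functorial congruence.
PROOF.  `R' k a b := R k (fun j => a (k - j)) (fun j => b (k - j))` is a functorial congruence: `add`:
reverse the vector; `push` with `f`: use `R.push` with `f' j = k' - f (k - j)` and `FC.ext`.  Then
`O3 R'` is `R 1 (0,3) (1,2)`, which is `O2 R` by symmetry (`FC.ext`), and the reversed of the reversed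
relation is `R` on `0..k`. -/
def OpfStmt : Prop :=
  ∀ R : FC, ∃ R' : FC, (∀ k a b, R'.R k a b ↔ R.R k (fun j => a (k - j)) (fun j => b (k - j))) ∧
    (O2 R → O3 R')

/-- **LWB** (uses OPF, LWC).  PROOF: reversal. -/
def LwbStmt : Prop := LawFC O2

/-- **WUB** (uses OPF, WUC).  PROOF: reversal. -/
def WubStmt : Prop := WU1 O2

/-! ### back to words -/

/-- the congruence `β` satisfies `O1`, `O2`, `O3` or `O4` -/
def OO (β : FIC) : Prop :=
  O1 (FC.ofFIC β) ∨ O2 (FC.ofFIC β) ∨ O3 (FC.ofFIC β) ∨ O4 (FC.ofFIC β)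

/-- high powers are central -/
def Cent (β : FIC) : Prop :=
  ∃ K, ∀ m, K ≤ m → RR β (List.replicate m 0 ++ [1]) (1 :: List.replicate m 0)

/-- **OLW** (uses LWA, LWB, LWC, LWD).  PROOF.  `LawFC` for the four congruences
`FC.ofFIC ρ`, `FC.ofFIC σ`, `FC.ofFIC τ`, `FC.ofFIC (sup ρ (inf σ τ))`; the identity `O i` is inherited from
`β`; `St1 ρ σ k` is `Stp (FC.ofFIC ρ) (FC.ofFIC σ) k`. -/
def OlwStmt : Prop := ∀ β : FIC, OO β → OneLaw β

/-- **WUW** (uses COM, REN, ALN, WUA, WUB, WUC, WUD).  Unbalanced identities between words.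
PROOF.  `θ ≥ β`, `RR θ u v`, `u.count c ≠ v.count c`.  `u.count c = 0`: `u.filter (· ≠ c) = u`.  If `θ` contains
`xy = yx`: COM (the two words are balanced).  Let `NC2 θ`.
(1) A letter `t` is simple in `u` iff it is simple in `v`: let `u.count t = 1`, `v.count t = n ≠ 1`; filter
to `t`: `x ~ x^n`.  `n = 0`: `[0] ~ []`, so `[0,1] ~ [1] ~ [1,0]`.  `n ≥ 2`: `x ~ x^N` for arbitrarily large
`N` (substitute), `x^N` is central: `[0,1] ~ [1,0]`.  Contradiction with `NC2 θ`.
(2) So `u.count c ≥ 2`.  REN: `u.map π = asm k B`; the simple letters of `v.map π` are the same, and in the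
same order: `(v.map π).filter sep` is a permutation of `seps k` and `θ`-related to `seps k`; if it is not
equal, two letters are exchanged and `NC2 θ` fails (as in SEQ).  So `v.map π = asm k B'` (`dec`).
(3) One letter (filter to `c' = π c` and the simple letters, rename): `L1 θ k a b`, `a j = (B j).count c'`,
`b j = (B' j).count c'`, different degrees, `deg k a ≥ 2`.  `WU1` (for `FC.ofFIC θ`; central powers:
`RR β (0^m 1) (1 0^m)` gives `R.R 1 (v2 m 0) (v2 0 m)` by renaming `1 ↦ 2`): `L1 θ k a (sg k d)` and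
`RR θ (0^d 2) (2 0^d)`, `d = deg k a`.
(4) `Gath β`: `asm k B ~ gw k n D`; ALN: `~ gw k n' D`, the letter `c'` has now all its `d` occurrences in
block `k`: the word is `w1 ++ c'^d ++ w2`, `c'` not in `w1, w2`; `RR θ (c'^d w2) (w2 c'^d)`.  So
`u.map π ~ w1 w2 c'^d`; filtering `≠ c'`: `(u.map π) without c' ~ w1 w2`.  Together
`u.map π ~ ((u.map π) without c') c'^d`; map back with `π⁻¹`. -/
def WuwStmt : Prop := ∀ β : FIC, OO β → Cent β → Gath β → WU β

end Pool.Agent.MVO
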