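import Pool.Agent.MVO.StmtsG

/-!
# Squad MVO, block G2: the sufficiency theorem for 2-determined intervals (MP_23468a_al)

Variant of block G for classes in which words with many letters cannot be gathered, but every
congruence above `β` is determined by the restrictions to two multiple letters.
-/

namespace Pool.Agent.MVO

open Pool.Agent.Helper14_MV Pool.Agent.Helper2_MV

/-- every word with at most two multiple letters is equivalent to a gathered word with the same
types -/
def Gath2 (β : FIC) : Prop :=
  ∀ (k : ℕ) (B : ℕ → List ℕ) (X : List ℕ), X.length ≤ 2 → BlkOk k B → X.Nodup →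
    (∀ c ∈ X, NS k c) → (∀ j ≤ k, ∀ c ∈ B j, c ∈ X) →
      (∀ c ∈ X, 2 ≤ deg k (fun j => (B j).count c)) →
        ∃ D : ℕ → List ℕ, (∀ j, (D j).Perm X) ∧
          RR β (asm k B) (gw k (fun j c => (B j).count c) D)

/-- restriction of the blocks to two letters -/
def r2 (x y : ℕ) (B : ℕ → List ℕ) : ℕ → List ℕ :=
  fun j => (B j).filter (fun c => decide (c = x ∨ c = y))

/-- every congruence above `β` is 2-determined on balanced pairs of words whose block letters are
multiple -/
def Det (β : FIC) : Prop :=
  ∀ ω : FIC, β ≤ ω → NC2 ω → ∀ (k : ℕ) (B B' : ℕ → List ℕ), BlkOk k B → BlkOk k B' →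
    (∀ j ≤ k, ∀ c ∈ B j, 2 ≤ deg k (fun j => (B j).count c)) →
      (∀ c, deg k (fun j => (B j).count c) = deg k (fun j => (B' j).count c)) →
        (∀ x y, RR ω (asm k (r2 x y B)) (asm k (r2 x y B'))) → RR ω (asm k B) (asm k B')

/-- `Gath` implies `Gath2` -/
theorem Gath.to2 {β : FIC} (h : Gath β) : Gath2 β :=
  fun k B X _ h1 h2 h3 h4 h5 => h k B X h1 h2 h3 h4 h5

/-- **SU2** (proved in `Helper20_MVO/SU2.lean`, no hypotheses). -/
def Su2Stmt : Prop :=
  ∀ β : FIC, Det β → Gath2 β → Rig β → Tight β → OneLaw β → WU β → ModF β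

end Pool.Agent.MVO
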