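import Pool.Agent.MVO.StmtsC
import Pool.Agent.MVO.StmtsG2
import Pool.Agent.MVD.LocDefs

/-!
# Squad MVO, block M: mirror images (MP_23468a_al)

`MVD.mir β = FIC.op β`: `RR (MVD.mir β) l l' ↔ RR β l.reverse l'.reverse` (by definition of `FIC.op`,
file Helper14_MV/B2 or CR; see also row MIR of squad MVD, `MVD/Stmts.lean`).

Every row: file `Pool/Agent/HelperNN_MVO/XXX.lean`, import `Pool.Agent.MVO.StmtsM`, theorem
`xxx (hypotheses = rows in uses, in this order) : XxxStmt`.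
-/

namespace Pool.Agent.MVO

open Pool.Agent.Helper14_MV Pool.Agent.Helper2_MV

/-- the blocks of the reversed word -/
def rvB (k : ℕ) (B : ℕ → List ℕ) : ℕ → List ℕ := fun j => (B (k - j)).reverse

/-- the reversed vector -/
def rvv (k : ℕ) (a : ℕ → ℕ) : ℕ → ℕ := fun j => a (k - j)

/-- **MRA** (uses nothing).  The mirror image of a word in blocks.
PROOF.  (1) `(asm k B).reverse` is the word with the blocks `(B k).reverse, …, (B 0).reverse` separated by
the simple letters `k+1, …, 2`; so with `π c = k + 3 - c` for `2 ≤ c ≤ k + 1`, `π c = c` else: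
`((asm k B).reverse).map π = asm k (rvB k B)` (`BlkOk`: the letters of the blocks are fixed by `π`).  Proof
by `asm_split` / induction: more generally show by induction on `r ≤ k` that the reverse of
`asm r B`, mapped by `c ↦ k + 3 - c` on `2..r+1`, is the word
`(B r).reverse, k+2-r+1, (B (r-1)).reverse, …`, or use: a word is determined by its blocks: the word
`((asm k B).reverse).map π` filtered to `2..k+1` is `seps k`, so it is `asm k C` by `dec`, and `C j` is found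
by `asm_split` of `asm k B` at `k - j` (reverse of `pre ++ B ++ suf` is `suf.reverse ++ B.reverse ++
pre.reverse`) and uniqueness of the decomposition.
(2) `RR (mir β) (asm k B) (asm k B') ↔ RR β (asm k B).reverse (asm k B').reverse`; `RR.sub` with
`c ↦ [π c]` (`π` is an involution on all letters) gives both directions. -/
def MraStmt : Prop :=
  ∀ (β : FIC) (k : ℕ) (B B' : ℕ → List ℕ), BlkOk k B → BlkOk k B' →
    (RR (MVD.mir β) (asm k B) (asm k B') ↔ RR β (asm k (rvB k B)) (asm k (rvB k B')))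

/-- **MRT** (uses MRA).  One letter and two letter identities of the mirror image.
PROOF.  `rvB` of the blocks `0^(a j)` are the blocks `0^(a (k-j))`.  `(bl p q e).reverse = bl p q (!e)` (as
words: `(0^p 1^q).reverse = 1^q 0^p`), so `rvB` of the blocks of `w2 k a b e` are (on `0..k`) the blocks of
`w2 k (rvv k a) (rvv k b) (fun j => !(e (k - j)))`, and `flp e i` becomes the flip at `k - i`
(`i ≤ k`); `e ↦ fun j => !(e (k-j))` is a bijection on the values at `0..k` (`asm_congr`).  `NC2`: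
reverse `xy ≈ yx`. -/
def MrtStmt : Prop :=
  ∀ (β : FIC),
    (∀ (k : ℕ) (a a' : ℕ → ℕ), L1 (MVD.mir β) k a a' ↔ L1 β k (rvv k a) (rvv k a')) ∧
    (∀ (k : ℕ) (a b : ℕ → ℕ) (i : ℕ), i ≤ k →
      (Bt (MVD.mir β) k a b i ↔ Bt β k (rvv k a) (rvv k b) (k - i))) ∧
    (NC2 (MVD.mir β) ↔ NC2 β) ∧ (MVD.mir (MVD.mir β) = β) ∧
    (∀ ρ : FIC, β ≤ ρ → MVD.mir β ≤ MVD.mir ρ)

/-- the mirror image of `ClauseC1`: `II` or g1 -/
def ClauseC1' (β : FIC) : Prop := II (FC.ofFIC β) ∨ Bt β 2 (v3 0 2 1) (v3 1 0 1) 2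

/-- **MRC** (uses MRA, MRT).  The classes and clauses of the mirror image.
PROOF.  `Cc`: reverse the words (for `S2` rename the letters; `FF` and `ZZ` are exchanged, the roles of
`x`, `y` are symmetric, `Mult` does not change under reversal: `List.count_reverse`); `IA` and `IAd`;
`E32` and `E32d`, `E23` and `E23d` (`p, q` exchanged, `c` reversed; `w.reverse` has the same counts).
`O1`: MRT for `k = 1` and the vectors `(2,1)`, `(1,2)`: the relation is symmetric.  `O2`, `O3`: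
`(1,2) ~ (0,3)` becomes `(2,1) ~ (3,0)`.  `O4`: the two identities are exchanged.  `II` over `O1`:
`(1,1,1) ~ (2,0,1)` becomes `(1,1,1) ~ (1,0,2)`, and `(2,0,1) ~ (1,0,2)` over `O1` (push of
`(2,1) ~ (1,2)` with `0 ↦ 0, 1 ↦ 2`).  `JJ`, `JJd`: `(1,1,1) ~ (0,2,1)` becomes `(1,1,1) ~ (1,2,0)`.  The
`Bt` parts by MRT (on `0..2` the reversed vectors are the vectors in the other clause; `Bt` only
depends on the values on `0..k`). -/
def MrcStmt : Prop :=
  ∀ (β : FIC),
    (MVD.Cc (MVD.mir β) ↔ MVD.Cc β) ∧ (MVD.IA (MVD.mir β) ↔ MVD.IAd β) ∧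
    (MVD.IAd (MVD.mir β) ↔ MVD.IA β) ∧ (MVD.E32 (MVD.mir β) ↔ MVD.E32d β) ∧
    (MVD.E32d (MVD.mir β) ↔ MVD.E32 β) ∧ (MVD.E23 (MVD.mir β) ↔ MVD.E23d β) ∧
    (MVD.E23d (MVD.mir β) ↔ MVD.E23 β) ∧
    (O1 (FC.ofFIC (MVD.mir β)) ↔ O1 (FC.ofFIC β)) ∧
    (O2 (FC.ofFIC (MVD.mir β)) ↔ O3 (FC.ofFIC β)) ∧
    (O3 (FC.ofFIC (MVD.mir β)) ↔ O2 (FC.ofFIC β)) ∧
    (O4 (FC.ofFIC (MVD.mir β)) ↔ O4 (FC.ofFIC β)) ∧
    (O1 (FC.ofFIC β) → ClauseC1' β → ClauseC1 (MVD.mir β)) ∧
    (O1 (FC.ofFIC β) → ClauseC1 β → ClauseC1' (MVD.mir β)) ∧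
    (ClauseC2 β → ClauseC3 (MVD.mir β)) ∧ (ClauseC3 β → ClauseC2 (MVD.mir β)) ∧
    (Cent β → Cent (MVD.mir β)) ∧ (ModF (MVD.mir β) → ModF β)

/-- the body of `Det` for one congruence -/
def DetAt (ω : FIC) : Prop :=
  ∀ (k : ℕ) (B B' : ℕ → List ℕ), BlkOk k B → BlkOk k B' →
    (∀ j ≤ k, ∀ c ∈ B j, 2 ≤ deg k (fun j => (B j).count c)) →
      (∀ c, deg k (fun j => (B j).count c) = deg k (fun j => (B' j).count c)) →
        (∀ x y, RR ω (asm k (r2 x y B)) (asm k (r2 x y B'))) → RR ω (asm k B) (asm k B')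

/-- the body of `WU` for one congruence -/
def WUAt (θ : FIC) : Prop :=
  ∀ (u v : List ℕ) (c : ℕ), RR θ u v → u.count c ≠ v.count c →
    RR θ u (u.filter (fun d => d ≠ c) ++ List.replicate (u.count c) c)

/-- **MRD** (uses MRA, MRT).  Transfer of the properties `TightAt`, `DetAt`, `WUAt`.
PROOF.  `TightAt`: MRT for `L1` (`deg k (rvv k a) = deg k a`: reversal of a sum, `Finset.sum_range_reflect`);
all exchanges `∀ e, Ex ρ k a b e i` is `Bt ρ k a b i`.  Given `L1 ρ k a a'` apply `TightAt (mir β) (mir ρ)` to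
`rvv k a, rvv k a'` (`L1 (mir ρ) k (rvv k a) (rvv k a')` by MRT and `rvv k (rvv k a) = a` on `0..k`).
`DetAt`: apply `DetAt (mir ω)` to `rvB k B`, `rvB k B'`: `r2 x y (rvB k B)` and `rvB k (r2 x y B)` agree
(`List.filter_reverse`), MRA for `mir ω` (`mir (mir ω) = ω`).
`WUAt`: `RR θ u v`, `u.count c ≠ v.count c`.  `WUAt (mir θ)` for the reversed words gives
`RR θ u (c^(u.count c) ++ u.filter (≠ c))` (*).  Put `m := u.count c`, `n := v.count c`, `u' := u.filter (≠ c)`.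
Filter `RR θ u v` to `c`: `RR θ (c^m) (c^n)`, so `RR θ (u' ++ c^m) (u' ++ c^n)`; these words have different
numbers of `c`, (*) for them: `u' ++ c^m ~ c^m ++ u'`.  With (*) for `u`: `u ~ c^m ++ u' ~ u' ++ c^m`. -/
def MrdStmt : Prop :=
  (∀ β ρ : FIC, TightAt (MVD.mir β) (MVD.mir ρ) → TightAt β ρ) ∧
  (∀ ω : FIC, DetAt (MVD.mir ω) → DetAt ω) ∧ (∀ θ : FIC, WUAt (MVD.mir θ) → WUAt θ)

end Pool.Agent.MVO
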