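import Pool.Agent.MVO.StmtsM

/-!
# Squad MVO, block E: class c3, part 1: two letters determine everything (MP_23468a_al)

Class c3: `MVD.Cc β` (s2, F, Z) and `MVD.LC3 β` (`E32`, `E32d`, `E23d`, file `MVD/LocDefs.lean`).  Local
letters cannot be gathered, but every congruence above `β` is determined by the restrictions of the
words to two multiple letters (`Det`, file `StmtsG2.lean`).

Every row: file `Pool/Agent/HelperNN_MVO/XXX.lean`, import `Pool.Agent.MVO.StmtsE`, theorem
`xxx (hypotheses = rows in uses, in this order) : XxxStmt`.  Read `Defs.lean`, `Basic.lean`,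
`Push.lean`, `Split.lean`, `StmtsC.lean` (`Cob`, `SgcStmt`).  Local in block `i` means: all occurrences are in
block `i`.
-/

namespace Pool.Agent.MVO

open Pool.Agent.Helper14_MV Pool.Agent.Helper2_MV

/-- class c3 -/
structure ClC3 (β : FIC) : Prop where
  cc : MVD.Cc β
  l3 : MVD.LC3 β

/-- all letters of the blocks are multiple -/
def AMul (k : ℕ) (B : ℕ → List ℕ) : Prop :=
  ∀ j ≤ k, ∀ c ∈ B j, 2 ≤ deg k (fun j => (B j).count c)

/-- restriction of a list to two letters -/
def rl (c d : ℕ) (l : List ℕ) : List ℕ := l.filter (fun x => decide (x = c ∨ x = d))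

/-- **NFS** (uses SGC).  Normal form for s2: types, the order of the first occurrences and the order of
the last occurrences determine the word.
PROOF.  Claim for lists `u, v, q` by induction on the length of `v`: if (1) for every letter `c` with
`NS k c` the lists `u, v` filtered to `c` and the simple letters `2..k+1` are equal (also filtered to
the simple letters only), (2) every simple letter occurs at most once in `u ++ q`, (3) every other
letter of `u` occurs at least twice in `u ++ q`, (4) for all `c, d` with `NS`, `c, d ∉ q`: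
`(rl c d u).getLast? = (rl c d v).getLast?`, (5) for all `c, d` with `NS`:
`(rl c d u).head? = (rl c d v).head?`, then `RR β (u ++ q) (v ++ q)`.  `v = []`: `u = []`.
`v = v' ++ [c]`.
(a) `c` simple: by (1) no letter occurs in `u` behind `c`: `u = u' ++ [c]`; induction with `q := c :: q`.
(b) `c` not simple: by (1) `u = u1 ++ c :: u2`, `c ∉ u2`, no simple letters in `u2`.  Move `c` to the right over
`u2`: let `u2 = w1 ++ d :: w2`, `p = u1 ++ w1`, the word is `p ++ c :: d :: (w2 ++ q)`.
 `c ∉ q`: then `c ∈ u1` (3).  If `d ∈ w2 ++ q`: SGC (1) (`c ∈ p`, `d` on the right).  Otherwise `c, d ∉ q` and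
 the last letter of `rl c d u` is `d`, that of `rl c d v` is `c`: contradiction to (4).
 `c ∈ q`: `d ∈ p`: SGC (1) for `d, c`, backwards.  `d ∉ p`, `c ∈ u1`: `d ∈ w2 ++ q` by (3): SGC (1).
 `d ∉ p`, `c ∉ u1`: `c` occurs once in `u`, hence once in `v`, at its end, and `d` occurs in `v` before it: the
 heads of `rl c d u` and `rl c d v` are `c` and `d`: contradiction to (5).
Induction for `u1 ++ u2`, `v'`, `c :: q`.  (5) for `e = c` and `f`: if the removed `c` is the head of
`rl c f u` or of `rl c f v`, then `c` occurs once in both, `rl c f v = [c]`, so `f` occurs in neither, and both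
restrictions are empty after the removal; otherwise the heads do not change.
The statement is the case `q = []`. -/
def NfsStmt : Prop :=
  ∀ β : FIC, MVD.Cc β → ∀ (k : ℕ) (B B' : ℕ → List ℕ), BlkOk k B → BlkOk k B' →
    (∀ j ≤ k, ∀ c, (B j).count c = (B' j).count c) → AMul k B →
    (∀ c d, NS k c → NS k d →
      (rl c d (asm k B)).head? = (rl c d (asm k B')).head? ∧
      (rl c d (asm k B)).getLast? = (rl c d (asm k B')).getLast?) →
      RR β (asm k B) (asm k B')

/-- **LCL** (uses SGC).  Two local letters of the same block commute in class Cc.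
PROOF.  `l` and `l'` are permutations of each other; it is enough to exchange two adjacent different
letters `x y` in `p ++ l1 ++ x :: y :: l2 ++ q` (bubble sort; every letter of `l` is `x` or `y`, both occur at
least twice in `l`, and not in `p, q`).  `x ∈ l1`, `y ∈ l2` or `y ∈ l1`, `x ∈ l2`: SGC (1).  Otherwise, if `x ∈ l1`:
`y ∉ l2`, so `y ∈ l1` (multiple), so `x ∉ l2`: `x` and `y` occur in `l1`: `Cob` in the left part (between them are
only letters `x, y`): SGC (3).  If `x ∉ l1`: `x ∈ l2`, so `y ∉ l1`, `y ∈ l2`: SGC (2). -/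
def LclStmt : Prop :=
  ∀ β : FIC, MVD.Cc β → ∀ (p q l l' : List ℕ) (x y : ℕ), l.Perm l' →
    (∀ z ∈ l, z = x ∨ z = y) → 2 ≤ l.count x → 2 ≤ l.count y →
      RR β (p ++ l ++ q) (p ++ l' ++ q)

/-- **GG2** (uses NFS, LCL).  Words with two multiple letters can be gathered in class Cc.
PROOF.  `X = []` or `[x]`: the blocks are powers of `x`, `D j = X`.  `X = [x, y]`: let `m` (`M`) be the first (last)
block in which a letter of `X` occurs.  `m = M`: both letters are local in block `m`: LCL.  `m < M`: for
`j < M` let `D j` be `[x, y]` if the head of `B j` is `x` and `[y, x]` else; for `j ≥ M` let `D j` be `[x, y]` if the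
last letter of `B j` is `y`, and `[y, x]` else.  The heads and last letters of `rl c d` of the two words
are equal (`c, d ∈ {x, y}`: only the blocks `m` and `M` matter; a block which contains only one of
the letters is a power): NFS. -/
def Gg2Stmt : Prop := ∀ β : FIC, MVD.Cc β → Gath2 β

/-- **RG2** (uses SGC, NFS).  `Rig` for class Cc.
PROOF.  Let `i` be a block `r ≤ k` with `a r, b r ≥ 1`, `a j = 0` or `b j = 0` for all `j ≠ r`, `j ≤ k`, if there is
one (it is unique), else `i = 0`.  It is enough to change `e` in one block `j ≠ i`, `j ≤ k`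
(`asm_congr` for `j > k`).  If `a j = 0` or `b j = 0`: equal words.  Otherwise (by the choice of `i`) there is
another block `l ≠ j`, `l ≤ k` with `a l, b l ≥ 1`: in block `j` every single exchange of `0` and `1` has a `Cob`
on the right (`l > j`) or on the left (`l < j`): SGC (2), (3).  (NFS is not needed; between the two letters
in block `l` there are only multiple letters.) -/
def Rg2Stmt : Prop := ∀ β : FIC, MVD.Cc β → Rig β

/-- gather the letter `c` at its first occurrence -/
def gF (c : ℕ) (L : List ℕ) : List ℕ :=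
  L.takeWhile (fun d => d ≠ c) ++ List.replicate (L.count c) c ++
    (L.dropWhile (fun d => d ≠ c)).filter (fun d => d ≠ c)

/-- gather the letter `c` at its last occurrence -/
def gL (c : ℕ) (L : List ℕ) : List ℕ := (gF c L.reverse).reverse

/-- gather the letter `c`, whose last block is `M`, in all blocks -/
def gA (c M : ℕ) (B : ℕ → List ℕ) : ℕ → List ℕ := fun j => if j < M then gF c (B j) else gL c (B j)

/-- **GLA** (uses SGC, NFS).  A non-local letter, or a local letter with at least three occurrences,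
can be gathered in all blocks.
PROOF.  Non-local: NFS.  The counts are the same, and also `rl d e` for `d, e ≠ c`.  `rl c d`: the part of the
word before the first `c` (which is in a block `< M`, where `gF` does not change the part before the
first `c`) and the part behind the last `c` (block `M`, `gL`) do not change; so head and last letter of
`rl c d` are the same.
Local, `E23d`, `deg ≥ 3`: only block `M` changes (if `c ∉ L` then `gF c L = gL c L = L`).  Every occurrence of `c`
which is not the last one goes to the right (the last but one first) until the next `c`: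
exchange `c d → d c` in `p ++ c :: d :: q`, `c ∈ q`, no simple letters up to this `c`, `d ≠ c`.  `d ∈ p`: SGC (1)
backwards.  `d ∉ p`: `d ∈ q` (multiple).  `c ∈ p`: SGC (1).  `c ∉ p`, `d ∉ p`: if `d` occurs in `q` in the same
block: `Cob` in `q`: SGC (2); otherwise `E23d` with `x := d`, `y := c` (the rest of the block contains `c`, and
`c` occurs neither in `p` nor behind the block). -/
def GlaStmt : Prop :=
  ∀ β : FIC, MVD.Cc β → ∀ (k : ℕ) (B : ℕ → List ℕ) (c M : ℕ), BlkOk k B → AMul k B → NS k c →
    M ≤ k → c ∈ B M → (∀ j ≤ k, M < j → c ∉ B j) →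
      ((∃ j < M, c ∈ B j) ∨ (MVD.E23d β ∧ 3 ≤ deg k (fun j => (B j).count c))) →
        RR β (asm k B) (asm k (gA c M B))

/-- **ALT** (uses GLA).  Change of the type of one letter.
PROOF.  Let `M` be the last block of `c` (`deg ≥ 3`).  GLA (if `c` is not local: first alternative, else the
second).  Every block of `gA c M B` has the form `P j ++ c^(n j) ++ Q j` with `n j = (B j).count c` and
`P j ++ Q j = (B j).filter (≠ c)` (for `gL`: reverse).  `rr_ins` for `L1 ω k n a'` with `h 0 = [c]`, `P`, `Q`:
`B1 j = P j ++ c^(a' j) ++ Q j`. -/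
def AltStmt : Prop :=
  ∀ ω : FIC, MVD.Cc ω → MVD.E23d ω → ∀ (k : ℕ) (B : ℕ → List ℕ) (c : ℕ) (a' : ℕ → ℕ),
    BlkOk k B → AMul k B → NS k c → 3 ≤ deg k (fun j => (B j).count c) →
      L1 ω k (fun j => (B j).count c) a' →
        ∃ B1 : ℕ → List ℕ, BlkOk k B1 ∧ RR ω (asm k B) (asm k B1) ∧
          (∀ j ≤ k, (B1 j).count c = a' j) ∧
          (∀ j ≤ k, (B1 j).filter (fun d => d ≠ c) = (B j).filter (fun d => d ≠ c))

/-- **SMD** (uses nothing).  Small letters keep their types.
PROOF.  Suppose `a j ≠ a' j` for some `j ≤ k`; then there is `l < k` with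
`s := ∑_{j ≤ l} a j ≠ s' := ∑_{j ≤ l} a' j`.  Push with `f j = 0` (`j ≤ l`), `1` (`j > l`):
`L1 ω 1 (s, 2-s) (s', 2-s')` (`FC.ofFIC`, `FC.push`).  Write `x t y` for words with one separator.
`{(2,0), (1,1)}`: `xxt ~ xtx`; times `yy`: `xtxyy ~ xxtyy`, and with `t ↦ tyy`: `xtyyx ~ xxtyy`: `IA`.
`{(1,1), (0,2)}`: symmetric, `IAd`: `yyxtx ~ yytxx ~ xyytx`.  `{(2,0), (0,2)}`: `xxt ~ txx` with
`x ↦ y, t ↦ x`: `yyx ~ xyy`, times `xt` from the left: `IA`. -/
def SmdStmt : Prop :=
  ∀ ω : FIC, ¬ MVD.IA ω → ¬ MVD.IAd ω → ∀ (k : ℕ) (a a' : ℕ → ℕ), deg k a = 2 → deg k a' = 2 →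
    L1 ω k a a' → ∀ j ≤ k, a j = a' j

/-- **ALB** (uses ALT, SMD).  All types can be adjusted.
PROOF.  Let `Y` be a list of letters `c` with `NS k c`.  Induction on `Y`: there is `B1` with `BlkOk k B1`,
`RR ω (asm k B) (asm k B1)`, `(B1 j).count c = (B' j).count c` for `c ∈ Y`, `(B1 j).count c = (B j).count c` for
`c ∉ Y` (`j ≤ k`).  New letter `c`: `deg = 0`: both vectors are 0 on `0..k`; `deg = 1`: impossible (`AMul`);
`deg = 2`: equal by SMD; `deg ≥ 3`: ALT for `B1` (`AMul` for `B1`: the degrees are the same as in `B`).  For `Y` =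
all letters of the blocks `0..k` of `B` all counts agree (letters not in `B` have degree 0 in `B'`; simple
letters do not occur, `BlkOk`). -/
def AlbStmt : Prop :=
  ∀ ω : FIC, MVD.Cc ω → MVD.E23d ω → ¬ MVD.IA ω → ¬ MVD.IAd ω →
    ∀ (k : ℕ) (B B' : ℕ → List ℕ), BlkOk k B → BlkOk k B' → AMul k B →
      (∀ c, deg k (fun j => (B j).count c) = deg k (fun j => (B' j).count c)) →
      (∀ c, NS k c → L1 ω k (fun j => (B j).count c) (fun j => (B' j).count c)) →
        ∃ B1 : ℕ → List ℕ, BlkOk k B1 ∧ RR ω (asm k B) (asm k B1) ∧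
          ∀ j ≤ k, ∀ c, (B1 j).count c = (B' j).count c

/-- the two letter data for an exchange: `C` is a family of blocks with the letters `x`, `y` and the
same counts as `B`, and the restriction of `asm k B` is `ω`-related to `asm k C` -/
structure TwoD (ω : FIC) (k : ℕ) (B C : ℕ → List ℕ) (x y : ℕ) : Prop where
  ok : BlkOk k C
  cnt : ∀ j ≤ k, (C j).count x = (B j).count x ∧ (C j).count y = (B j).count y
  two : ∀ j ≤ k, ∀ z ∈ C j, z = x ∨ z = y
  rel : RR ω (asm k (r2 x y B)) (asm k C)

/-- **FFX** (uses NFS, GLA).  Exchange of two first occurrences in context.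
PROOF.  `a j = (B j).count x`, `b j = (B j).count y`.  (1) Two letters: `W1` := blocks `x^(a j) y^(b j)`, `W2` := the
same with `y^(b i) x^(a i)` in block `i`.  `asm k (r2 x y B) ~ W1` and `asm k C ~ W2` by NFS (in the blocks
`j ≠ i` only one of the letters occurs; block `i` is the first block of both letters, its head is `x`
resp. `y`; the last block contains only one of the letters).  So `RR ω W1 W2`.
(2) Context: let `Mx, My > i` be the last blocks of `x, y`, `B1 = gA x Mx B`, `B2 = gA y My B1`: GLA twice.  Block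
`i` of `B2` is `P ++ x^(a i) ++ y^(b i) ++ Q'`, `Q'` = `Q` without `x, y`.  Blocks `j ≠ i`: at most one of the
two operations changes the block: it is `P j ++ x^(a j) ++ Q j` or `P j ++ y^(b j) ++ Q j`.  In the same way
for the word with `P ++ y :: x :: Q` (first gather `y`, then `x`): the same blocks `j ≠ i`, and
`P ++ y^(b i) ++ x^(a i) ++ Q'` in block `i`.  `rr_ins` for `RR ω W1 W2` (renamed: `rr_ins` with `h x = [x]`,
`h y = [y]`). -/
def FfxStmt : Prop :=
  ∀ ω : FIC, MVD.Cc ω → ∀ (k : ℕ) (B C : ℕ → List ℕ) (i : ℕ) (P Q : List ℕ) (x y : ℕ), i ≤ k →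
    BlkOk k B → AMul k B → x ≠ y → B i = P ++ x :: y :: Q → x ∉ P → y ∉ P →
      (∀ j < i, x ∉ B j ∧ y ∉ B j) → (∀ j ≤ k, j ≠ i → x ∉ B j ∨ y ∉ B j) →
      (∃ j ≤ k, i < j ∧ x ∈ B j) → (∃ j ≤ k, i < j ∧ y ∈ B j) →
      TwoD ω k B C x y → (C i).head? = some y →
        RR ω (asm k B) (asm k (Function.update B i (P ++ y :: x :: Q)))

/-- **LLX** (uses MRA, MRT, MRC, FFX).  Exchange of two last occurrences in context: mirror image of
FFX.
PROOF.  The statement for `ω` and `B` is the statement FFX for `mir ω` (`MVD.Cc (mir ω)` by MRC), `rvB k B`,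
`rvB k C`, block `k - i`, with the letters `y, x`: `(B i).reverse = Q.reverse ++ y :: x :: P.reverse`,
`(C i).reverse` has the head `x`.  MRA for `mir ω` and `mir (mir ω) = ω` (MRT) transfer the relations
(`rvB k (rvB k B) j = B j` for `j ≤ k`, `asm_congr`). -/
def LlxStmt : Prop :=
  ∀ ω : FIC, MVD.Cc ω → ∀ (k : ℕ) (B C : ℕ → List ℕ) (i : ℕ) (P Q : List ℕ) (x y : ℕ), i ≤ k →
    BlkOk k B → AMul k B → x ≠ y → B i = P ++ x :: y :: Q → x ∉ Q → y ∉ Q →
      (∀ j ≤ k, i < j → x ∉ B j ∧ y ∉ B j) → (∀ j ≤ k, j ≠ i → x ∉ B j ∨ y ∉ B j) →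
      (∃ j < i, x ∈ B j) → (∃ j < i, y ∈ B j) →
      TwoD ω k B C x y → (C i).getLast? = some x →
        RR ω (asm k B) (asm k (Function.update B i (P ++ y :: x :: Q)))

/-- `l` is local in block `i` with at least three occurrences, `n` has one occurrence in block `i` and
one occurrence in an earlier block -/
def LBig (k : ℕ) (B : ℕ → List ℕ) (i l n : ℕ) : Prop :=
  (∀ j ≤ k, j ≠ i → l ∉ B j) ∧ 3 ≤ (B i).count l ∧ (B i).count n = 1 ∧
    deg k (fun j => (B j).count n) = 2 ∧ ∃ j < i, n ∈ B j

/-- **LBX** (uses SGC, GLA).  Exchange of the last occurrences of a local letter with at least three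
occurrences and of a small non-local letter, in context.
PROOF.  `l` = the local letter, `n` = the other one, `s = (B i).count l ≥ 3`, `n` has one occurrence in block
`m < i` and one in block `i`.  Words with the two letters: `[n | .. ]` = `n` in block `m`.
(A) `x = l`, `y = n`: `r2 x y B` has the block `i` `l^s n`; `C i` ends with `l` and contains one `n`:
`C i = l^r n l^(s-r)`, `r < s`; `n` goes to the left over the `l`'s which are not last: SGC (1) (`n` in an earlier
block, `l` on the right): `C ~ [n | n l^s]`.  So `ω` contains `[n | l^s n] ~ [n | n l^s]`.  Context: GLA for `l`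
(`E23d`, local): block `i` becomes `P' ++ l^s ++ n :: Q` (`P'` = `P` without `l`), `rr_ins` (block `m`:
`B m = R ++ n :: R'`, `n ∉ R, R'`; blocks `j ≠ m, i`: `P j = B j`, `Q j = []`):
`~ P' ++ n :: l^s ++ Q`, and this is `gL l (P ++ n :: l :: Q)`: GLA backwards.
(B) `x = n`, `y = l`: `r2 x y B` has the block `i` `l^(s-1) n l ~ n l^s` (as above), `C i` ends with `n`, so
`C i = l^s n`.  Context: `gL l (P ++ n :: l :: Q) = P' ++ n :: l^s ++ Q`, `~ P' ++ l^s ++ n :: Q`, which is
`gL l (P ++ l :: n :: Q)`. -/
def LbxStmt : Prop :=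
  ∀ ω : FIC, MVD.Cc ω → MVD.E23d ω → ∀ (k : ℕ) (B C : ℕ → List ℕ) (i : ℕ) (P Q : List ℕ)
    (x y : ℕ), i ≤ k → BlkOk k B → AMul k B → x ≠ y → B i = P ++ x :: y :: Q → x ∉ Q → y ∉ Q →
      (∀ j ≤ k, i < j → x ∉ B j ∧ y ∉ B j) → (LBig k B i x y ∨ LBig k B i y x) →
      TwoD ω k B C x y → (C i).getLast? = some x →
        RR ω (asm k B) (asm k (Function.update B i (P ++ y :: x :: Q)))

/-- **SML** (uses SGC).  A small local letter and a small non-local letter are never exchanged.
PROOF.  First part: push the relation with `f j = 0` (`j ≤ i`), `1` (`j > i`) (`rr_push`): block 0 is `C i` resp.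
`C' i`, block 1 is `n`.  `C i` has the head `l`: `l n l` or `l l n`, and `l n l | n ~ l l n | n` by SGC (1)
(`l` on the left, `n` on the right).  `C' i` has the head `n`: `n l l`.  So `ω` contains
`l l n t n ~ n l l t n`: `IAd` (rename).  Second part: `f j = 0` (`j < i`), `1` (`j ≥ i`): block 0 is `n`,
`C i` ends with `l`: `n l l` or `l n l ~ n l l`; `C' i = l l n`: `n t n l l ~ n t l l n`: `IA`. -/
def SmlStmt : Prop :=
  ∀ ω : FIC, MVD.Cc ω → ∀ (k : ℕ) (C C' : ℕ → List ℕ) (i l n : ℕ), i ≤ k → BlkOk k C →
    BlkOk k C' → l ≠ n → NS k l → NS k n → (∀ j ≤ k, ∀ z ∈ C j, z = l ∨ z = n) →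
      (∀ j ≤ k, ∀ z ∈ C' j, z = l ∨ z = n) →
      (∀ j ≤ k, ∀ z, (C j).count z = (C' j).count z) → (C i).count l = 2 → (C i).count n = 1 →
      (∀ j ≤ k, j ≠ i → l ∉ C j) → deg k (fun j => (C j).count n) = 2 →
      RR ω (asm k C) (asm k C') →
        (¬ MVD.IAd ω → (∃ j ≤ k, i < j ∧ n ∈ C j) →
          ¬ ((C i).head? = some l ∧ (C' i).head? = some n)) ∧
        (¬ MVD.IA ω → (∃ j < i, n ∈ C j) →
          ¬ ((C i).getLast? = some l ∧ (C' i).getLast? = some n))

/-- exchange of two adjacent letters whose occurrences are in the other order in `l'` -/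
def ExchL (l' l1 l2 : List ℕ) : Prop :=
  ∃ (A B : List ℕ) (x y : ℕ), x ≠ y ∧ l1 = A ++ x :: y :: B ∧ l2 = A ++ y :: x :: B ∧
    ∃ P Q : List ℕ, l' = P ++ y :: Q ∧ P.count y = A.count y ∧ P.count x ≤ A.count x

/-- **BUL** (uses nothing).  Bubble sort for lists with repetitions.
PROOF.  Induction on `l'` with `l` general.  `l' = z :: l''`: `l = A ++ z :: B` with `z ∉ A` (first occurrence).  `z` goes
to the left over the letters of `A`: exchange of `a` and `z` in `A1 ++ a :: z :: (..)`: `P = []`, `Q = l''`:
`P.count z = 0 = A1.count z`, `P.count a = 0`.  Now `z :: (A ++ B)`, `(A ++ B).Perm l''`, induction, and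
`ExchL l'' m m'` implies `ExchL (z :: l'') (z :: m) (z :: m')` (put `z` in front of `A` and `P`;
`Relation.ReflTransGen.lift`). -/
def BulStmt : Prop := ∀ l l' : List ℕ, l.Perm l' → Relation.ReflTransGen (ExchL l') l l'

/-- **SRT** (uses SGC, FFX, LLX, LBX, SML, BUL).  Sorting.
PROOF.  Induction on `s ≤ k + 1`: `RR ω (asm k B) (asm k (fun j => if j < s then B' j else B j))`.  Step: block
`i = s`; BUL for `l = B i`, `l' = B' i` (`List.perm_iff_count`); let `D` be the family with `D j = B' j` (`j < i`),
`D i` = the current list, `D j = B j` (`j > i`); we know `RR ω (asm k B) (asm k D)`; `D` has the same counts as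
`B`.  Exchange step: `D i = A ++ x :: y :: A'`, `x ≠ y`, `B' i = P' ++ y :: Q'`, `P'.count y = A.count y`,
`P'.count x ≤ A.count x`.  Claim: `RR ω (asm k D) (asm k (update D i (A ++ y :: x :: A')))`.
Let `p = pre D i ++ A`, `q = A' ++ suf D i (k-i)` (`asm_split`); membership in `p`, `q`: `mem_pre`, `mem_suf`.
`TwoD ω k D C x y` holds for `C = r2 x y B'` (filter the relation between `asm k D` and `asm k B`, then the
hypothesis for `B, B'`).
(s) `x ∈ p, y ∈ q` or `y ∈ p, x ∈ q`: SGC (1).  Otherwise: either `x, y ∉ p` and `x, y ∈ q` (FF) or `x, y ∉ q` and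
`x, y ∈ p` (LL) (both letters are multiple).
(FF) `P'.count y = P'.count x = 0`, so `(C i).head? = some y`; `(r2 x y D) i` has the head `x`.
 (F1) `x` and `y` both occur in `A'`, or both in one block `j > i`: `Cob` in `q` (`suf_split`): SGC (2).
 (F2) `x ∈ A'`, `y ∉ A'`, `x` in no block `j > i`: `x` is local in block `i`, `y` is not.  If `x` has `≥ 3`
 occurrences: `E23d` (local letter `x`, other letter `y`); if `y` has `≥ 3`: `E32d`.  Both 2: block `i` of
 `r2 x y D` is `x y x`, SML (first part, `l = x`, `n = y`) for `r2 x y D` and `C`: contradiction.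
 (F3) the same with `x`, `y` exchanged (`y` local): `E23d`, `E32d` (backwards), or SML for `C` and
 `r2 x y D` (`l = y`, `n = x`).
 (F4) both `x` and `y` occur in blocks `> i`, never in the same one, and not both in `A'`: FFX.
(If `x` is in `A'` and also in a block `j > i`, then `y ∉ A'` by (F1), and `y` is in a block `> i`: (F4).)
(LL) `C i` has the last letter `x`: `(B' i).count y = (D i).count y = A.count y + 1` (`y ∉ A'`), so this `y` is
 the last one of `B' i`, and `Q'` contains `x` because `P'.count x ≤ A.count x < (B' i).count x`.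
 (L1) `x, y ∈ A` or both in one block `j < i`: `Cob` in `p` (`pre_split`): SGC (3).  (L2) `x` local in block `i`
 (`x ∈ A`), `y ∉ A`, `y` has an occurrence in a block `< i`: `y` has `≥ 3` occurrences: `E32`; `y` has 2 and `x` has
 `≥ 3`: LBX; both 2: `(r2 x y D) i = x x y` and `C i` ends with `x`: SML (second part with `l = x`, `n = y`, `C := C`,
 `C' := r2 x y D`).  (L3) `y` local, `x` not: the same (`E32`; LBX; SML with `l = y`, `n = x`).  (L4) both in blocks
 `< i`: LLX.
For `E32` etc. the local letter must occur in the part `c` of the axiom: take for `c` the part of block `i`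
in front of (behind) the pair; `Mult` by `AMul` and `count_asm`. -/
def SrtStmt : Prop :=
  ∀ ω : FIC, ClC3 ω → ¬ MVD.IA ω → ¬ MVD.IAd ω → ∀ (k : ℕ) (B B' : ℕ → List ℕ), BlkOk k B →
    BlkOk k B' → AMul k B → (∀ j ≤ k, ∀ c, (B j).count c = (B' j).count c) →
      (∀ x y, RR ω (asm k (r2 x y B)) (asm k (r2 x y B'))) → RR ω (asm k B) (asm k B')

/-- **DT3** (uses ALB, SRT).  PROOF.  `L1 ω k (n · c) (n' · c)` for every `c` with `NS k c` (the hypothesis for
`x = y = c`, renamed: `rr_sub`).  ALB gives `B1` with `RR ω (asm k B) (asm k B1)` and the counts of `B'`.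
The restrictions of `B1` and `B'` are related (filter, `asm_filter`; if `x` or `y` is a simple letter, the
restriction to `x, y` is the restriction to the other one, `BlkOk`).  SRT for `B1`, `B'`. -/
def Dt3Stmt : Prop := ∀ ω : FIC, ClC3 ω → ¬ MVD.IA ω → ¬ MVD.IAd ω → DetAt ω

/-- **DTG** (uses BUB, ALN).  PROOF.  Let `X` be the list of the letters of the blocks of `B` (without
repetitions).  `Gath ω`: `asm k B ~ gw k n D`, `asm k B' ~ gw k n' D'` (`n j c = (B j).count c`, ..; the letters of
`B'` are in `X`, same degrees).  The hypothesis for `x = y = c` gives `L1 ω k (n · c) (n' · c)`; ALN for all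
letters of `X` (one after the other): `gw k n D ~ gw k n' D` in `ω` (letters outside `X` do not matter).
Now sort the blocks `i = 0, 1, ..` of `D` into those of `D'` with BUB: `D i = A ++ x :: y :: A'`, `y` before `x` in
`D' i`.  The restrictions to `x, y` of the two gathered words are related in `ω` and are (renamed
`x, y ↦ 0, 1`) `w2 k a b e`, `w2 k a b e'` with `e i = false`, `e' i = true`.  `Rig ω`, index `r`: if `r ≠ i` then
all `Ex ω k a b e'' i` hold; if `r = i`: `Ex ω k a b e i` (`w2 e' ~ w2 (flp e i)` by `Rig`), and then for all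
`e''` (`e''` or `flp e'' i` agrees with `e` at `i`).  `SW ω` (for `ω` itself) gives the exchange; the new word
is `ω`-related to the old one, so the hypothesis on the restrictions is preserved. -/
def DtgStmt : Prop := ∀ ω : FIC, Gath ω → Rig ω → SW ω → DetAt ω

/-- **DET** (uses GAC, RGC, SWC, MRC, MRD, DT3, DTG).  PROOF.  `ω ≥ β`: `ClC3 ω`.  `IA ω`: `ClC1 ω`, so `Gath ω`,
`Rig ω`, `SW ω`, DTG.  `IAd ω`: `mir ω` is in `ClC1` (MRC), DTG for `mir ω`, MRD.  Otherwise DT3. -/
def DetStmt : Prop := ∀ β : FIC, ClC3 β → Det β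

end Pool.Agent.MVO
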