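import Pool.Agent.MVO.StmtsC
import Pool.Agent.MVO.StmtsN

/-!
# Squad MVO, block V: class Va (MP_23468a_al)

Class Va is `MVD.Ve` (file `MVD/Defs.lean`): F1L (`MVD.F1L`): an occurrence of `y` which is followed by
another `y` IN THE SAME BLOCK commutes with every adjacent multiple letter
(`p y x c y q ≈ p x y c y q`), and `MVD.FF`, `MVD.ZZ`: adjacent `x, y` commute if some other block (or
another place of the same block) contains both of them.
So every block can be gathered: each letter stands at its LAST occurrence in the block, and two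
letters `x, y` with the types `a, b` are rigid in block `i` (`VR`) only if `i` is the only block which
contains both and `a i = 1` or `b i = 1`.

Every row: file `Pool/Agent/HelperNN_MVO/XXX.lean`, import `Pool.Agent.MVO.StmtsV`, theorem
`xxx (hypotheses = rows in uses, in this order) : XxxStmt`.  Read `Defs.lean`, `Basic.lean`,
`Push.lean`, `Split.lean` first; `Bt ρ k a b i` (StmtsA) are all exchanges of the types `a`, `b` in
block `i`; `Cob` is defined in StmtsC.  Notation: `x^m` is `List.replicate m x`, `e_j` is the unit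
vector, `sg j d` is `d e_j`; a set stands for the types with this support; `x`, `y` are the letters
0, 1 of `w2`.
-/

namespace Pool.Agent.MVO

open Pool.Agent.Helper14_MV Pool.Agent.Helper2_MV

/-! ### gathering -/

/-- **MVV** (uses nothing).  An occurrence moves to the next occurrence of the same letter in its
block.
PROOF.  Induction on `u`, for all `p`.  `u = []`: equal.  `u = c :: u'`: if `c = y` the induction
hypothesis for `p ++ [y]`.  If `c ≠ y`: F1L with `x := c`, `c := u'`: `c` occurs at least twice in the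
whole word, so also in `p ++ (u' ++ q)`; then the induction hypothesis for `p ++ [c]` (the whole word
is permuted only, the counts are the same). -/
def MvvStmt : Prop :=
  ∀ β : FIC, MVD.F1L β → ∀ (u p q : List ℕ) (y : ℕ),
    (∀ c ∈ u, 2 ≤ (p ++ y :: (u ++ y :: q)).count c) →
      RR β (p ++ y :: (u ++ y :: q)) (p ++ (u ++ y :: y :: q))

/-- **GBV** (uses MVV).  Every block is gathered at the last occurrences in the block (`List.dedup`
keeps the last occurrences).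
PROOF.  Induction on `L`, for all `p`.  `L = y :: L'`; the induction hypothesis for `L'` and
`p ++ [y]`: `p y L' q ~ p y G' q`, `G' = gb (count · L') L'.dedup`.  If `y ∉ L'`: `L.dedup = y :: L'.dedup`
and `y^1` is the first part of the new word (the other counts do not change).  If `y ∈ L'`:
`L.dedup = L'.dedup = Z1 ++ y :: Z2`, `G' = gb Z1 ++ y^c ++ gb Z2`, `c ≥ 1` (`y ∉ Z1, Z2`); by MVV the
first `y` moves over `gb Z1` to the first letter of `y^c`. -/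
def GbvStmt : Prop :=
  ∀ β : FIC, MVD.F1L β → ∀ L p q : List ℕ, (∀ c ∈ L, 2 ≤ (p ++ L ++ q).count c) →
    RR β (p ++ L ++ q) (p ++ gb (fun c => L.count c) L.dedup ++ q)

/-- **GAV** (uses GBV).  PROOF.  As GAC (StmtsC), with the explicit order: `D j := X.filter (· ∉ B j) ++
(B j).dedup` for `j ≤ k` (a permutation of `X`; the letters which do not occur have the exponent 0 and
contribute nothing), `D j := X` for `j > k`.  Induction on `s ≤ k + 1`: the blocks `j < s` are gathered;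
step: block `s` in its context (`asm_split`, `asm_update`) by GBV (all letters of the blocks are
multiple in the word, because the counts in the blocks do not change). -/
def GavStmt : Prop := ∀ β : FIC, MVD.F1L β → Gath β

/-- **GLV** (uses GBV).  Two letter words: the gathered word remembers the last letters of the blocks.
PROOF.  As GAV, for words with the letters 0, 1: block `j` becomes `bl (count 0) (count 1) (e j)`:
`(B j).dedup` is `[]`, `[0]`, `[1]`, `[0, 1]` (last letter 1, `e j = false`) or `[1, 0]` (last letter 0,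
`e j = true`). -/
def GlvStmt : Prop :=
  ∀ β : FIC, MVD.F1L β → ∀ (k : ℕ) (B : ℕ → List ℕ) (e : ℕ → Bool),
    (∀ j ≤ k, ∀ c ∈ B j, c = 0 ∨ c = 1) → 2 ≤ deg k (fun j => (B j).count 0) →
      2 ≤ deg k (fun j => (B j).count 1) →
      (∀ j ≤ k, 0 ∈ B j → 1 ∈ B j → (e j = false ↔ (B j).getLast? = some 1)) →
        RR β (asm k B) (w2 k (fun j => (B j).count 0) (fun j => (B j).count 1) e)

/-! ### exchanges -/

/-- **SGV** (uses nothing).  Single exchanges (compare SGC).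
PROOF.  The axiom FF with `q = l1 ++ x :: (c ++ y :: l2)`; if `q = l1 ++ y :: (c ++ x :: l2)`: FF for
`y, x`, read backwards (the counts of the two words are the same).  The same for ZZ. -/
def SgvStmt : Prop :=
  ∀ β : FIC, MVD.FF β → MVD.ZZ β → ∀ (p q : List ℕ) (x y : ℕ),
    (Cob (p ++ x :: y :: q) q x y ∨ Cob (p ++ x :: y :: q) q y x ∨
      Cob (p ++ x :: y :: q) p x y ∨ Cob (p ++ x :: y :: q) p y x) →
      RR β (p ++ x :: y :: q) (p ++ y :: x :: q)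

/-- **PWV** (uses MVV, SGV).  Exchange of powers in class Va.
PROOF.  All words which occur are permutations of `w`.  `a = 0` or `b = 0`: trivial.
(1) A `Cob` in `p` or in `q`: it is still there for every single exchange (`p'` begins with `p`, `q'`
ends with `q`, the counts are the same): SGV, `a b` times.
(2) `2 ≤ a`, `2 ≤ b`: `x^a y^b = x^a y^(b-1) y ~ y^(b-1) x^a y` (each of the first `b-1` letters `y` is
followed by a `y` in the block: F1L backwards; or MVV backwards), `= y^(b-1) x^(a-1) x y`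
`~ y^(b-1) x^(a-1) y x` by SGV (`y .. x` in `y^(b-1) x^(a-1)` is a `Cob` of the left part: between
adjacent ones nothing), `~ y^(b-1) y x^(a-1) x` (each of the `a-1` letters `x` is followed by `x`:
F1L or MVV). -/
def PwvStmt : Prop :=
  ∀ β : FIC, MVD.Ve β → ∀ (p q : List ℕ) (x y a b : ℕ) (w : List ℕ), x ≠ y →
    w = p ++ List.replicate a x ++ List.replicate b y ++ q →
    ((2 ≤ a ∧ 2 ≤ b) ∨ Cob w p x y ∨ Cob w p y x ∨ Cob w q x y ∨ Cob w q y x) →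
      RR β w (p ++ List.replicate b y ++ List.replicate a x ++ q)

/-- `i` is the only block which contains both letters, and one of them is there only once -/
def VR (k : ℕ) (a b : ℕ → ℕ) (i : ℕ) : Prop :=
  (∀ j ≤ k, j ≠ i → a j = 0 ∨ b j = 0) ∧ 1 ≤ a i ∧ 1 ≤ b i ∧ (a i = 1 ∨ b i = 1)

/-- **EXV** (uses PWV).  The free exchanges in gathered words (compare EXC).
PROOF.  `asm_split`, `asm_update`: the word is `p ++ x^a ++ y^b ++ q` with `a = n i x`, `b = n i y`,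
`p = pre .. i ++ gb (n i) A`, `q = gb (n i) B ++ suf .. i (k-i)`; `x ≠ y`.  `a = 0` or `b = 0`: equal words.
`2 ≤ a`, `2 ≤ b`: PWV.  Otherwise `n j x, n j y ≥ 1` for some `j ≠ i`, `j ≤ k` (not `VR`): a `Cob` in `p`
(`j < i`) or in `q` (`pre_split`, `suf_split`; between the two letters in the gathered block `j` there
are only letters of `X`, which are multiple: `count_asm`, `GData.mult`): PWV. -/
def ExvStmt : Prop :=
  ∀ β : FIC, MVD.Ve β → ∀ (k : ℕ) (X : List ℕ) (n : ℕ → ℕ → ℕ) (D : ℕ → List ℕ), GData k X n D →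
    ∀ i ≤ k, ∀ (A B : List ℕ) (x y : ℕ), D i = A ++ x :: y :: B →
      ¬ VR k (fun j => n j x) (fun j => n j y) i →
        RR β (gw k n D) (gw k n (Function.update D i (A ++ y :: x :: B)))

/-- **RGV** (uses EXV).  PROOF.  As RGC: if `VR k a b r` for some `r ≤ k` take `i := r` (then `VR` fails in
all other blocks), otherwise `i := 0`.  The words for `e`, `e'` with `e i = e' i` are connected by
exchanges in blocks `j ≠ i`, `j ≤ k` in which `VR` fails (if there is no `r` it fails everywhere). -/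
def RgvStmt : Prop := ∀ β : FIC, MVD.Ve β → Rig β

/-- **SWV** (uses EXV).  PROOF.  As SWC: if `VR` fails for the types of `x`, `y` in block `i`: EXV and
`β ≤ ω`.  Otherwise `n j x = 0` or `n j y = 0` for all `j ≠ i`, `j ≤ k`:
`Ex ω k (n · x) (n · y) (fun _ => false) i` and `rr_ins` with `h 0 = [x]`, `h 1 = [y]`,
`P i = gb (n i) A`, `Q i = gb (n i) B`; for `j ≠ i` with `c` the one of `x, y` with `n j c ≠ 0` (or `x`) and
`D j = Z1 ++ c :: Z2`: `P j = gb (n j) Z1`, `Q j = gb (n j) Z2`. -/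
def SwvStmt : Prop := ∀ β : FIC, MVD.Ve β → SW β

/-- the blocks `i` and `i + 1` joined, with the word `M` between them -/
def mrg (i : ℕ) (M : List ℕ) (B : ℕ → List ℕ) : ℕ → List ℕ :=
  fun j => if j < i then B j else if j = i then B i ++ M ++ B (i + 1) else B (j + 1)

/-- **MRG** (uses nothing).  Substitution of the simple letter `i + 2` by `M`.
PROOF.  The substitution `σ`: `[c]` if `c ≤ i + 1` or `NS (k+1) c`, `M` if `c = i + 2`, `[c - 1]` if
`i + 3 ≤ c ≤ k + 2`.  Claim: `(asm (k+1) B).flatMap σ = asm k (mrg i M B)`.  By induction on `m`: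
`(asm m B).flatMap σ = asm m B` for `m ≤ i`, and `= asm (m-1) (mrg i M B)` for `i + 1 ≤ m ≤ k + 1`;
`m = i + 1`: `asm i B ++ M ++ B (i+1)` (`asm_append_last`).  Then `RR.sub`. -/
def MrgStmt : Prop :=
  ∀ (ω : FIC) (k i : ℕ) (M : List ℕ) (B B' : ℕ → List ℕ), i ≤ k → BlkOk (k + 1) B →
    BlkOk (k + 1) B' → RR ω (asm (k + 1) B) (asm (k + 1) B') →
      RR ω (asm k (mrg i M B)) (asm k (mrg i M B'))

/-- an empty block is inserted behind block `i` -/
def spl (i : ℕ) (a : ℕ → ℕ) : ℕ → ℕ := fun j => if j ≤ i then a j else if j = i + 1 then 0 else a (j - 1)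

/-- **FV1** (uses EXV).  The simple rules of the calculus in class Va.
PROOF.  (V0) EXV for the two letter words: `w2 k a b e` is `gw k n D` for `X = [0, 1]`, `n j 0 = a j`,
`n j 1 = b j`, `D j = [0, 1]` if `e j = false`, `[1, 0]` if `e j = true` (as in RGV).  (V2) for every `e`:
`w2 k a b e ~ w2 k a' b e` in `ρ`: `rr_ins` for `mw k a ~ mw k a'` with the powers of `y` as `P j` if `e j`, as
`Q j` if not (as FAA (F2)).  (V5) exchange the letters 0 and 1: `bl p q e` becomes `bl q p (!e)`. -/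
def Fv1Stmt : Prop :=
  ∀ ρ : FIC, MVD.Ve ρ →
    (∀ (k : ℕ) (a b : ℕ → ℕ) (i : ℕ), 2 ≤ deg k a → 2 ≤ deg k b → i ≤ k → ¬ VR k a b i →
      Bt ρ k a b i) ∧
    (∀ (k : ℕ) (a a' b : ℕ → ℕ) (i : ℕ), L1 ρ k a a' → Bt ρ k a' b i → Bt ρ k a b i) ∧
    (∀ (k : ℕ) (a b : ℕ → ℕ) (i : ℕ), Bt ρ k a b i → Bt ρ k b a i)

/-- **FV4** (uses GLV, FV1).  Domination: push and add.
PROOF.  If `VR k' a' b' (f i)` fails: (V0) (`deg k' a' ≥ deg k a ≥ 2`, also for `b`).  Let it hold: in the blocks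
`j ≠ f i` only one of `a' j`, `b' j` is not 0.  Given `e'` (with `e' (f i) = false`; the other case by
`RR.symm`), `rr_push` for `w2 k a b e`, `w2 k a b (flp e i)`, `e i = false`, then `rr_ins'` with
`P j := 0^(a' j - psh k f a j) ++ 1^(b' j - psh k f b j)`, `Q j := []`.  In the blocks `j ≠ f i` both words
have the same power of one letter, as in `w2 k' a' b' e'`.  Block `f i`: the parts of the blocks
`l > i` with `f l = f i` are empty; so it is `Z ++ 0^(a i) 1^(b i)` resp. `Z ++ 1^(b i) 0^(a i)` with the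
same word `Z` in 0, 1, and `a i, b i ≥ 1`: last letter 1 resp. 0.  GLV for both words:
`~ w2 k' a' b' e'` and `~ w2 k' a' b' (flp e' (f i))`. -/
def Fv4Stmt : Prop :=
  ∀ ρ : FIC, MVD.Ve ρ → ∀ (k k' : ℕ) (f : ℕ → ℕ) (a b a' b' : ℕ → ℕ) (i : ℕ), BMap k k' f → i ≤ k →
    1 ≤ a i → 1 ≤ b i → 2 ≤ deg k a → 2 ≤ deg k b →
      (∀ l ≤ k, i < l → f l = f i → a l = 0 ∧ b l = 0) →
      (∀ j ≤ k', psh k f a j ≤ a' j) → (∀ j ≤ k', psh k f b j ≤ b' j) → Bt ρ k a b i →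
        Bt ρ k' a' b' (f i)

/-- **FV6** (uses GLV, MRG, FV1).  Splitting of block `i` at the point of `y`.
PROOF.  Let `e i = false` (the other case by `RR.symm`, `flp (flp e i) i = e`).
(1) `rr_ins` for `mw (k+1) (spl i a) ~ mw (k+1) a''` (`h 0 = [0]`): for `j < i`: `P j = 1^(b j)`, `Q j = []` if
`e j`, `P j = []`, `Q j = 1^(b j)` if not; for `j > i + 1` the same with `b (j-1)`, `e (j-1)`; nothing for
`j = i, i + 1`.  (2) MRG with `M = 1^(b i)`: the first word becomes `w2 k a b e` (block `i`: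
`0^(a i) ++ 1^(b i) ++ []`); in the second word block `i` is `0^(a'' i) ++ 1^(b i) ++ 0^(a'' (i+1))`, last
letter 0; the other blocks are `bl (a'' j) (b j) (e j)`, `j < i`, and `bl (a'' (j+1)) (b j) (e j)`, `j > i`.
(3) GLV: the second word is `~ w2 k a* b (flp e i)` with `a* j = a'' j` (`j < i`), `a'' i + a'' (i+1)`
(`j = i`), `a'' (j+1)` (`j > i`) (if `b i = 0` the claim is trivial).  (4) MRG with `M = []` for
`mw (k+1) (spl i a) ~ mw (k+1) a''`: `L1 ρ k a a*`.  (V2)'s argument: `w2 k a* b (flp e i) ~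
w2 k a b (flp e i)`. -/
def Fv6Stmt : Prop :=
  ∀ ρ : FIC, MVD.Ve ρ → ∀ (k i : ℕ) (a a'' b : ℕ → ℕ), i ≤ k → 2 ≤ deg k b → 2 ≤ deg k a →
    2 ≤ deg (k + 1) a'' → L1 ρ (k + 1) (spl i a) a'' → 1 ≤ a'' (i + 1) → Bt ρ k a b i

/-- **FV7** (uses FV1, FV6).  Local types.
PROOF.  `i ≠ p`: `sg p d` vanishes in block `i`: (V0).  `i = p`: push `(d,0) ~ (s,t)` with `0 ↦ p`, `1 ↦ p+1`
into the blocks `0..k+1` (`FC.push`): `L1 ρ (k+1) (sg p d) a''`, `a'' = s e_p + t e_(p+1)`, and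
`spl p (sg p d) = sg p d` (`FC.ext`): FV6. -/
def Fv7Stmt : Prop :=
  ∀ ρ : FIC, MVD.Ve ρ → ∀ (k p d s t : ℕ) (b : ℕ → ℕ) (i : ℕ), p ≤ k → i ≤ k → 2 ≤ d → s + t = d →
    1 ≤ t → 2 ≤ deg k b → L1 ρ 1 (v2 d 0) (v2 s t) → Bt ρ k (sg p d) b i

/-! ### the clauses and tightness -/

/-- b5: `[xxxy][y]` -/
def Vb5 (β : FIC) : Prop := Bt β 1 (v2 3 0) (v2 1 1) 0
/-- b3: `[y][xx][xy]` -/
def Vb3 (β : FIC) : Prop := Bt β 2 (v3 0 2 1) (v3 1 0 1) 2
/-- b4 = c4: `[xx][xy][y]` -/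
def Vb4 (β : FIC) : Prop := Bt β 2 (v3 2 1 0) (v3 0 1 1) 1
/-- c1: `[xxy][x][y]` -/
def Vc1 (β : FIC) : Prop := Bt β 2 (v3 2 1 0) (v3 1 0 1) 0
/-- c2: `[xxy][y][x]` -/
def Vc2 (β : FIC) : Prop := Bt β 2 (v3 2 0 1) (v3 1 1 0) 0
/-- c3: `[xx][y][xy]` -/
def Vc3 (β : FIC) : Prop := Bt β 2 (v3 2 0 1) (v3 0 1 1) 2
/-- d1: `[y][xy][xx]` -/
def Vd1 (β : FIC) : Prop := Bt β 2 (v3 0 1 2) (v3 1 1 0) 1
/-- d2: `[xy][y][xx]` -/
def Vd2 (β : FIC) : Prop := Bt β 2 (v3 1 0 2) (v3 1 1 0) 0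

/-- the clauses of class Va over `O1` -/
def ClauseV1 (β : FIC) : Prop :=
  (O2 (FC.ofFIC β) ∨ Vb5 β) ∧ (II (FC.ofFIC β) ∨ (Vb3 β ∧ Vb4 β))
/-- the clauses of class Va over `O2` -/
def ClauseV2 (β : FIC) : Prop :=
  (O1 (FC.ofFIC β) ∨ Vb5 β) ∧ (JJ (FC.ofFIC β) ∨ (Vc1 β ∧ Vc2 β ∧ Vc3 β ∧ Vb4 β))
/-- the clauses of class Va over `O3` -/
def ClauseV3 (β : FIC) : Prop := JJd (FC.ofFIC β) ∨ (Vd1 β ∧ Vd2 β)

/-- **T2V** (uses OAR, FV1, FV7).  Tightness in degree 2.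
PROOF.  `S = sp k a`, `S' = sp k a'`, of size 1 or 2, `S ≠ S'`; OAR (degree 2).
(1) `max S ≠ max S'`: if both have size 1: `CP ρ 2`, so `(2,0) ~ (0,2)` and `a = sg p 2`: FV7 (`s = 0`,
`t = 2`).  Otherwise `AP ρ 2`: `(2,0) ~ (1,1)`, and `a ~ρ sg p 2`, `p = min S`: (V2), FV7.
(2) `max S = max S' = ℓ`: `min S ≠ min S'`, not both of size 1: `BP ρ 2`: `a ~ρ sg ℓ 2 ~ρ e_j + e_ℓ` for all
`j < ℓ`.  `i ≠ ℓ`: (V0) for `sg ℓ 2`, (V2).  `i = ℓ`: if `b j ≥ 1` for some `j < ℓ`: (V0) for `e_j + e_ℓ` (two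
common blocks).  If `b ℓ ≥ 2`: (V0) for `sg ℓ 2`.  `b ℓ = 0`: (V0).  Otherwise `b ℓ = 1` and `b j ≥ 1` for some
`j > ℓ`, `j ≤ k`: `b ~ρ b - e_ℓ + e_j` (`BP ρ 2`: `(1,1) ~ (0,2)`, push with `0 ↦ ℓ, 1 ↦ j`, add the rest),
this type vanishes at `ℓ`: (V0), (V5), (V2), (V5). -/
def T2vStmt : Prop :=
  ∀ ρ : FIC, MVD.Ve ρ → ∀ (k : ℕ) (a a' b : ℕ → ℕ) (i : ℕ), deg k a = 2 → deg k a' = 2 →
    2 ≤ deg k b → i ≤ k → L1 ρ k a a' → sp k a ≠ sp k a' → Bt ρ k a b i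

/-- **TVA** (uses OAA, OAR, FV1, FV4, FV6, FV7, T2V).  Tightness of class Va over `O1`.
PROOF.  `ρ ≥ β`, `L1 ρ k a a'`, `d = deg k a = deg k a' ≥ 2`, not `L1 β k a a'`; `b`, `i` given; `S`, `S'` the
supports, `S ≠ S'` (OAA for `β`).  `d = 2`: T2V.  Let `d ≥ 3`, `N := max |S| |S'|`; OAR for `ρ`: `IP ρ N d`.
We may assume `a i, b i ≥ 1` ((V0)).
(1) `max S ≠ max S'`.  If both have size 1: `CP ρ d`: `(d,0) ~ (0,d)`, `a` is some `sg p d`: FV7.  Otherwise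
`AP ρ d`: `(d,0) ~ (d-1,1)`, and with `p = min S`: `a ~ρ sg p d` (`IP` reduces `S` to its ends, then `AP`):
(V2), FV7.
(2) `max S = max S' = ℓ`, `min S ≠ min S'` (so not both of size 1): `BP ρ d`: `a ~ρ sg ℓ d` and
`sg ℓ d ~ρ e_j + (d-1) e_ℓ` for `j < ℓ`.  `i ≠ ℓ`: (V0), (V2).  `i = ℓ`: if `b j ≥ 1` for some `j < ℓ`: (V0) for
`e_j + (d-1) e_ℓ`.  If `b ℓ ≥ 2`: (V0) for `sg ℓ d`.  Otherwise `b ℓ = 1` and `b j ≥ 1` for some `j > ℓ`.
Claim `Vb5 β`: if not, the first clause gives `O2 β`, so `BP β d` (push and add `(1,2) ~ (0,3)`, OAA); as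
`L1 β k a a'` fails, `IP β N d` fails, hence `II` fails in `β` (it gives `IP β m d` for all `m`, as in TAA (1)),
so `Vb4 β`, and FV4 with `0, 1 ↦ 0, 2 ↦ 1` gives `Vb5 β`.  FV4 for `Vb5` with `0 ↦ ℓ, 1 ↦ j`:
`Bt ρ k (sg ℓ d) b ℓ`, (V2).
(3) Same minimum `p` and same maximum `ℓ`: then `p < ℓ`, `N ≥ 3`, and `II` is not in `β` (otherwise
`IP β N d` and `L1 β k a a'`), so `Vb3 β`, `Vb4 β`.
 `p < i < ℓ`: `a ~ρ e_p + (d-1) e_ℓ` (`IP`) vanishes at `i`.
 `i = p`: FV6: in the blocks `0..k+1` the vector `spl p a` has the ends `p`, `ℓ + 1` and `|S| ≤ N` blocks, so by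
 `IP ρ N d` it is related to `a'' = e_p + e_(p+1) + (d-2) e_(ℓ+1)` (size `3 ≤ N`).
 `i = ℓ`: `b j ≥ 1` for some `p ≤ j < ℓ`: (V0) for a vector with the support `{p, j, ℓ}`.  `b ℓ ≥ 2`: (V0) for
 `e_p + (d-1) e_ℓ`.  Otherwise `b ℓ = 1`, `b j ≥ 1` for some `j < p` (`Vb3`, FV4 with `0 ↦ j, 1 ↦ p, 2 ↦ ℓ`)
 or `j > ℓ` (`Vb4`, FV4 with `0 ↦ p, 1 ↦ ℓ, 2 ↦ j`): `Bt ρ k ((d-1) e_p + e_ℓ) b ℓ`, (V2). -/
def TvaStmt : Prop :=
  ∀ β : FIC, MVD.Ve β → O1 (FC.ofFIC β) → ClauseV1 β → Tight β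

/-- **TVB** (uses OPF, OCA, OCR, FV1, FV4, FV7, T2V).  Tightness of class Va over `O2`.
Over `O2` the type is (degree, reversed profile `P = {j ∈ sp k a : all entries behind j are ≤ 1}`)
(OPF, OCA); `rep P`: 1 on `P` without `min P`, the rest `d - |P| + 1` at `min P`; `a ~β rep P`;
`max P = max (sp k a)`; `top m P` = the `m` largest elements.
PROOF.  `ρ ≥ β`, `L1 ρ k a a'`, `d` the degree, not `L1 β k a a'`, `b`, `i` given, `P ≠ P'` the reversed
profiles (OCA for `β`).  `d = 2`: T2V (then the supports are the reversed profiles).  `d ≥ 3`,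
`a i, b i ≥ 1`.  OCR (reversed) for `ρ`: (J') for `m ≥ 3` with `top m P ≠ top m P'` and (`m ≤ |P|` or
`m ≤ |P'|`): every `m`-set is `ρ`-related to itself without its minimum.
(1) `max P ≠ max P'`.  Both of size 1: `(d,0) ~ (0,d)` (C3 reversed), `a ~β sg p d`: (V2), FV7.  Otherwise
`(d,0) ~ (d-1,1)` (B3 reversed), i.e. `{j} ~ {j, l}` for `j < l`; with (J') for `3 ≤ m ≤ |P|`: `a ~ρ sg p d` for
some `p`: (V2), FV7.
(2) `max P = max P' = ℓ`; `X` = the longest common final segment of `P, P'`, `c = |X| ≥ 1`,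
`N = max |P| |P'| > c`.
 `c = 1`: (J') for `3 ≤ m ≤ N` and `(0,d) ~ (d-1,1)` (A3 reversed): `a ~ρ sg ℓ d ~ρ (d-1) e_j + e_ℓ`, `j < ℓ`.
 `i ≠ ℓ`: (V0).  `i = ℓ`: `b j ≥ 1` for some `j < ℓ`: (V0) for `(d-1) e_j + e_ℓ`; `b ℓ ≥ 2`: (V0) for `sg ℓ d`;
 otherwise `b ℓ = 1`, `b j ≥ 1`, `j > ℓ`.  Claim `Vb5 β`: if not, the first clause gives `O1 β`, so (push and
 add) `{j, l} ~β {l}` for `j < l` in degree `d`; as `L1 β k a a'` fails some (J'(m)), `3 ≤ m ≤ N`, fails in `β`, so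
 `JJ` fails in `β` (it gives all of them by push and add), so `Vb4 β`, and FV4 with `0, 1 ↦ 0, 2 ↦ 1`
 gives `Vb5 β`.  FV4 with `0 ↦ ℓ, 1 ↦ j`: `Bt ρ k (sg ℓ d) b ℓ`.
 `c ≥ 2`: (J') for `c < m ≤ N`: `a ~ρ rep X`, and `rep X ~ρ rep ({j} ∪ X)` for all `j < x1 := min X`
 (`c + 1 ≤ N ≤ d`).  `JJ` is not in `β` (otherwise `P ~ X ~ P'` in `β`), so `Vc1, Vc2, Vc3, Vb4`.  `rep X` has the
 entry `≥ 2` at `x1`.  `i ∉ X`: (V0) for `rep X`.  `b j ≥ 1` for some `j < x1`: (V0) for `rep ({j} ∪ X)`.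
 `b j ≥ 1` for some `j ∈ X`, `j ≠ i`: (V0) for `rep X`.  Otherwise:
 `i = x1`: `b i ≥ 2`: (V0) (two entries `≥ 2`).  `b i = 1`: `b j ≥ 1` for some `j > i`, `j ∉ X`; let `l = max X > x1`.
 `j < l`: `Vc2`, FV4 with `0 ↦ x1, 1 ↦ j, 2 ↦ l`; `j > l`: `Vc1` with `0 ↦ x1, 1 ↦ l, 2 ↦ j`.
 `i > x1`: `b j ≥ 1` for some `x1 < j < i`: `Vc3` with `0 ↦ x1, 1 ↦ j, 2 ↦ i`; for some `j > i`: `Vb4` with
 `0 ↦ x1, 1 ↦ i, 2 ↦ j`; otherwise `b i ≥ 2`: `Vc3` with `0 ↦ x1`, `1, 2 ↦ i`.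
 In all cases FV4 gives `Bt ρ k (rep X) b i`; (V2). -/
def TvbStmt : Prop :=
  ∀ β : FIC, MVD.Ve β → O2 (FC.ofFIC β) → ClauseV2 β → Tight β

/-- **TVC** (uses OCA, OCR, FV1, FV4, FV6, FV7, T2V).  Tightness of class Va over `O3`.
Type = (degree, profile `P = pr k a`) (OCA); `rep P`: 1 on `P` without `max P`, the rest
`d - |P| + 1` at `max P`.
PROOF.  `ρ ≥ β`, `L1 ρ k a a'`, `d`, not `L1 β k a a'`, `b`, `i`; `P ≠ P'` the profiles.  `d = 2`: T2V.
`d ≥ 3`: (L) `(d,0) ~β (d-1,1)` (`O3` and add), so by FV7 `Bt β k (sg p d) b i` for all `p ≤ k`.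
(1) `min P ≠ min P'`: both of size 1: `a ~β sg p d`: (L), (V2).  Otherwise `B3 ρ d` and `JP ρ m d` for
`3 ≤ m ≤ |P|`: `a ~ρ sg q d` for some `q` (`q` = the second element of `P`, or `P = {q}`): (L), (V2).
(2) `min P = min P'`; `X` = the longest common initial segment, `c = |X| ≥ 1`, `N = max |P| |P'| > c`.
`c = 1`: `JP ρ m d` for `3 ≤ m ≤ N` and `A3 ρ d`: `a ~ρ sg p d`, `p = min P`: (L), (V2).
`c ≥ 2`: `JP ρ m d` for `c < m ≤ N`: `a ~ρ rep X`, `rep X ~ρ rep (X ∪ {j})` for all `j > xc := max X`, also in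
the blocks `0..k+1`.  `JJd` is not in `β` (otherwise `JP β m d` for all `m ≥ 3` and `P ~ X ~ P'`), so
`Vd1, Vd2`.  `i ∉ X`: (V0) for `rep X`.  `i = xc`: FV6 for `rep X`, `a'' = rep (X ∪ {xc+1})`
(`spl xc (rep X) = rep X` because `rep X` vanishes behind `xc`).  `i ∈ X`, `i < xc`: `b j ≥ 1` for some
`j ∈ X`, `j ≠ i`: (V0) for `rep X`; `b j ≥ 1` for some `j > xc`: (V0) for `rep (X ∪ {j})`; otherwise
`b j ≥ 1` for some `j < i`: `Vd1`, FV4 with `0 ↦ j, 1 ↦ i, 2 ↦ xc`; or for some `i < j < xc`: `Vd2`, FV4 with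
`0 ↦ i, 1 ↦ j, 2 ↦ xc`; or `b i ≥ 2`: `Vd1`, FV4 with `0, 1 ↦ i`, `2 ↦ xc`.  (`rep X` has the entry `≥ 2` at
`xc`, `≥ 1` at `i`.) -/
def TvcStmt : Prop :=
  ∀ β : FIC, MVD.Ve β → O3 (FC.ofFIC β) → ClauseV3 β → Tight β

/-- **TVD** (uses ODA, ODR, FV1, T2V).  Tightness of class Va over `O4`; no clause.
PROOF.  `d = 2`: T2V (equal supports in degree 2: `FC.ext`).  `d ≥ 3`: `S = par k a ≠ par k a'` (ODA for
`β`).  `a i, b i ≥ 1`.  `|S| < d`: ODA: `a ~β c_t := 1 on S plus (d - |S|) e_t` for every `t ≤ k`, `c_t t ≥ 2`.  If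
`b j ≥ 1` for some `j ≠ i`: `t = j`: (V0) (`c_j` vanishes at `i` or the two types have two common blocks).
If not, `b i ≥ 2`: `t = i`: (V0).  `|S| = d`: ODR: `EP ρ d d`, so `a ~ρ sg j d` for all `j ≤ k`; take
`j ≠ i` (`k ≥ 1` because `|S| = d ≥ 3`): (V0), (V2). -/
def TvdStmt : Prop := ∀ β : FIC, MVD.Ve β → O4 (FC.ofFIC β) → Tight β

/-- the positive part of the theorem for class Va -/
def GoodV (β : FIC) : Prop :=
  Cent β ∧ ((O1 (FC.ofFIC β) ∧ ClauseV1 β) ∨ (O2 (FC.ofFIC β) ∧ ClauseV2 β) ∨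
    (O3 (FC.ofFIC β) ∧ ClauseV3 β) ∨ O4 (FC.ofFIC β))

/-- **SFV** (uses SUF, OLW, WUW, GAV, RGV, SWV, TVA, TVB, TVC, TVD).  Sufficiency for class Va.
PROOF.  As SFA. -/
def SfvStmt : Prop := ∀ β : FIC, MVD.Ve β → GoodV β → ModF β

/-! ### necessity -/

/-- the word has blocks with the letters 0, 1, the pair of types is in `T`, and the last letter of
block `i` is 1 -/
def QV (k i : ℕ) (T : (ℕ → ℕ) → (ℕ → ℕ) → Prop) (w : Word) : Prop :=
  ∃ B : ℕ → List ℕ, w.toList = asm k B ∧ (∀ j ≤ k, ∀ c ∈ B j, c = 0 ∨ c = 1) ∧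
    T (fun j => (B j).count 0) (fun j => (B j).count 1) ∧ (B i).getLast? = some 1

/-- the congruence of `T` and the block `i` -/
def GV (k i : ℕ) (T : (ℕ → ℕ) → (ℕ → ℕ) → Prop) : FIC := gam (QV k i T)

/-- the types in `T` are multiple and both occur in block `i` -/
def TMul (k i : ℕ) (T : (ℕ → ℕ) → (ℕ → ℕ) → Prop) : Prop :=
  ∀ a b, T a b → 2 ≤ deg k a ∧ 2 ≤ deg k b ∧ 1 ≤ a i ∧ 1 ≤ b i

/-- **GVB** (uses WBL, GLV, FV1) (compare GTB).
PROOF.  `QV k i T` is preserved by `β`: let `W ~β W'`, `QV W`, `W = asm k B` with types `a, b`.  WBL: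
`W' = asm k B'`, letters 0, 1, types `a', b'`; `L1 β k a a'`, `L1 β k b b'` (filter, rename), so `T a' b'` and
both letters occur in `B' i`; its last letter is 0 or 1.  Suppose 0.  `VR k a b i` holds (else (V0) gives
`Bt β k a b i`).  GLV: `W ~β w2 k a b e`, `e i = false`; `W' ~β w2 k a' b' e'`, `e' i = true`, `~β w2 k a b e'`
(type change, (V2)).  In the blocks `j ≠ i` one of `a j, b j` is 0, so the words `w2 k a b e1` depend
only on `e1 i`; hence `Bt β k a b i`, contradiction. -/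
def GvbStmt : Prop :=
  ∀ β : FIC, β ≤ thC3 → NC2 β → MVD.Ve β → ∀ (k i : ℕ) (T : (ℕ → ℕ) → (ℕ → ℕ) → Prop), i ≤ k →
    TExt k T → TMul k i T → (∀ a b a' b', T a b → L1 β k a a' → L1 β k b b' → T a' b') →
      (∀ a b, T a b → ¬ Bt β k a b i) → β ≤ GV k i T

/-- **GVN** (uses nothing) (compare GTN).  PROOF.  `e` = constant false: `QV` holds for `w2 k a b e`, not for
`w2 k a b (flp e i)` (`uniq`: the blocks are determined by the word); `φ = id`, `m = q = 1` in `gam`. -/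
def GvnStmt : Prop :=
  ∀ (k i : ℕ) (T : (ℕ → ℕ) → (ℕ → ℕ) → Prop), i ≤ k → TExt k T → TMul k i T →
    ∀ a b, T a b → ¬ Bt (GV k i T) k a b i

/-- **GVS** (uses nothing).  Exchanges in `GV k i T`.  PROOF.  As GTS (StmtsN); the last condition of `QV`
is not used. -/
def GvsStmt : Prop :=
  ∀ (k i : ℕ) (T : (ℕ → ℕ) → (ℕ → ℕ) → Prop), TExt k T → TDeg k T →
    ∀ (k1 : ℕ) (a1 b1 : ℕ → ℕ), deg k1 a1 = 3 → deg k1 b1 = 2 →
      (∀ f, BMap k1 k f → ¬ T (psh k1 f a1) (psh k1 f b1)) → ∀ i1, Bt (GV k i T) k1 a1 b1 i1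

/-- the `m`-th occurrence is in block `j0` -/
def Occ (a : ℕ → ℕ) (m j0 : ℕ) : Prop :=
  (∑ j ∈ Finset.range j0, a j) < m ∧ m ≤ ∑ j ∈ Finset.range (j0 + 1), a j

/-- **GVK** (uses nothing).  One letter identities of degree 3 in `GV k i T` which do not move the `m`-th
occurrence.
PROOF.  `W = m' φ(mw k1 c) q`, `W' = m' φ(mw k1 c') q`, `QV W`.  `z = φ(0)` occurs 3 times: `z = []`
(`W = W'`) or `z = [0]` and no other 0 comes from `m', q` or the simple letters.  The remaining letters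
are simple letters and two 1's.  With `f j` = the number of simple letters in `m' φ(2) .. φ(j+1)`:
`BMap k1 k f`; the type of 0 in `W` is `psh k1 f c`, in `W'` `psh k1 f c'`; the type `b` of 1 is the same; so `T`
holds for `W'`.  In `W` the `m`-th 0 is the last 0 in the blocks `0..i` (by the hypothesis on `T`), and
`1 ≤ a i`, so it is the last 0 of block `i`; it stands in the image of block `j0`; the part of `W` in
front of it is `m' φ(2) .. φ(j0+1)` with some letters 0 inserted; so the number `h` of letters 1 in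
front of the `m`-th 0 is the same for `W` and `W'`.  The last letter of block `i` is 1 iff
`h < ∑ j ∈ range (i+1), b j`; the same for `W'`. -/
def GvkStmt : Prop :=
  ∀ (k i m : ℕ) (T : (ℕ → ℕ) → (ℕ → ℕ) → Prop), i ≤ k → TExt k T → TDeg k T → TMul k i T →
    (∀ a b, T a b → (∑ j ∈ Finset.range (i + 1), a j) = m) →
    ∀ (k1 j0 : ℕ) (c c' : ℕ → ℕ), deg k1 c = 3 → deg k1 c' = 3 → j0 ≤ k1 → Occ c m j0 →
      Occ c' m j0 → (∀ f, BMap k1 k f → ∀ b, T (psh k1 f c) b ↔ T (psh k1 f c') b) →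
        L1 (GV k i T) k1 c c'

/-- the hypotheses of the necessity rows of class Va -/
structure HypV (β : FIC) : Prop where
  th : β ≤ thC3
  iso : Iso3 β
  cl : MVD.Ve β
  md : ModF β
  ce : Cent β

/-- **NV1** (uses LNN, GVB, GVN, GVS, GVK, GAV, RGV, WUA, OAA, OAR, ISO, FV1, FV4).  First clause over
`O1`.
PROOF.  Assume `O1 β`, not `O3 β`, not `O2 β`, not `Vb5 β`.  LNN with `k = 2`, `a = (0,3,0)`, `a' = (1,2,0)`,
`b = (0,1,1)` (`v3`), `i = 1`; `m = 3`.  `T1 x y`: `deg 2 x = 3`, `sp 2 x = {0,1}`, `y = b` on `0..2`.  `T2 x y`: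
`deg 2 x = 3`, `max (sp 2 x) = 1`, `y = b` on `0..2`.  (`deg 2 x = 3` and entries `≥ 1` at 1 hold for both.)
Closure under `β`: `y`: ISO.  `x ~β x'`: (i) `x'` of another degree: WUA: `x ~β sg 0 3` and
`(3,0) ~β (0,3)`; the second gives `Vb5 β` ((V2), (V0): `(0,3)` vanishes in block 0), excluded.
(ii) degree 3, `sp x' ≠ sp x`; OAR: different maxima and not both of size 1: `AP β 3`, so `O3 β`;
different maxima, both of size 1: `CP β 3`, `(3,0) ~ (0,3)`, excluded as in (i); same maximum 1: the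
supports are `{1}` and `{0,1}`: `BP β 3`, so `O2 β`, excluded.
No exchange: `x` with `sp x = {0,1}` or `{1}`, `Bt β 2 x b 1`: FV4 with `0, 1 ↦ 0, 2 ↦ 1` (`psh 2 f x = (3,0)`,
`psh 2 f b = (1,1)`): `Vb5 β`.  So `β ≤ G1 = GV 2 1 T1`, `β ≤ G2 = GV 2 1 T2` (GVB).
`Bt G1 2 a b 1`: GVS (`psh` of `(0,3,0)` has a support of size 1).  `L1 G2 2 a a'`: GVK (`j0 = 1`; `psh f a`,
`psh f a'` have degree 3 and the same maximum `f 1`).  GVN twice: contradiction. -/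
def Nv1Stmt : Prop :=
  ∀ β : FIC, HypV β → O1 (FC.ofFIC β) → ¬ O3 (FC.ofFIC β) → O2 (FC.ofFIC β) ∨ Vb5 β

/-- **NV2** (uses LNN, GVB, GVN, GVS, GVK, GAV, RGV, WUA, OAA, OAR, ISO, FV1, FV4).  Second clause over
`O1`, first part.
PROOF.  Assume `O1 β`, not `O3 β`, not `II β`, not `Vb3 β`.  `k = 3`, `a = (0,2,0,1)`, `a' = (0,1,1,1)`,
`b = (1,0,0,1)` (`v4`), `i = 3`, `m = 3`.  `T1 x y`: `x = a'`, `y = b` on `0..3`.  `T2 x y`: `deg 3 x = 3`,
`min (sp 3 x) = 1`, `max (sp 3 x) = 3`, `y = b` on `0..3`.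
Closure: `y`: ISO.  `a' ~β x'`: another degree: WUA: `a' ~β sg 0 3`; in all cases with `sp x' ≠ sp a'` OAR
gives `IP β 3 3`, so `II β`: excluded; `sp x' = sp a'`, degree 3: `x' = a'`.  `T2`: `x ~β x'`: another degree:
WUA: `x ~β sg 0 3`, different maxima, not both of size 1: `AP β 3`, `O3 β`, excluded.  Degree 3:
different maxima: the same.  Different minima: `BP β 3`: `(0,2,1) ~β (2,0,1)`, which has the two common
blocks 0, 2 with `(1,0,1)`: (V0), (V2) give `Vb3 β`, excluded.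
No exchange: FV4 with `0 ↦ 0, 1, 2 ↦ 1, 3 ↦ 2`: `psh x = (0,2,1)` for `sp x = {1,2,3}` and for
`x = (0,2,0,1)`; the other type with support `{1,3}` is `β`-related to it (OAA, (V2)); `psh b = (1,0,1)`: `Vb3 β`.
`Bt G1 3 a b 3`: GVS (`psh` of `a` has an entry `≥ 2`, `a'` has not).  `L1 G2 3 a a'`: GVK (`j0 = 3`; same
minimum `f 1` and maximum `f 3`).  LNN, GVN twice. -/
def Nv2Stmt : Prop :=
  ∀ β : FIC, HypV β → O1 (FC.ofFIC β) → ¬ O3 (FC.ofFIC β) → II (FC.ofFIC β) ∨ Vb3 β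

/-- **NV3** (uses LNN, GVB, GVN, GVS, GVK, GAV, RGV, WUA, OAA, OAR, ISO, FV1, FV4).  Second clause over
`O1`, second part.
PROOF.  Assume `O1 β`, not `O3 β`, not `II β`, not `Vb4 β`.  `k = 3`, `a = (2,0,1,0)`, `a' = (1,1,1,0)`,
`b = (0,0,1,1)` (`v4`), `i = 2`, `m = 3`.  `T1 x y`: `x = a'`, `y = b` on `0..3`.  `T2 x y`: `deg 3 x = 3`,
`max (sp 3 x) = 2`, (`O2 β` or `min (sp 3 x) = 0`), `y = b` on `0..3`.
Closure: `y`: ISO.  `T1`: as in NV2.  `T2`: `x ~β x'`.  Another degree: WUA: `x ~β sg 0 3`,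
`(3,0) ~β (0,3)`: if `|sp x| ≥ 2`: OAR (different maxima): `AP β 3`, `O3 β`; if `|sp x| = 1` then `min ≠ 0`, so
`O2 β`, and with `(3,0) ~ (0,3)`, `O1`: `(3,0) ~ (2,1)`: `O3 β`; excluded.  Degree 3, different maxima: not
both of size 1: `O3 β`; both of size 1: `O2 β` (as `min (sp x) ≠ 0`) and `CP β 3`: again `O3 β`.  Same
maximum, different minima and not `O2 β`: not both of size 1: `BP β 3`, so `O2 β`, excluded.
No exchange: FV4 with `0, 1 ↦ 0, 2 ↦ 1, 3 ↦ 2`: `x = a'` and `x = (2,0,1,0)` give `(2,1,0)`, `b` gives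
`(0,1,1)`: `Vb4 β`; `x` with `sp x = {0,2}`: OAA, (V2); if `O2 β`: all types of size `≤ 2` and maximum 2 are
`β`-related to `(2,0,1,0)` (`BP β 3`): (V2); size 3: `a'`.
`Bt G1 3 a b 2`: GVS (an entry `≥ 2`).  `L1 G2 3 a a'`: GVK (`j0 = 2`; same ends `f 0`, `f 2`).  LNN, GVN. -/
def Nv3Stmt : Prop :=
  ∀ β : FIC, HypV β → O1 (FC.ofFIC β) → ¬ O3 (FC.ofFIC β) → II (FC.ofFIC β) ∨ Vb4 β

/-- **NV4** (uses LNN, GVB, GVN, GVS, GVK, GAV, RGV, WUB, OPF, OCA, OCR, ISO, FV1, FV4).  First clause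
over `O2`.
PROOF.  Assume `O2 β`, not `O1 β`, not `O3 β`, not `Vb5 β`.  `k = 2`, `a = (0,3,0)`, `a' = (2,1,0)`,
`b = (0,1,1)` (`v3`), `i = 1`, `m = 3`.  `T1 x y`: `x = a'`, `y = b` on `0..2`.  `T2 x y`: `deg 2 x = 3`,
`max (sp 2 x) = 1`, `y = b` on `0..2`.
Closure: `y`: ISO.  Let `x ~β x'` with `x` in `T2` (the types `(2,1,0)`, `(1,2,0)`, `(0,3,0)` with the
reversed profiles `{0,1}`, `{1}`, `{1}`).  Another degree: WUB: `x ~β sg 0 3`, `(3,0) ~β (0,3)`: this gives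
`Vb5 β` ((V2), (V0)), excluded.  Degree 3, different reversed profiles `P ≠ P'` (OCR, reversed):
different maxima, not both of size 1: `(3,0) ~ (2,1)`: `O3 β`; both of size 1: `(3,0) ~ (0,3)`, excluded as
before; the same maximum 1: `{P, P'} = {{1}, {0,1}}`: `(0,3) ~ (2,1)`, with `O2`: `O1 β`.  Excluded.  So `x'` has
the same reversed profile: it is in `T2`, and `x = (2,1,0)` gives `x' = (2,1,0)` (the only vector of
degree 3 with the reversed profile `{0,1}`).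
No exchange: FV4 with `0, 1 ↦ 0, 2 ↦ 1`: `(3,0)`, `(1,1)`: `Vb5 β`.
`Bt G1 2 a b 1`: GVS (support of size 1).  `L1 G2 2 a a'`: GVK (`j0 = 1`, same maximum `f 1`).  LNN, GVN. -/
def Nv4Stmt : Prop :=
  ∀ β : FIC, HypV β → O2 (FC.ofFIC β) → ¬ O1 (FC.ofFIC β) → ¬ O3 (FC.ofFIC β) → Vb5 β

/-- **NV5** (uses LNN, GVB, GVN, GVS, GVK, GAV, RGV, WUB, OPF, OCA, OCR, ISO, FV4).  The general form of
the second clause over `O2`.
PROOF.  Assume `O2 β`, not `O1 β`, not `O3 β`, not `JJ β`.  `a`, `a'` as in the statement (`k = 3`).  `T1 x y`: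
`x = a'`, `y = b` on `0..3`.  `T2 x y`: (`x = a` or `x = a'`) and `y = b` on `0..3`.
Closure: `y`: ISO.  RULE: `x ~β x'`, `deg 3 x = 3`, reversed profile `P` of `x` with `|P| ≥ 2`; then `x' = x` on
`0..3`.  Indeed: another degree: WUB: `x ~β sg 0 3` with the reversed profile `{0}`, different maximum:
OCR (reversed): `(3,0) ~ (2,1)`: `O3 β`.  Degree 3, reversed profile `P' ≠ P`: if one of them has three
elements: OCR with `m = 3`: `JP 3 3` reversed, i.e. `(1,1,1) ~ (0,2,1)`: `JJ β`.  Both of size `≤ 2`, not both of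
size 1: different maxima: `O3 β`; same maximum: `(0,3) ~ (2,1)`, with `O2`: `O1 β`.  `P' = P`: a vector of
degree 3 is determined by its reversed profile if this has 2 or 3 elements.
No exchange: hypothesis of the statement: `psh 3 g a = psh 3 g a'`, `Bt β 3 x b i` for `x = a` or `a'` gives
`Bt β 2 (psh 3 g a') (psh 3 g b) (g i)` by FV4 (with equality), `g = (0,0,1,2)`.
`Bt G1 3 a b i`: GVS (`psh` of `a` has an entry `≥ 2`).  `L1 G2 3 a a'`: GVK: `psh f a' = a'` implies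
`psh f a = a`; `psh f a' = a` implies `psh f a = a`; `psh f a = a` implies `psh f a' ∈ {a, a'}`; `psh f a = a'`
never (all on `0..3`; look at the values of `f` at the support of `a'`).  LNN, GVN. -/
def Nv5Stmt : Prop :=
  ∀ β : FIC, HypV β → O2 (FC.ofFIC β) → ¬ O1 (FC.ofFIC β) → ¬ O3 (FC.ofFIC β) →
    ¬ JJ (FC.ofFIC β) → ∀ (a a' b : ℕ → ℕ) (i m : ℕ),
      ((a = v4 0 2 1 0 ∧ a' = v4 1 1 1 0 ∧ b = v4 0 1 0 1 ∧ i = 1 ∧ m = 2) ∨
       (a = v4 0 2 0 1 ∧ a' = v4 1 1 0 1 ∧ b = v4 0 1 1 0 ∧ i = 1 ∧ m = 2) ∨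
       (a = v4 0 2 0 1 ∧ a' = v4 1 1 0 1 ∧ b = v4 0 0 1 1 ∧ i = 3 ∧ m = 3) ∨
       (a = v4 0 2 1 0 ∧ a' = v4 1 1 1 0 ∧ b = v4 0 0 1 1 ∧ i = 2 ∧ m = 3)) →
        Bt β 2 (psh 3 (v4 0 0 1 2) a') (psh 3 (v4 0 0 1 2) b) (v4 0 0 1 2 i)

/-- **NV6** (uses NV4, NV5).  The clauses over `O2`.  PROOF.  NV5 in the four cases gives `Vc1`, `Vc2`,
`Vc3`, `Vb4` (the pushed vectors are `(2,1,0), (1,0,1)`, block 0; `(2,0,1), (1,1,0)`, block 0;
`(2,0,1), (0,1,1)`, block 2; `(2,1,0), (0,1,1)`, block 1 on the blocks `0..2`; `asm_congr`). -/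
def Nv6Stmt : Prop :=
  ∀ β : FIC, HypV β → O2 (FC.ofFIC β) → ¬ O1 (FC.ofFIC β) → ¬ O3 (FC.ofFIC β) → ClauseV2 β

/-- **NV7** (uses LNN, GVB, GVN, GVS, GVK, GAV, RGV, WUC, OCA, OCR, ISO, FV1, FV4, FV7).  The clause over
`O3`.
PROOF.  Assume `O3 β`, not `JJd β`, and first not `Vd1 β`.
(0) Not `O2 β`: `(0,1,2) ~ (0,0,3)` vanishes in block 1: `Vd1 β` by (V0), (V2).  Not `O1 β`: with `O3`:
`(1,2) ~ (2,1) ~ (3,0)`, so `(0,1,2) ~β (0,3,0) = sg 1 3`, and FV7 (`(3,0) ~ (2,1)`) and (V2) give `Vd1 β`.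
RULE: `x ~β x'`, `deg 3 x = 3`, profile `P` of `x` with `|P| ≥ 2`; then `x' = x` on `0..3`: another degree: WUC:
`x ~β sg j 3` for all `j ≤ 3`.  Degree 3, profile `P' ≠ P`: one of them of size 3: OCR with `m = 3`: `JP β 3 3`,
i.e. `JJd β`.  Both of size `≤ 2`, not both of size 1: same minimum: `(3,0) ~ (1,2)`, with `O3`: `O1 β`;
different minima: `(0,3) ~ (1,2)`: `O2 β`.  `P' = P`: the vector is determined (degree 3, `|P| ≥ 2`).
(1) `k = 3`, `a = (0,1,2,0)`, `a' = (0,1,1,1)`, `b = (1,1,0,0)`, `i = 1`, `m = 1`.  `T1`: `x = a'`, `y = b`; `T2`: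
`x = a` or `x = a'`, `y = b` (on `0..3`).  No exchange: FV4 with `(0,1,2,2)`: `(0,1,2)`, `(1,1,0)`: `Vd1 β`.
`Bt G1 3 a b 1`: GVS (entry `≥ 2`).  `L1 G2 3 a a'`: GVK (`j0 = 1`): `psh f a' = a'` implies `psh f a = a`;
`psh f a' = a` implies `psh f a = a`; `psh f a = a` implies `psh f a' ∈ {a, a'}`; `psh f a = a'` never.  LNN, GVN.
So `Vd1 β`.
(2) `Vd2`: assume not.  (0'): not `O2 β`: `(1,0,2) ~ (0,0,3)`; not `O1 β`: `(1,0,2) ~ (3,0,0) = sg 0 3`: as in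
(0).  `a = (1,0,2,0)`, `a' = (1,0,1,1)`, `b = (1,1,0,0)`, `i = 0`, `m = 1`, `j0 = 0`; FV4 with `(0,1,2,2)`:
`(1,0,2)`, `(1,1,0)`: `Vd2 β`; the rest as in (1). -/
def Nv7Stmt : Prop :=
  ∀ β : FIC, HypV β → O3 (FC.ofFIC β) → ClauseV3 β

/-- **NEV** (uses NV1, NV2, NV3, NV6, NV7, NOO).  Necessity for class Va.
PROOF.  As NEA: `Cent` from `Helper14_MV.B2` (`x²` is an isoterm, `ModF`), `NC2` from `Iso3`.  NOO: `O4`: done.
`O3`: NV7.  Otherwise `O1`: NV1, NV2, NV3; or `O2` and not `O1`: NV6. -/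
def NevStmt : Prop :=
  ∀ β : FIC, β ≤ thC3 → Iso3 β → MVD.Ve β → ModF β → GoodV β

end Pool.Agent.MVO
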