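import Pool.Agent.MVO.StmtsN
import Pool.Agent.MVO.StmtsG2
import Pool.Agent.MVO.StmtsC

/-!
# Squad MVO, block D: necessity for class Cc (MP_23468a_al)

Class Cc (`MVD.Cc`): s2, [F], [Z].  The clauses: over `O1` without `O3`: `II` or g1; over `O2`:
`JJ` or v1; and the mirror images.  They are proved for every `β` of class Cc which satisfies
`Gath2` and `Rig` (classes c1, c2, c3).

All words of the sets `QT k T` which are used here are gathered up to one s2 move.
-/

namespace Pool.Agent.MVO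

open Pool.Agent.Helper14_MV Pool.Agent.Helper2_MV

/-! ### class-free tools -/

/-- **LN2** (uses WBL).  LEMMA N with `Gath2`.  PROOF.  `Helper92_MVO/LNN.lean`; `Gath` is used there only
for `X = [0, 1]` (`X.length ≤ 2`). -/
def Ln2Stmt : Prop :=
  ∀ β : FIC, β ≤ thC3 → NC2 β → Gath2 β → Rig β → ModF β → ∀ G1 G2 : FIC, β ≤ G1 → β ≤ G2 →
    ∀ (k : ℕ) (a a' b : ℕ → ℕ) (i : ℕ), 2 ≤ deg k a → 2 ≤ deg k a' → 2 ≤ deg k b → i ≤ k →
      Bt G1 k a b i → L1 G2 k a a' → Bt G1 k a' b i ∨ Bt G2 k a' b i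

/-- **TRF** (uses nothing).  Transfer of the types in gathered two letter words, for every
congruence.
PROOF.  (1) `rr_ins` for `mw k a ~ mw k a'` (letter 0) with `P j` = the power `1^(b j)` if `e j`, else `[]`,
`Q j` = the power if not `e j`; then in the same way for the letter 1 (rename `0 ↦ 1`).  (Lemmas `tc0`,
`tc1` of `Helper92_MVO/LNN.lean`.)  (2) (1) for `e` and for `flp e i`.  (3) rename `0 ↦ 1`, `1 ↦ 0`:
`bl p q e` becomes `bl q p (!e)`; `flp` commutes with the negation. -/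
def TrfStmt : Prop :=
  (∀ (ρ : FIC) (k : ℕ) (a a' b b' : ℕ → ℕ), L1 ρ k a a' → L1 ρ k b b' →
    ∀ e, RR ρ (w2 k a b e) (w2 k a' b' e)) ∧
  (∀ (ρ : FIC) (k : ℕ) (a a' b b' : ℕ → ℕ) (i : ℕ), L1 ρ k a a' → L1 ρ k b b' →
    Bt ρ k a' b' i → Bt ρ k a b i) ∧
  (∀ (ρ : FIC) (k : ℕ) (a b : ℕ → ℕ) (i : ℕ), Bt ρ k a b i → Bt ρ k b a i)

/-- **PPS** (uses nothing).  Push of an exchange, for every congruence.
PROOF.  Given `e'` take `e := fun _ => e' (f i)`; `rr_push` for `w2 k a b e` and `w2 k a b (flp e i)`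
(`hf`).  In the pushed words the block `j ≠ f i` is a concatenation of blocks; one of the pushed
types is 0 there, so it is a power of one letter and equals `bl (psh k f a j) (psh k f b j) _` for
every flag (`pshB`, `psh`: the lengths add up).  The block `f i`: only block `i` contributes, it is
`bl (a i) (b i) (e i)` resp. `bl (a i) (b i) (!(e i))`, and `psh k f a (f i) = a i`.  Then `asm_congr`. -/
def PpsStmt : Prop :=
  ∀ (ρ : FIC) (k k' : ℕ) (f : ℕ → ℕ) (a b : ℕ → ℕ) (i : ℕ), BMap k k' f → i ≤ k →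
    (∀ j ≤ k', j ≠ f i → psh k f a j = 0 ∨ psh k f b j = 0) →
    (∀ j ≤ k, j ≠ i → f j = f i → a j = 0 ∧ b j = 0) →
      Bt ρ k a b i → Bt ρ k' (psh k f a) (psh k f b) (f i)

/-- **ZFR** (uses SGC).  Letters which share another block commute (class Cc).
PROOF.  `w2 k a b e = p ++ x^(a i) ++ y^(b i) ++ q` or with the powers exchanged (`x = 0`, `y = 1`); move the
letters one after the other: every single exchange is `p' x y q' ~ p' y x q'` where `p'` begins with `p`
and `q'` ends with `q`.  If `j < i` the part `p` contains the block `j`, in which both letters occur: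
`Cob w p' x y` or `Cob w p' y x` (between the two occurrences only letters 0, 1, which are multiple in
the word: `a i + a j ≥ 2`, `b i + b j ≥ 2`); if `j > i` the same for `q'`.  SGC (2), (3).  (All words are
permutations of each other, so the counts agree.) -/
def ZfrStmt : Prop :=
  ∀ β : FIC, MVD.Cc β → ∀ (k : ℕ) (a b : ℕ → ℕ) (i j : ℕ), i ≤ k → j ≤ k → i ≠ j →
    1 ≤ a i → 1 ≤ b i → 1 ≤ a j → 1 ≤ b j → Bt β k a b i

/-- the second type is `e_p + e_l`, the supports meet only in `l` -/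
def TPin (k l : ℕ) (T : (ℕ → ℕ) → (ℕ → ℕ) → Prop) : Prop :=
  ∀ a b, T a b → deg k b = 2 ∧ b l = 1 ∧ ∀ j ≤ k, j ≠ l → a j = 0 ∨ b j = 0

/-- **GTC** (uses WBL, TRF).  `β ≤ GT k T` for pins.
PROOF.  `QT k T` is preserved by `β` (then `β ≤ gam (QT k T)`, `le_gam` in `Helper92_MVO/LNN.lean`): let
`W ~β W'`, `QT W`: `W = asm k B` (letters 0, 1), types `(a, b)` in `T`, last letter 1.  WBL: `W' = asm k B'`
with letters 0, 1; filtering to one letter and renaming gives `L1 β k a a'`, `L1 β k b b'` for the types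
`(a', b')` of `W'`, so `T a' b'`.  By `TLast`, `TPin` (for `(a, b)` and for `(a', b')`): behind block `l` there
are no letters, block `l` contains exactly one letter 1 and at least one letter 0, every block
`j ≠ l` contains only one of the letters, so it is `bl (a j) (b j) _` for every flag; there is a block
`p < l` with `b p = 1`.  The last letter of `W` is 1: block `l` of `W` is `0^(a l) 1`, so
`W = w2 k a b (fun _ => false)`.  Suppose that the last letter of `W'` is not 1, so it is 0: block `l` of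
`W'` is `0^s 1 0^t` with `t ≥ 1`, `s + t = a' l`.  S2 (with `x ↦ 1`, which occurs in front, `y ↦ 0`, which
occurs behind) moves the 1 to the left over the `s` letters 0: `W' ~β w2 k a' b' (fun _ => true)`.
By TRF `w2 k a' b' e ~β w2 k a b e`, so `w2 k a b (fun _ => false) ~β w2 k a b (fun _ => true)`.  The blocks
`≠ l` do not depend on the flags, so this is `Ex β k a b e l` for every `e` (or its reverse):
`Bt β k a b l`, a contradiction. -/
def GtcStmt : Prop :=
  ∀ β : FIC, β ≤ thC3 → NC2 β → MVD.S2 β → ∀ (k l : ℕ) (T : (ℕ → ℕ) → (ℕ → ℕ) → Prop), l ≤ k →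
    TExt k T → TLast k l T → TPin k l T →
      (∀ a b a' b', T a b → L1 β k a a' → L1 β k b b' → T a' b') →
        (∀ a b, T a b → ¬ Bt β k a b l) → β ≤ GT k T

/-- **RVB** (uses nothing).  Reversal of exchanges.
PROOF.  `RR (FIC.op β) u v ↔ RR β u.reverse v.reverse`.  `(asm k B).reverse` is
`asm k (fun j => (B (k - j)).reverse)` with the simple letters renamed (`t` to `k + 3 - t`), as in row RVO
(`Helper34_MVO/RVO.lean`); `(bl p q e).reverse = bl p q (!e)`; rename back with `RR.sub`.  So the reversed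
`w2 k a b e` is `w2 k (a (k - ·)) (b (k - ·)) (!(e (k - ·)))`, and `flp e i` goes to the flip at `k - i`. -/
def RvbStmt : Prop :=
  ∀ (β : FIC) (k : ℕ) (a b : ℕ → ℕ) (i : ℕ), i ≤ k →
    (Bt (FIC.op β) k a b i ↔ Bt β k (fun j => a (k - j)) (fun j => b (k - j)) (k - i))

/-- **RVG** (uses nothing).  `Gath2`, `Gath` and `Rig` are invariant under reversal.
PROOF.  Reverse the word as in RVB: `B' j := (B (k - j)).reverse` satisfies the same hypotheses (the
counts in the blocks are permuted, the letters of `X` are not simple letters); `Gath2 β` gives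
`D'`; take `D j := (D' (k - j)).reverse` (a permutation of `X`): `(gb n L).reverse = gb n L.reverse`.
`Rig`: the index is `k - i` (as in RVB; `min` with `k`: if `i > k` take any index: then all words are
related). -/
def RvgStmt : Prop :=
  ∀ β : FIC, (Gath2 β → Gath2 (FIC.op β)) ∧ (Gath β → Gath (FIC.op β)) ∧ (Rig β → Rig (FIC.op β))

/-! ### the clauses -/

/-- the hypotheses of the necessity rows of class Cc -/
structure HypC (β : FIC) : Prop where
  th : β ≤ thC3
  iso : Iso3 β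
  cc : MVD.Cc β
  md : ModF β
  ce : Cent β
  g2 : Gath2 β
  rg : Rig β

/-- **HOP** (uses RVG).  PROOF.  `thC3` and `Iso3`: reverse the words (`xyx` and `x²` are palindromes; see
`Helper49_MVO/NEA.lean`, `op_modF` in Helper14_MV.B2; the row MIR of table mvd, finished, gives
`Cc` (`S2`, `FF ↔ ZZ`) and `Iso3`, you may import it); `Cent`: reverse and rename. -/
def HopStmt : Prop := ∀ β : FIC, HypC β → HypC (FIC.op β)

/-- **ND1** (uses LN2, GTC, GTN, GTS, GTK, WUA, OAA, OAR, ISO, TRF, PPS, ZFR).  Over `O1`, not `O3`: `II`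
or g1.  Compare `Helper43_MVO/NCB.lean` (class a), most of it can be copied.
PROOF.  (0) If `O2 β`: all types of degree 3 with at most two blocks and the same last block are
related (`O1`, `O2`), so `(0,2,1) ~ (2,0,1)`; `Bt β 2 (2,0,1) (1,0,1) 2` by ZFR (`j = 0`); TRF: g1.
(1) Let not `O2 β`, not `O3 β`, and assume not `II β`, not g1.  `k = 3`, `a = (0,2,0,1)`, `a' = (0,1,1,1)`,
`b = (1,0,0,1)` (`v4`), `l = i = 3`.  `T1 x y`: `x = a'`, `y = b` on `0..3`.  `T2 x y`: `y = b` on `0..3`,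
`deg 3 x = 3`, `max (sp 3 x) = 3`, `min (sp 3 x) = 1`.  `TLast`, `TPin`: clear (`x 0 = 0`).
Closure under `L1 β`: `y`: ISO.  `x` in `T1` or `T2`, `x ~β x'`: if `x'` has another degree: WUA gives
`x ~β sg 0 3`, of degree 3 with another maximum; so let `x'` have degree 3 and `sp x' ≠ sp x`
(`|sp x| ≥ 2`): OAR: other maximum: `AP β 3`, so `O3 β`; other minimum: `BP β 3`, so `O2 β`; the same ends:
the sizes are 2 and 3, `IP β 3 3`, so `II β`.  All excluded.  So `sp x' = sp x`.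
No exchange: `(a', b)`: PPS with `0 ↦ 0, 1 ↦ 1, 2 ↦ 1, 3 ↦ 2` gives g1; `x` with `sp x = {1,3}`: `x ~β (0,2,0,1)`
(OAA), TRF, the same push; `sp x = {1,2,3}`: `x = a'`.
So `β ≤ G1 := GT 3 T1`, `β ≤ G2 := GT 3 T2` (GTC).  `Bt G1 3 a b 3`: GTS (`psh 3 f a` has a support of size
`≤ 2`, so it is not `a'`).  `L1 G2 3 a a'`: GTK with `k1 = 3` (`psh 3 f a` and `psh 3 f a'` have degree 3 and
the same first and last block: `f 1`, `f 3`).  LN2: `Bt G1 3 a' b 3` or `Bt G2 3 a' b 3`; GTN (`T1 a' b`,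
`T2 a' b`): contradiction. -/
def Nd1Stmt : Prop :=
  ∀ β : FIC, HypC β → O1 (FC.ofFIC β) → ¬ O3 (FC.ofFIC β) →
    II (FC.ofFIC β) ∨ Bt β 2 (v3 0 2 1) (v3 1 0 1) 2

/-- **ND2** (uses LN2, GTC, GTN, GTS, GTK, WUB, OPF, OCR, ISO, TRF, PPS, ZFR).  Over `O2`: `JJ` or v1.
Compare `Helper51_MVO/NCE.lean` (class a), most of it can be copied.
PROOF.  (0) If `O3 β`: `(2,0,1) ~ (3,0,0)` (push of `(3,0) ~ (2,1)` with `0 ↦ 0, 1 ↦ 2`), and
`Bt β 2 (3,0,0) (0,1,1) 2` is trivial (no letter 0 in block 2: `bl 0 q e` does not depend on `e`); TRF: v1.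
(0') If `O1 β`: `(2,0,1) ~ (0,0,3) ~ (0,2,1)` (`O1`, `O2` and push); `Bt β 2 (0,2,1) (0,1,1) 2` by ZFR
(`j = 1`); TRF: v1.
(1) Let not `O1 β`, not `O3 β`, and assume not `JJ β`, not v1.  `k = 3`, `a = (0,2,0,1)`,
`a' = (1,1,0,1)`, `b = (0,0,1,1)` (`v4`), `l = i = 3`.  `T1 x y`: `x = a'`, `y = b` on `0..3`.  `T2 x y`: `y = b`,
and `x = a` or `x = a'`, on `0..3`.  `TLast`, `TPin`: clear.
Closure under `L1 β`: `y`: ISO.  `x ~β x'`, `x = a` or `a'`: if `x'` has another degree: WUB gives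
`x ~β sg 0 3` (degree 3, another maximum).  Let `x'` have degree 3.  Reversed profiles (OPF, OCR; over
`O2`) of `a`: `{1,3}`, of `a'`: `{0,1,3}`.  If the reversed profiles of `x`, `x'` are different: one of
size 3: `JJ β`; both of size `≤ 2`: the maxima differ: `O3 β`; the maxima agree: `(0,3) ~ (2,1)`, with
`O2`: `O1 β`.  All excluded.  So the reversed profiles (and the degrees) agree, and then `x' = x` on
`0..3` (reversed profile `{1,3}` and degree 3: the entry at 3 is 1, the entry at 1 is 1 or 2; if it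
is 1, the third occurrence is at 0 or 2, and then 0 or 2 is in the reversed profile).
No exchange: both pairs: PPS with `0 ↦ 0, 1 ↦ 0, 2 ↦ 1, 3 ↦ 2` gives v1.
So `β ≤ G1 := GT 3 T1`, `β ≤ G2 := GT 3 T2` (GTC).  `Bt G1 3 a b 3`: GTS (support of size `≤ 2`).
`L1 G2 3 a a'`: GTK with `k1 = 3`: `psh 3 f a' = a'` iff `f 0 = 0, f 1 = 1, f 3 = 3`, then `psh 3 f a = a`;
`psh 3 f a' = a` iff `f 0 = f 1 = 1, f 3 = 3`, then `psh 3 f a = a`; `psh 3 f a = a` iff `f 1 = 1, f 3 = 3`, then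
`f 0 ≤ 1` and `psh 3 f a'` is `a` or `a'`; `psh 3 f a = a'` never.  LN2, GTN: contradiction. -/
def Nd2Stmt : Prop :=
  ∀ β : FIC, HypC β → O2 (FC.ofFIC β) →
    JJ (FC.ofFIC β) ∨ Bt β 2 (v3 2 0 1) (v3 0 1 1) 2

/-- **ND3** (uses ND2, HOP, RVO, RVB).  Over `O3`: `JJd` or v1d.
PROOF.  ND2 for `FIC.op β`: `O2 (op β)` is `(2,1) ~ (3,0)` in `β` (RVO); `JJ (op β)` is
`(1,1,1) ~ (1,2,0)`; v1 for `op β` is `Bt β 2 (1,0,2) (1,1,0) 0` (RVB; the reversed functions agree with
`v3` on `0..2`; `asm_congr`). -/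
def Nd3Stmt : Prop :=
  ∀ β : FIC, HypC β → O3 (FC.ofFIC β) →
    JJd (FC.ofFIC β) ∨ Bt β 2 (v3 1 0 2) (v3 1 1 0) 0

/-- **ND4** (uses ND1, HOP, RVO, RVB).  Over `O1`, not `O2`: `II` or g1d.
PROOF.  ND1 for `FIC.op β` (`O1` is invariant, `O3 (op β)` is `O2 β`): `II (op β)` is
`(1,1,1) ~ (1,0,2)` in `β`, and `(1,0,2) ~ (2,0,1)` by `O1`; g1 for `op β` is g1d (RVB). -/
def Nd4Stmt : Prop :=
  ∀ β : FIC, HypC β → O1 (FC.ofFIC β) → ¬ O2 (FC.ofFIC β) →
    II (FC.ofFIC β) ∨ Bt β 2 (v3 1 2 0) (v3 1 0 1) 0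

/-- **ND5** (uses NOO, ND1, ND2, ND3, ND4).  The clauses of class Cc.
PROOF.  NOO (`NC2` from `Iso3`).  If `O2`: ND2.  Else if `O3`: ND3.  Else if `O4`: done.  Else `O1`, not
`O2`, not `O3`: ND1 and ND4. -/
def Nd5Stmt : Prop :=
  ∀ β : FIC, HypC β →
    (O1 (FC.ofFIC β) ∧ (II (FC.ofFIC β) ∨ (Bt β 2 (v3 0 2 1) (v3 1 0 1) 2 ∧
      Bt β 2 (v3 1 2 0) (v3 1 0 1) 0))) ∨
    (O2 (FC.ofFIC β) ∧ ClauseC2 β) ∨ (O3 (FC.ofFIC β) ∧ ClauseC3 β) ∨ O4 (FC.ofFIC β)

/-- **NEC** (uses ND5, GAC, RGC).  Necessity for class c1.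
PROOF.  `Cent` as in NEA (`Helper49_MVO/NEA.lean`); `Gath2` from GAC (`Gath.to2`), `Rig` from RGC; ND5. -/
def NecStmt : Prop :=
  ∀ β : FIC, β ≤ thC3 → Iso3 β → ClC1 β → ModF β → GoodC1 β

end Pool.Agent.MVO
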