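import Pool.Agent.MVO.StmtsE
import Pool.Agent.MVO.StmtsD

/-!
# Squad MVO, block F: class c3, part 2: tightness, unbalanced identities, the theorem (MP_23468a_al)

Every row: file `Pool/Agent/HelperNN_MVO/XXX.lean`, import `Pool.Agent.MVO.StmtsF`, theorem
`xxx (hypotheses = rows in uses, in this order) : XxxStmt`.  `Bt ρ k a b i` (StmtsA) := all exchanges of
`0^(a i)` and `1^(b i)` in block `i` of the words `w2 k a b e` are in `ρ`.
-/

namespace Pool.Agent.MVO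

open Pool.Agent.Helper14_MV Pool.Agent.Helper2_MV

/-- **FCN** (uses SGC, ZFR).  The calculus of exchanges in class Cc for a letter (`1`, type `b`) which
occurs behind block `i`.
PROOF.  (N0) Single exchanges of `0` and `1` in block `i` (`x = 0`, `y = 1`): `p' x y q'`, always `y ∈ q'` (later
block).  `a i = 0`: equal words.  `1 ≤ a j`, `j < i`: `x ∈ p'`: SGC (1).  Common block `j ≠ i`: if `b i = 0`
trivial, else ZFR.  Both `≥ 2` at `i` and `x` in a later block: `x^a y^b` (`a = a i, b = b i`): the last `a - 1`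
letters `x` go to the right over `y^b` (`x ∈ p'`, `y ∈ q'`: SGC (1)): `x y^b x^(a-1)`; the first `x` over the first
`y`: `Cob` in the right part `y^(b-1) x^(a-1) ..`: SGC (2); over the other `y`'s: SGC (1) for `y, x`, backwards.
(N2) As (C2) of FCC: `rr_ins` for `mw k a ~ mw k a'`.  (N5) exchange of the names 0 and 1.
(N3) Put `A = a + d`, `B = b + d'`; both have entries behind `i`.  `A` has an entry before `i`: N0 for `(A, B)`; `B`
has an entry before `i`: N0 for `(B, A)` and N5.  A common block `≠ i`, or `A i, B i ≥ 2`: N0.  Otherwise `A i = 1`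
(or `B i = 1`, by N5): `a i = 1`, `d i = 0`, and in every block `j ≠ i` only one of `A j, B j` is not 0.
`rr_ins'` with `P j = []`, `Q j = 0^(d j) 1^(d' j)`; block `i`: `0 1^(b i) 1^(d' i)` is correct,
`1^(b i) 0 1^(d' i) ~ 1^(B i) 0` by SGC (1) in the context (`1` in the left part, `0` in a later block).
(N4) `a', b'` = pushed types; they vanish before `f i`.  A common block `≠ f i`, or both `≥ 2` at `f i`: N0.
Otherwise `a' (f i) = 1` (or `b' (f i) = 1`, by N5): only block `i` contributes to `a' (f i)`; `rr_push` for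
`w2 k a b e`, `w2 k a b (flp e i)` with `e i := e' (f i)`: block `f i` is `bl 1 (b i) (e i) ++ 1^t`; as in (N3).
The other blocks are powers of one letter. -/
def FcnStmt : Prop :=
  ∀ ρ : FIC, MVD.Cc ρ →
    (∀ (k : ℕ) (a b : ℕ → ℕ) (i : ℕ), 2 ≤ deg k a → 2 ≤ deg k b → i ≤ k →
      (∃ j ≤ k, i < j ∧ 1 ≤ b j) →
      (a i = 0 ∨ (∃ j < i, 1 ≤ a j) ∨ (∃ j ≤ k, j ≠ i ∧ 1 ≤ a j ∧ 1 ≤ b j) ∨
        (2 ≤ a i ∧ 2 ≤ b i ∧ ∃ j ≤ k, i < j ∧ 1 ≤ a j)) → Bt ρ k a b i) ∧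
    (∀ (k : ℕ) (a a' b : ℕ → ℕ) (i : ℕ), L1 ρ k a a' → Bt ρ k a' b i → Bt ρ k a b i) ∧
    (∀ (k : ℕ) (a b d d' : ℕ → ℕ) (i : ℕ), i ≤ k → 1 ≤ a i → 1 ≤ b i →
      (∀ j < i, a j = 0 ∧ b j = 0) → (∃ j ≤ k, i < j ∧ 1 ≤ a j) → (∃ j ≤ k, i < j ∧ 1 ≤ b j) →
        Bt ρ k a b i → Bt ρ k (fun j => a j + d j) (fun j => b j + d' j) i) ∧
    (∀ (k k' : ℕ) (f : ℕ → ℕ) (a b : ℕ → ℕ) (i : ℕ), BMap k k' f → i ≤ k → 1 ≤ a i →
      1 ≤ b i → (∀ j < i, a j = 0 ∧ b j = 0) → (∃ j ≤ k', f i < j ∧ 1 ≤ psh k f a j) →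
        (∃ j ≤ k', f i < j ∧ 1 ≤ psh k f b j) →
          Bt ρ k a b i → Bt ρ k' (psh k f a) (psh k f b) (f i)) ∧
    (∀ (k : ℕ) (a b : ℕ → ℕ) (i : ℕ), Bt ρ k a b i → Bt ρ k b a i)

/-- tightness for pairs of non-local letters with the same first block `i` -/
def TightF (β ρ : FIC) : Prop :=
  ∀ (k : ℕ) (a a' b : ℕ → ℕ) (i : ℕ), 3 ≤ deg k a → deg k a = deg k a' → L1 ρ k a a' →
    ¬ L1 β k a a' → i ≤ k → (∃ j ≤ k, i < j ∧ 1 ≤ a j) → (∃ j ≤ k, i < j ∧ 1 ≤ b j) →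
      (∀ j < i, a j = 0 ∧ b j = 0) → 1 ≤ a i → 1 ≤ b i → Bt ρ k a b i

/-- tightness for pairs of non-local letters with the same last block `i` -/
def TightZ (β ρ : FIC) : Prop :=
  ∀ (k : ℕ) (a a' b : ℕ → ℕ) (i : ℕ), 3 ≤ deg k a → deg k a = deg k a' → L1 ρ k a a' →
    ¬ L1 β k a a' → i ≤ k → (∃ j < i, 1 ≤ a j) → (∃ j < i, 1 ≤ b j) →
      (∀ j ≤ k, i < j → a j = 0 ∧ b j = 0) → 1 ≤ a i → 1 ≤ b i → Bt ρ k a b i

/-- **TFA** (uses OAA, OAR, FCN).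
PROOF.  `e_i` unit vectors, `S = sp k a`, `S' = sp k a'`, `Q = sp k b`, `i = min S = min Q`, `d = deg k a ≥ 3`;
`S` and `Q` have elements `> i`.  RULE (R): if `L1 ρ k a a''` and N0 (FCN) applies to `(a'', b)` (i.e. `a'' i = 0`,
or `a''` has an entry before `i`, or `a''` and `b` have a common block `≠ i`), then `Bt ρ k a b i` (N0, N2).
`S ≠ S'` (OAA for `β`), `N := max |S| |S'| ≥ 2`.  `min S' ≠ i`: (R) with `a'`.  Let `min S' = i`.
(1) `max S ≠ max S'` (in particular if `N ≤ 2`): `AP ρ d` (OAR; not both of size 1), and `IP ρ N d`: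
`a ~ρ (d-1) e_i + e_(max S) ~ρ (d-1) e_i + e_q` for `q ∈ Q`, `q > i`: (R).
(2) `max S = max S' = j'`, `N ≥ 3`: `IP ρ N d`.  `II` is not in `β` (else `IP β m d` for all `m` and
`L1 β k a a'`), so g1d is in `β ≤ ρ`.  If there is `q ∈ Q`, `i < q ≤ j'`: (R) with a vector with support
`{i, q, j'}`.  Otherwise take `q ∈ Q`, `q > j'`: N4 for g1d with `0 ↦ i, 1 ↦ j', 2 ↦ q`:
`Bt ρ k (e_i + 2 e_(j')) (e_i + e_q) i`; N3 with `d := (d-3) e_(j')`, `d' := b - e_i - e_q`: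
`Bt ρ k (e_i + (d-1) e_(j')) b i`; `a ~ρ e_i + (d-1) e_(j')` (`IP`); N2. -/
def TfaStmt : Prop :=
  ∀ β ρ : FIC, β ≤ ρ → MVD.Cc ρ → O1 (FC.ofFIC β) → ClauseC1 β → TightF β ρ

/-- **TFB** (uses OPF, OCA, OCR, FCN).
PROOF.  Notation and (R) as in TFA; reversed profiles `P`, `P'` of `a`, `a'`, `rep P`, `J'(m)`, B3 reversed as
in TCB (StmtsC).  `P ≠ P'` (OCA for `β`).  `min P > i`: (R) with `rep P` (entry 0 at `i`).  `min P = i`:
`min P' ≠ i`: (R) with `rep P'` (entry 0 at `i`, or an entry before `i`).  `min P' = i`: `P`, `P'` are not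
final segments of each other.  `|P| ≥ 3`: `J'(|P|)`: `a ~ρ rep (P \ {i})`: (R).  `|P'| ≥ 3`: the same with `P'`.
Both `≤ 2`: the maxima differ, not both of size 1: B3 reversed: `a ~ρ d e_i ~ρ (d-1) e_i + e_q`, `q ∈ Q`,
`q > i`: (R). -/
def TfbStmt : Prop := ∀ β ρ : FIC, β ≤ ρ → MVD.Cc ρ → O2 (FC.ofFIC β) → TightF β ρ

/-- **TFC** (uses OCA, OCR, FCN).
PROOF.  Notation and (R) as in TFA; `P = pr k a`, `P' = pr k a'`, `P ≠ P'` (OCA for `β`), `min P = i`.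
`min P' ≠ i`: (R) with `a'`.  `min P' = i`: `X` = longest common initial segment, `c = |X| ≥ 1`,
`N = max |P| |P'| > c`.  `c = 1`: `JP ρ m d` (`3 ≤ m ≤ |P|`) and `A3 ρ d`: `a ~ρ e_i + (d-1) e_q` with `q ∈ Q`,
`q > i`: (R).  `c ≥ 2`: `JP ρ m d` for `c < m ≤ N`: `a ~ρ rep X ~ρ rep (X ∪ {j})` for `j > xc := max X`.
`JJd` is not in `β` (it gives `JP β m d` for `m ≥ 3`, so `L1 β k a a'`), so v1d is in `β ≤ ρ`.  `Q` meets `X`
outside `i`: (R) with `rep X`.  `j ∈ Q`, `j > xc`: (R) with `rep (X ∪ {j})`.  Otherwise there is `j ∈ Q` with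
`i < j < xc`: N4 for v1d with `0 ↦ i, 1 ↦ j, 2 ↦ xc`: `Bt ρ k (e_i + 2 e_xc) (e_i + e_j) i`; N3:
`Bt ρ k (rep X) b i` (`rep X` is 1 at `i` and `d - c + 1 ≥ 2` at `xc`); N2. -/
def TfcStmt : Prop :=
  ∀ β ρ : FIC, β ≤ ρ → MVD.Cc ρ → O3 (FC.ofFIC β) → ClauseC3 β → TightF β ρ

/-- **TFD** (uses ODA, ODR, FCN).
PROOF.  Notation and (R) as in TFA; `S = par k a ≠ par k a'` (ODA for `β`).  Let `q ∈ Q`, `q > i`.  `|S| < d`: a square
can be moved to `q` (ODA): (R).  `|S| = d`: `EP ρ d d` (ODR): `a ~ρ (d-1) e_i + e_q`: (R). -/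
def TfdStmt : Prop := ∀ β ρ : FIC, β ≤ ρ → MVD.Cc ρ → O4 (FC.ofFIC β) → TightF β ρ

/-- **MRF** (uses MRT).  Mirror image of `TightF`.
PROOF.  Apply `TightF (mir β) (mir ρ)` to `rvv k a, rvv k a', rvv k b`, block `k - i`; MRT (first part for
`L1`, with `rvv k (rvv k a) = a` on `0..k`; second part for `Bt`); `deg k (rvv k a) = deg k a`. -/
def MrfStmt : Prop := ∀ β ρ : FIC, TightF (MVD.mir β) (MVD.mir ρ) → TightZ β ρ

/-- **LOX** (uses SGC, LCL).  Exchanges with a local letter (`0`, type `a`, all in block `i`) in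
class c3.
PROOF.  `x = 0`, `y = 1`; single exchanges `p' x y q'` in block `i` (`asm_split`).
`b i = deg k b`: LCL.  `b i = 0`: equal words.  `y` in a block before and in a block behind `i`: `y ∈ p'`,
`y ∈ q'`, and `x` has another occurrence in `p'` or in `q'`: SGC (1) (or backwards for `y, x`).
`b` vanishes before `i` (and `b i < deg k b`, so `y ∈ q'` always), `3 ≤ deg k a` or `3 ≤ deg k b`: `x ∈ p'`:
SGC (1).  `x ∉ p'`, `y ∈ p'`: SGC (1) for `y, x`, backwards (`x ∈ q'`).  `x, y ∉ p'`: if `y` occurs in the rest of block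
`i`: `Cob` in `q'`: SGC (2); else `E23d` (local letter `x`, if `3 ≤ deg k a`) or `E32d` (if `3 ≤ deg k b`).
`b` vanishes behind `i`, `3 ≤ deg k b`: the mirror image (`E32`; `Cob` in `p'`: SGC (3)). -/
def LoxStmt : Prop :=
  ∀ ρ : FIC, ClC3 ρ → ∀ (k : ℕ) (a b : ℕ → ℕ) (i : ℕ), i ≤ k → 2 ≤ deg k a → 2 ≤ deg k b →
    a i = deg k a →
    (b i = deg k b ∨ b i = 0 ∨ ((∃ j < i, 1 ≤ b j) ∧ (∃ j ≤ k, i < j ∧ 1 ≤ b j)) ∨
      ((∀ j < i, b j = 0) ∧ (3 ≤ deg k a ∨ 3 ≤ deg k b)) ∨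
      ((∀ j ≤ k, i < j → b j = 0) ∧ 3 ≤ deg k b)) → Bt ρ k a b i

/-- **TLO** (uses FCN, ZFR, LOX).  Tightness for pairs with a local letter in class c3.
PROOF.  `a i = 0` or `b i = 0`: equal words.
`b` local (`b i = deg k b`): LOX for `(b, a)` and N5: `a` local, or with entries on both sides of `i`, or only
behind `i`, or only before `i`; `3 ≤ deg k a`.
`a` local, `b` not: entries of `b` on both sides: LOX; only behind `i`: LOX (`3 ≤ deg k a`); only before `i`: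
if `3 ≤ deg k b`: LOX.  So let `deg k b = 2`, `b = e_p + e_i`, `p < i` (on `0..k`).  Push `L1 ρ k a a'` with
`f j = p` for `j < i`, `f j = j` for `j ≥ i`: `psh k f a = a` on `0..k`, so `L1 ρ k a a''`, `a'' = psh k f a'`.
`Bt ρ k a'' b i`: `a'' i = 0`: equal words.  `a''` has an entry behind `i`: N0 for `(b, a'')`, N5.
`a'' p ≥ 1`: ZFR.  Otherwise all entries of `a''` are at `i`, so all entries of `a'` are at `i`
(entries before `i` would go to `p`), `a' = a` on `0..k`, a contradiction.  N2. -/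
def TloStmt : Prop :=
  ∀ ρ : FIC, ClC3 ρ → ∀ (k : ℕ) (a a' b : ℕ → ℕ) (i : ℕ), 3 ≤ deg k a → deg k a = deg k a' →
    L1 ρ k a a' → (∃ j ≤ k, a j ≠ a' j) → 2 ≤ deg k b → i ≤ k →
      (a i = deg k a ∨ b i = deg k b) → Bt ρ k a b i

/-- the conditions on the two letter words in class Cc -/
def GoodC3 (β : FIC) : Prop :=
  Cent β ∧ ((O1 (FC.ofFIC β) ∧ ClauseC1 β ∧ ClauseC1' β) ∨ (O2 (FC.ofFIC β) ∧ ClauseC2 β) ∨
    (O3 (FC.ofFIC β) ∧ ClauseC3 β) ∨ O4 (FC.ofFIC β))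

/-- **TI3** (uses MRT, MRC, MRD, TCA, TCB, TCC, TCD, SMD, FCN, TFA, TFB, TFC, TFD, MRF, TLO).
Tightness of class c3.
PROOF.  `ρ ≥ β`, `NC2 ρ`; `ClC3 ρ`.  (A) `IA ρ`: `ClC1 ρ`, `TightAt β ρ` by TCA..TCD.  (B) `IAd ρ`: `ClC1 (mir ρ)`,
`mir β ≤ mir ρ`, and the conditions of `GoodC3` hold for `mir β` (MRC; `O2`, `O3` exchanged):
`TightAt (mir β) (mir ρ)` by TCA..TCD, MRD.  (C) neither.  `L1 ρ k a a'`, `d = deg k a = deg k a' ≥ 2`.  If `a j = a' j`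
for all `j ≤ k`: `L1 β k a a'` (`asm_congr`).  Otherwise `d ≥ 3` by SMD.  Let not `L1 β k a a'`; `b`, `i` given, claim
`Bt ρ k a b i`.  `a i = 0` or `b i = 0`: equal words.  `a i = deg k a` or `b i = deg k b`: TLO.  Otherwise both
have entries in other blocks.  `a` before `i` and `b` behind `i`: N0.  `b` before and `a` behind: N0 for `(b, a)`,
N5.  Otherwise both only behind `i`: `TightF β ρ` (TFA..TFD), or both only before `i`: `TightZ β ρ`
(MRF, TFA..TFD for `mir β`, `mir ρ`; `Cc (mir ρ)`; over `O2` the clause `ClauseC2 β` gives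
`ClauseC3 (mir β)`). -/
def Ti3Stmt : Prop := ∀ β : FIC, ClC3 β → GoodC3 β → Tight β

/-- **WU3** (uses REN, GLA, ALT, WUA, WUB, WUC, WUD, WUW, GAC, MRC, MRD).  Unbalanced identities in class
c3.
PROOF.  `θ ≥ β`, `ClC3 θ`, `OO θ`, `Cent θ`; claim `WUAt θ`.  (A) `IA θ`: `Gath θ` (GAC), WUW for `θ`.  (B) `IAd θ`:
`ClC1 (mir θ)`, `OO (mir θ)`, `Cent (mir θ)` (MRC): WUW for `mir θ`, MRD.  (C) neither; then `NC2 θ` (`xy ≈ yx`
gives `IA`).  Steps (1), (2), (3) of WUW (they do not use `Gath`): `u.map π = asm k B`,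
`v.map π = asm k B'`, `c' = π c`, `d = u.count c ≥ 2` (`= 0` is trivial),
`L1 θ k (fun j => (B j).count c') (sg k d)` and `RR θ (0^d 2) (2 0^d)`.  `d = 2` would give
`yyx ~ xyy`, hence `IA`.  So `d ≥ 3`: ALT gives `B1` with `asm k B ~ asm k B1` in which all `d` letters `c'` are in block
`k`, and GLA (local, `M = k`) gathers them: `asm k B1 ~ w1 ++ c'^d ++ w2`, `c' ∉ w1, w2`; `c'^d w2 ~ w2 c'^d`
(substitute `2 ↦ w2`).  As in (4) of WUW: filtering `≠ c'` gives `(u.map π) without c' ~ w1 w2`, so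
`u.map π ~ ((u.map π) without c') c'^d`; map back. -/
def Wu3Stmt : Prop := ∀ β : FIC, ClC3 β → OO β → Cent β → WU β

/-- **SF3** (uses SU2, OLW, GG2, RG2, DET, TI3, WU3).  Sufficiency for class c3.
PROOF.  SU2 with DET, GG2, RG2, TI3, OLW (`OO β` from `GoodC3`), WU3. -/
def Sf3Stmt : Prop := ∀ β : FIC, ClC3 β → GoodC3 β → ModF β

/-- **SCC** (uses SFC, MRT, MRC, SF3).  Sufficiency for class Cc.
PROOF.  `IA β`: `ClC1 β` and `GoodC1 β`: SFC.  `IAd β`: `ClC1 (mir β)`, `GoodC1 (mir β)` by MRC (`ClauseC1'` gives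
`ClauseC1 (mir β)` over `O1`, etc.), SFC, and `ModF (mir β) → ModF β` (MRC).  `LC3 β`: SF3.  `LC3 (mir β)`:
`ClC3 (mir β)`, `GoodC3 (mir β)`, SF3, MRC. -/
def SccStmt : Prop :=
  ∀ β : FIC, MVD.Cc β → (MVD.IA β ∨ MVD.IAd β ∨ MVD.LC3 β ∨ MVD.LC3 (MVD.mir β)) → GoodC3 β →
    ModF β

end Pool.Agent.MVO
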