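import Pool.Agent.MVO.Basic

/-!
# Maps of blocks; the functorial congruence of a fully invariant congruence
-/

namespace Pool.Agent.MVO

open Pool.Agent.Helper14_MV Pool.Agent.Helper2_MV

theorem pshB_succ (k : ℕ) (f : ℕ → ℕ) (B : ℕ → List ℕ) (j : ℕ) :
    pshB (k + 1) f B j = pshB k f B j ++ (if f (k + 1) = j then B (k + 1) else []) := by
  unfold pshB
  rw [List.range_succ (n := k + 1), List.filter_append, List.flatMap_append]
  congr 1
  by_cases h : f (k + 1) = j
  · rw [if_pos h, List.filter_cons_of_pos (by simpa using h)]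
    simp
  · rw [if_neg h, List.filter_cons_of_neg (by simpa using h)]
    simp

theorem pshB_zero (f : ℕ → ℕ) (B : ℕ → List ℕ) (j : ℕ) :
    pshB 0 f B j = if f 0 = j then B 0 else [] := by
  unfold pshB
  by_cases h : f 0 = j
  · rw [if_pos h]
    simp [List.range_succ, h]
  · rw [if_neg h]
    simp [List.range_succ, h]

theorem pshB_nil {k : ℕ} {f : ℕ → ℕ} (B : ℕ → List ℕ) {j : ℕ} (h : ∀ i ≤ k, f i ≠ j) :
    pshB k f B j = [] := by
  unfold pshB
  have : (List.range (k + 1)).filter (fun i => f i = j) = [] := by
    rw [List.filter_eq_nil_iff]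
    intro i hi
    rw [decide_eq_true_iff]
    exact h i (by rw [List.mem_range] at hi; omega)
  rw [this]
  rfl

theorem mem_pshB {k : ℕ} {f : ℕ → ℕ} {B : ℕ → List ℕ} {j c : ℕ} :
    c ∈ pshB k f B j ↔ ∃ i ≤ k, f i = j ∧ c ∈ B i := by
  unfold pshB
  rw [List.mem_flatMap]
  constructor
  · rintro ⟨i, hi, hc⟩
    rw [List.mem_filter, List.mem_range, decide_eq_true_iff] at hi
    exact ⟨i, by omega, hi.2, hc⟩
  · rintro ⟨i, hi, hf, hc⟩
    refine ⟨i, ?_, hc⟩
    rw [List.mem_filter, List.mem_range, decide_eq_true_iff]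
    exact ⟨by omega, hf⟩

theorem asm_append_last (m : ℕ) (C : ℕ → List ℕ) (D : List ℕ) :
    asm m C ++ D = asm m (fun j => C j ++ (if m = j then D else [])) := by
  cases m with
  | zero => simp [asm]
  | succ m =>
    simp only [asm, if_true]
    rw [List.append_assoc, List.cons_append]
    congr 1
    apply asm_congr
    intro j hj
    rw [if_neg (by omega), List.append_nil]

theorem asm_append_seps (m r : ℕ) (C : ℕ → List ℕ) :
    asm m C ++ List.range' (m + 2) r = asm (m + r) (fun j => if j ≤ m then C j else []) := by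
  induction r with
  | zero =>
    simp only [List.range'_zero, List.append_nil, Nat.add_zero]
    apply asm_congr
    intro j hj
    rw [if_pos hj]
  | succ r ih =>
    rw [List.range'_concat, ← List.append_assoc, ih]
    have e : m + (r + 1) = (m + r) + 1 := by omega
    rw [e]
    simp only [asm]
    rw [if_neg (by omega : ¬ m + r + 1 ≤ m)]
    congr 2
    omega

/-- the substitution of the simple letters which belongs to a map of the blocks -/
def pSub (k : ℕ) (f : ℕ → ℕ) : ℕ → List ℕ :=
  fun c => if 2 ≤ c ∧ c ≤ k + 1 then List.range' (f (c - 2) + 2) (f (c - 1) - f (c - 2)) else [c]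

theorem pSub_ns {k : ℕ} {f : ℕ → ℕ} {c : ℕ} (h : NS k c) : pSub k f c = [c] := by
  unfold pSub
  rw [if_neg h]

theorem push_aux {K k : ℕ} (hk : k ≤ K) {f : ℕ → ℕ} (hf : ∀ i j, i ≤ j → j ≤ K → f i ≤ f j)
    {B : ℕ → List ℕ} (hB : ∀ j ≤ k, ∀ c ∈ B j, NS K c) :
    List.range' 2 (f 0) ++ (asm k B).flatMap (pSub K f) = asm (f k) (pshB k f B) := by
  induction k with
  | zero =>
    simp only [asm]
    rw [flatMap_congr' (fun c hc => pSub_ns (hB 0 (le_refl 0) c hc)), flatMap_self]
    have h1 := asm_append_seps 0 (f 0) (fun _ => [])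
    simp only [asm, List.nil_append, Nat.zero_add] at h1
    rw [h1, asm_append_last]
    apply asm_congr
    intro j hj
    rw [pshB_zero]
    simp
  | succ k ih =>
    simp only [asm]
    rw [List.flatMap_append, List.flatMap_cons, ← List.append_assoc,
      ih (by omega) (fun j hj => hB j (by omega)),
      flatMap_congr' (l := B (k + 1)) (fun c hc => pSub_ns (hB (k + 1) (le_refl _) c hc)),
      flatMap_self]
    have h1 : pSub K f (k + 2) = List.range' (f k + 2) (f (k + 1) - f k) := by
      unfold pSub
      rw [if_pos ⟨by omega, by omega⟩]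
      rfl
    have h2 : f k ≤ f (k + 1) := hf k (k + 1) (by omega) hk
    rw [h1, ← List.append_assoc, asm_append_seps, asm_append_last]
    have h3 : f k + (f (k + 1) - f k) = f (k + 1) := by omega
    rw [h3]
    apply asm_congr
    intro j hj
    rw [pshB_succ]
    congr 1
    by_cases h4 : j ≤ f k
    · rw [if_pos h4]
    · rw [if_neg h4, pshB_nil]
      intro i hi h5
      have := hf i k hi (by omega)
      omega

theorem push_word {k k' : ℕ} {f : ℕ → ℕ} (hf : BMap k k' f) {B : ℕ → List ℕ}
    (hB : BlkOk k B) :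
    List.range' 2 (f 0) ++ (asm k B).flatMap (pSub k f) ++ List.range' (f k + 2) (k' - f k) =
      asm k' (pshB k f B) := by
  rw [push_aux (le_refl k) hf.mono hB, asm_append_seps]
  have h3 : f k + (k' - f k) = k' := by
    have := hf.le k (le_refl k)
    omega
  rw [h3]
  apply asm_congr
  intro j hj
  by_cases h4 : j ≤ f k
  · rw [if_pos h4]
  · rw [if_neg h4, pshB_nil]
    intro i hi h5
    have := hf.mono i k hi (le_refl k)
    omega

/-- **PUSH** -/
theorem rr_push (ω : FIC) {k k' : ℕ} {f : ℕ → ℕ} (hf : BMap k k' f) {B B' : ℕ → List ℕ}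
    (hB : BlkOk k B) (hB' : BlkOk k B') (h : RR ω (asm k B) (asm k B')) :
    RR ω (asm k' (pshB k f B)) (asm k' (pshB k f B')) := by
  rw [← push_word hf hB, ← push_word hf hB']
  exact ((RR.refl (β := ω) _).append (h.sub _)).append (RR.refl _)

theorem blkOk_mw (k : ℕ) (a : ℕ → ℕ) : BlkOk k (fun j => List.replicate (a j) 0) := by
  intro j _ c hc hs
  rw [List.eq_of_mem_replicate hc] at hs
  omega

theorem pshB_replicate (k : ℕ) (f a : ℕ → ℕ) (j c : ℕ) :
    pshB k f (fun j => List.replicate (a j) c) j = List.replicate (psh k f a j) c := by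
  induction k with
  | zero =>
    rw [pshB_zero]
    unfold psh
    by_cases h : f 0 = j
    · simp [h]
    · simp [h]
  | succ k ih =>
    rw [pshB_succ, ih]
    have e : psh (k + 1) f a j = psh k f a j + (if f (k + 1) = j then a (k + 1) else 0) := by
      unfold psh
      rw [Finset.sum_range_succ _ (k + 1)]
    rw [e]
    by_cases h : f (k + 1) = j
    · rw [if_pos h, if_pos h, List.replicate_add]
    · rw [if_neg h, if_neg h]
      simp

/-- the functorial congruence of a fully invariant congruence -/
def FC.ofFIC (ρ : FIC) : FC where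
  R := L1 ρ
  refl := fun _ _ => RR.refl _
  symm := fun h => RR.symm h
  trans := fun h h' => ρ.trans h h'
  ext := by
    intro k a a' b b' h h' hr
    unfold L1 mw at hr ⊢
    have e1 : asm k (fun j => List.replicate (a j) 0) = asm k (fun j => List.replicate (a' j) 0) :=
      asm_congr (fun j hj => by rw [h j hj])
    have e2 : asm k (fun j => List.replicate (b j) 0) = asm k (fun j => List.replicate (b' j) 0) :=
      asm_congr (fun j hj => by rw [h' j hj])
    rw [← e1, ← e2]
    exact hr
  add := by
    intro k a b d hr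
    have h := rr_ins' ρ (fun j => []) (fun j => List.replicate (d j) 0) (blkOk_mw k a)
      (blkOk_mw k b) hr
    unfold L1 mw
    simpa only [List.nil_append, ← List.replicate_add] using h
  push := by
    intro k a b k' f hf hr
    have h := rr_push ρ hf (blkOk_mw k a) (blkOk_mw k b) hr
    unfold L1 mw
    have e : ∀ a : ℕ → ℕ, asm k' (pshB k f (fun j => List.replicate (a j) 0)) =
        asm k' (fun j => List.replicate (psh k f a j) 0) :=
      fun a => asm_congr (fun j _ => pshB_replicate k f a j 0)
    rw [← e, ← e]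
    exact h

end Pool.Agent.MVO
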