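import Pool.Agent.MVO.Defs

/-!
# Words as blocks between simple letters (basic lemmas)
-/

namespace Pool.Agent.MVO

open Pool.Agent.Helper14_MV Pool.Agent.Helper2_MV

theorem asm_congr {k : ℕ} {B B' : ℕ → List ℕ} (h : ∀ j ≤ k, B j = B' j) : asm k B = asm k B' := by
  induction k with
  | zero => exact h 0 (le_refl 0)
  | succ k ih =>
    simp only [asm]
    rw [ih (fun j hj => h j (by omega)), h (k + 1) (le_refl _)]

theorem BlkOk.le {k : ℕ} {B : ℕ → List ℕ} (h : BlkOk (k + 1) B) : BlkOk k B := by
  intro j hj c hc hs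
  exact h j (by omega) c hc ⟨hs.1, by omega⟩

theorem NS.le {k k' c : ℕ} (h : NS k' c) (hk : k ≤ k') : NS k c := fun hs => h ⟨hs.1, by omega⟩

/-- letters of a word -/
theorem mem_asm {k : ℕ} {B : ℕ → List ℕ} {c : ℕ} :
    c ∈ asm k B ↔ (2 ≤ c ∧ c ≤ k + 1) ∨ ∃ j ≤ k, c ∈ B j := by
  induction k with
  | zero =>
    simp only [asm]
    constructor
    · intro h; exact Or.inr ⟨0, le_refl 0, h⟩
    · rintro (h | ⟨j, hj, h⟩)
      · omega
      · have : j = 0 := by omega
        subst this
        exact h
  | succ k ih =>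
    simp only [asm, List.mem_append, List.mem_cons, ih]
    constructor
    · rintro ((h | ⟨j, hj, h⟩) | h | h)
      · left; omega
      · exact Or.inr ⟨j, by omega, h⟩
      · left; omega
      · exact Or.inr ⟨k + 1, le_refl _, h⟩
    · rintro (h | ⟨j, hj, h⟩)
      · by_cases hc : c = k + 2
        · exact Or.inr (Or.inl hc)
        · exact Or.inl (Or.inl (by omega))
      · by_cases hj' : j = k + 1
        · subst hj'; exact Or.inr (Or.inr h)
        · exact Or.inl (Or.inr ⟨j, by omega, h⟩)

/-- a substitution which replaces the simple letter `t` by `Q t P` -/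
def insSub (k : ℕ) (P Q : ℕ → List ℕ) (h : ℕ → List ℕ) : ℕ → List ℕ :=
  fun c => if 2 ≤ c ∧ c ≤ k + 1 then Q (c - 2) ++ c :: P (c - 1) else h c

theorem insSub_ns {k : ℕ} {P Q h : ℕ → List ℕ} {c : ℕ} (hc : NS k c) :
    insSub k P Q h c = h c := by
  unfold insSub
  rw [if_neg hc]

theorem flatMap_congr' {l : List ℕ} {f g : ℕ → List ℕ} (h : ∀ c ∈ l, f c = g c) :
    l.flatMap f = l.flatMap g := by
  induction l with
  | nil => rfl
  | cons a l ih =>
    rw [List.flatMap_cons, List.flatMap_cons, h a (by simp),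
      ih (fun c hc => h c (List.mem_cons_of_mem _ hc))]

theorem asm_ins_aux {K k : ℕ} (hk : k ≤ K) {B : ℕ → List ℕ} (P Q h : ℕ → List ℕ)
    (hB : ∀ j ≤ k, ∀ c ∈ B j, NS K c) :
    P 0 ++ (asm k B).flatMap (insSub K P Q h) ++ Q k =
      asm k (fun j => P j ++ (B j).flatMap h ++ Q j) := by
  induction k with
  | zero =>
    simp only [asm]
    rw [flatMap_congr' (fun c hc => insSub_ns (hB 0 (le_refl 0) c hc))]
  | succ k ih =>
    simp only [asm]
    rw [← ih (by omega) (fun j hj => hB j (by omega))]
    rw [List.flatMap_append, List.flatMap_cons]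
    rw [flatMap_congr' (l := B (k + 1)) (fun c hc => insSub_ns (hB (k + 1) (le_refl _) c hc))]
    have h1 : insSub K P Q h (k + 2) = Q k ++ (k + 2) :: P (k + 1) := by
      unfold insSub
      rw [if_pos ⟨by omega, by omega⟩]
      simp
    rw [h1]
    simp [List.append_assoc]

theorem asm_ins {k : ℕ} {B : ℕ → List ℕ} (P Q h : ℕ → List ℕ) (hB : BlkOk k B) :
    P 0 ++ (asm k B).flatMap (insSub k P Q h) ++ Q k =
      asm k (fun j => P j ++ (B j).flatMap h ++ Q j) :=
  asm_ins_aux (le_refl k) P Q h hB

/-- **INS**: substitution for the letters of the blocks and insertion at both ends of every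
block -/
theorem rr_ins (ω : FIC) {k : ℕ} {B B' : ℕ → List ℕ} (P Q h : ℕ → List ℕ) (hB : BlkOk k B)
    (hB' : BlkOk k B') (hr : RR ω (asm k B) (asm k B')) :
    RR ω (asm k (fun j => P j ++ (B j).flatMap h ++ Q j))
      (asm k (fun j => P j ++ (B' j).flatMap h ++ Q j)) := by
  rw [← asm_ins P Q h hB, ← asm_ins P Q h hB']
  exact ((RR.refl (β := ω) (P 0)).append (hr.sub _)).append (RR.refl _)

theorem flatMap_self (l : List ℕ) : l.flatMap (fun c => [c]) = l := by
  induction l with
  | nil => rfl
  | cons a l ih => rw [List.flatMap_cons, ih]; rfl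

theorem rr_ins' (ω : FIC) {k : ℕ} {B B' : ℕ → List ℕ} (P Q : ℕ → List ℕ) (hB : BlkOk k B)
    (hB' : BlkOk k B') (hr : RR ω (asm k B) (asm k B')) :
    RR ω (asm k (fun j => P j ++ B j ++ Q j)) (asm k (fun j => P j ++ B' j ++ Q j)) := by
  have h := rr_ins ω P Q (fun c => [c]) hB hB' hr
  simpa only [flatMap_self] using h

/-- substitution of the letters of the blocks -/
theorem rr_sub (ω : FIC) {k : ℕ} {B B' : ℕ → List ℕ} (h : ℕ → List ℕ) (hB : BlkOk k B)
    (hB' : BlkOk k B') (hr : RR ω (asm k B) (asm k B')) :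
    RR ω (asm k (fun j => (B j).flatMap h)) (asm k (fun j => (B' j).flatMap h)) := by
  have h := rr_ins ω (fun _ => []) (fun _ => []) h hB hB' hr
  simpa only [List.nil_append, List.append_nil] using h

/-- filters which keep the simple letters -/
theorem asm_filter {k : ℕ} {B : ℕ → List ℕ} (p : ℕ → Bool)
    (hp : ∀ c, 2 ≤ c → c ≤ k + 1 → p c = true) :
    (asm k B).filter p = asm k (fun j => (B j).filter p) := by
  induction k with
  | zero => rfl
  | succ k ih =>
    simp only [asm]
    rw [List.filter_append, ih (fun c h1 h2 => hp c h1 (by omega)),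
      List.filter_cons_of_pos (hp (k + 2) (by omega) (by omega))]

theorem count_asm {k : ℕ} {B : ℕ → List ℕ} {c : ℕ} (hc : NS k c) :
    (asm k B).count c = deg k (fun j => (B j).count c) := by
  induction k with
  | zero => simp [asm, deg]
  | succ k ih =>
    have h1 : k + 2 ≠ c := fun h => hc ⟨by omega, by omega⟩
    simp only [asm]
    rw [List.count_append, ih (hc.le (by omega)), List.count_cons_of_ne h1]
    unfold deg
    rw [Finset.sum_range_succ _ (k + 1)]

/-- the simple letters in their order -/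
def seps (k : ℕ) : List ℕ := List.range' 2 k

theorem seps_succ (k : ℕ) : seps (k + 1) = seps k ++ [k + 2] := by
  unfold seps
  rw [List.range'_concat]
  simp [Nat.add_comm]

theorem mem_seps {k c : ℕ} : c ∈ seps k ↔ 2 ≤ c ∧ c ≤ k + 1 := by
  unfold seps
  rw [List.mem_range'_1]
  omega

theorem nodup_seps (k : ℕ) : (seps k).Nodup := List.nodup_range'

theorem filter_sep_aux {K k : ℕ} (hk : k ≤ K) {B : ℕ → List ℕ}
    (hB : ∀ j ≤ k, ∀ c ∈ B j, NS K c) :
    (asm k B).filter (fun c => decide (2 ≤ c ∧ c ≤ K + 1)) = seps k := by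
  have h0 : ∀ j ≤ k, (B j).filter (fun c => decide (2 ≤ c ∧ c ≤ K + 1)) = [] := by
    intro j hj
    rw [List.filter_eq_nil_iff]
    intro c hc
    rw [decide_eq_true_iff]
    exact hB j hj c hc
  induction k with
  | zero => exact h0 0 (le_refl 0)
  | succ k ih =>
    simp only [asm]
    rw [List.filter_append, ih (by omega) (fun j hj => hB j (by omega))
      (fun j hj => h0 j (by omega)), List.filter_cons_of_pos
      (by rw [decide_eq_true_iff]; omega), h0 (k + 1) (le_refl _), seps_succ]

theorem filter_sep {k : ℕ} {B : ℕ → List ℕ} (hB : BlkOk k B) :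
    (asm k B).filter (fun c => decide (2 ≤ c ∧ c ≤ k + 1)) = seps k :=
  filter_sep_aux (le_refl k) hB

/-- **DEC**: decomposition of a word into blocks -/
theorem dec_aux (K : ℕ) : ∀ (k : ℕ), k ≤ K → ∀ w : List ℕ,
    w.filter (fun c => decide (2 ≤ c ∧ c ≤ K + 1)) = seps k →
      ∃ B : ℕ → List ℕ, (∀ j, ∀ c ∈ B j, NS K c) ∧ w = asm k B := by
  intro k
  induction k with
  | zero =>
    intro _ w hw
    refine ⟨fun _ => w, fun _ c hc => ?_, rfl⟩
    have h1 : w.filter (fun c => decide (2 ≤ c ∧ c ≤ K + 1)) = [] := hw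
    rw [List.filter_eq_nil_iff] at h1
    have h2 := h1 c hc
    rw [decide_eq_true_iff] at h2
    exact h2
  | succ k ih =>
    intro hk w hw
    rw [seps_succ] at hw
    obtain ⟨l1, l2, h1, h2, h3⟩ := List.filter_eq_append_iff.1 hw
    obtain ⟨m1, m2, h4, h5, h6, h7⟩ := List.filter_eq_cons_iff.1 h3
    obtain ⟨B, hB, h8⟩ := ih (by omega) (l1 ++ m1) (by
      rw [List.filter_append, h2]
      have : m1.filter (fun c => decide (2 ≤ c ∧ c ≤ K + 1)) = [] := by
        rw [List.filter_eq_nil_iff]
        exact h5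
      rw [this, List.append_nil])
    refine ⟨fun j => if j = k + 1 then m2 else B j, ?_, ?_⟩
    · intro j c hc
      have hc : c ∈ (if j = k + 1 then m2 else B j) := hc
      by_cases hj : j = k + 1
      · rw [if_pos hj] at hc
        rw [List.filter_eq_nil_iff] at h7
        have h9 := h7 c hc
        rw [decide_eq_true_iff] at h9
        exact h9
      · rw [if_neg hj] at hc
        exact hB j c hc
    · simp only [asm, ↓reduceIte]
      rw [h1, h4]
      have h9 : asm k (fun j => if j = k + 1 then m2 else B j) = asm k B := by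
        apply asm_congr
        intro j hj
        rw [if_neg (by omega)]
      rw [h9, ← h8]
      simp

theorem dec {k : ℕ} {w : List ℕ}
    (hw : w.filter (fun c => decide (2 ≤ c ∧ c ≤ k + 1)) = seps k) :
    ∃ B : ℕ → List ℕ, (∀ j, ∀ c ∈ B j, NS k c) ∧ w = asm k B :=
  dec_aux k k (le_refl k) w hw

/-- **UNIQ**: the blocks are determined by the word -/
theorem uniq_aux {K k : ℕ} (hk : k ≤ K) {B B' : ℕ → List ℕ} (hB : ∀ j ≤ k, ∀ c ∈ B j, NS K c)
    (hB' : ∀ j ≤ k, ∀ c ∈ B' j, NS K c) (h : asm k B = asm k B') : ∀ j ≤ k, B j = B' j := by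
  induction k with
  | zero =>
    intro j hj
    have : j = 0 := by omega
    subst this
    exact h
  | succ k ih =>
    have hnot : ∀ {C : ℕ → List ℕ}, (∀ j ≤ k + 1, ∀ c ∈ C j, NS K c) → k + 2 ∉ C (k + 1) := by
      intro C hC hmem
      exact hC (k + 1) (le_refl _) _ hmem ⟨by omega, by omega⟩
    have hcore : ∀ (A A' C C' : List ℕ), k + 2 ∉ C → k + 2 ∉ C' →
        A ++ (k + 2) :: C = A' ++ (k + 2) :: C' → A = A' ∧ C = C' := by
      intro A A' C C' hC hC' he
      have e := congrArg List.reverse he
      simp only [List.reverse_append, List.reverse_cons, List.append_assoc] at e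
      have hC1 : k + 2 ∉ C.reverse := by rwa [List.mem_reverse]
      have hC1' : k + 2 ∉ C'.reverse := by rwa [List.mem_reverse]
      have key : ∀ (X Y U V : List ℕ), k + 2 ∉ X → k + 2 ∉ Y →
          X ++ ([k + 2] ++ U) = Y ++ ([k + 2] ++ V) → X = Y ∧ U = V := by
        intro X
        induction X with
        | nil =>
          intro Y U V _ hY hXY
          cases Y with
          | nil => simpa using hXY
          | cons y Y =>
            simp only [List.nil_append, List.cons_append, List.cons.injEq] at hXY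
            exact absurd (by rw [← hXY.1]; exact List.mem_cons_self ..) hY
        | cons x X ih2 =>
          intro Y U V hX hY hXY
          cases Y with
          | nil =>
            simp only [List.nil_append, List.cons_append, List.cons.injEq] at hXY
            exact absurd (by rw [hXY.1]; exact List.mem_cons_self ..) hX
          | cons y Y =>
            simp only [List.cons_append, List.cons.injEq] at hXY
            obtain ⟨h1, h2⟩ := ih2 Y U V (fun hm => hX (List.mem_cons_of_mem _ hm))
              (fun hm => hY (List.mem_cons_of_mem _ hm)) hXY.2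
            exact ⟨by rw [hXY.1, h1], h2⟩
      obtain ⟨h1, h2⟩ := key _ _ _ _ hC1 hC1' e
      exact ⟨List.reverse_injective h2, List.reverse_injective h1⟩
    simp only [asm] at h
    obtain ⟨h1, h2⟩ := hcore _ _ _ _ (hnot hB) (hnot hB') h
    intro j hj
    by_cases hj' : j = k + 1
    · subst hj'; exact h2
    · exact ih (by omega) (fun j hj => hB j (by omega)) (fun j hj => hB' j (by omega)) h1 j
        (by omega)

theorem uniq {k : ℕ} {B B' : ℕ → List ℕ} (hB : BlkOk k B) (hB' : BlkOk k B')
    (h : asm k B = asm k B') : ∀ j ≤ k, B j = B' j :=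
  uniq_aux (le_refl k) hB hB' h

theorem count_sep {k : ℕ} {B : ℕ → List ℕ} (hB : BlkOk k B) {c : ℕ} (h1 : 2 ≤ c)
    (h2 : c ≤ k + 1) : (asm k B).count c = 1 := by
  have h3 : ((asm k B).filter (fun c => decide (2 ≤ c ∧ c ≤ k + 1))).count c =
      (asm k B).count c := List.count_filter (by rw [decide_eq_true_iff]; exact ⟨h1, h2⟩)
  rw [← h3, filter_sep hB]
  exact List.count_eq_one_of_mem (nodup_seps k) (mem_seps.2 ⟨h1, h2⟩)

end Pool.Agent.MVO
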