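import Pool.Agent.MVO.Push

/-!
# Squad MVO, block G: the general sufficiency theorem (MP_23468a_al)

Goal of the block: `SufStmt`.  If every word is gathered (`Gath`), the order matters in at most one
block (`Rig`), exchanges can be made in context (`SW`), the class is tight (`Tight`), the one letter
law holds (`OneLaw`) and unbalanced letters are movable (`WU`), then `ModF β`.

Every row: theorem `xxx (hypotheses = rows in uses, in this order) : XxxStmt`.
Read `Defs.lean`, `Basic.lean` (blocks: `asm`, `dec`, `uniq`, `rr_ins`, `rr_sub`, `asm_filter`,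
`count_asm`, `filter_sep`) and `Push.lean` first.
-/

namespace Pool.Agent.MVO

open Pool.Agent.Helper14_MV Pool.Agent.Helper2_MV

/-- both words have the same number of occurrences of every letter -/
def Bal (u v : List ℕ) : Prop := ∀ c, u.count c = v.count c

/-- one balanced step -/
def StB (ρ σ : FIC) (u v : List ℕ) : Prop := Bal u v ∧ (RR ρ u v ∨ RR σ u v)

/-- `ρ` does not contain `xy ≈ yx` -/
def NC2 (ρ : FIC) : Prop := ¬ RR ρ [0, 1] [1, 0]

/-- exchange of two adjacent letters which are in the other order in `l'` -/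
def Exch (l' l1 l2 : List ℕ) : Prop :=
  ∃ (A B : List ℕ) (x y : ℕ), l1 = A ++ x :: y :: B ∧ l2 = A ++ y :: x :: B ∧
    ∃ P Q R : List ℕ, l' = P ++ y :: (Q ++ x :: R)

/-- **BUB** (uses nothing).  Bubble sort: a permutation of a list `l'` without repetitions is
transformed into `l'` by exchanges of adjacent letters which are in the wrong order.
PROOF.  Induction on `l'` with `l` general.  `l' = []`: `l = []`.  `l' = z :: l''`: `z ∈ l`, so
`l = A ++ z :: B` (`List.append_of_mem`).  Claim: `ReflTransGen (Exch l') (A ++ z :: B) (z :: (A ++ B))`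
by induction on `A` from the right (`List.reverseRecOn` or `A = A1 ++ [a]`): exchange `a, z`, where
`a ≠ z`, `a ∈ l'`, hence `a ∈ l''` and `l' = [] ++ z :: (Q ++ a :: R)`.  Now `A ++ B` is a
permutation of `l''`; by induction `ReflTransGen (Exch l'') (A ++ B) l''`, and `Exch l'' m m'`
implies `Exch (z :: l'') (z :: m) (z :: m')` (`Relation.ReflTransGen.lift`). -/
def BubStmt : Prop :=
  ∀ l l' : List ℕ, l.Perm l' → l'.Nodup → Relation.ReflTransGen (Exch l') l l'

/-- **COM** (uses nothing).  A commutative fully invariant congruence contains all balanced pairs.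
PROOF.  `Bal u v` gives `u.Perm v` (`List.perm_iff_count`).  Induction on the permutation:
`cons`: `RR.append (RR.refl [a])`; `swap`: `[0,1] ≈ [1,0]` under the substitution
`0 ↦ [a], 1 ↦ [b]` (`RR.sub`), times a word from the right; `trans`: transitivity. -/
def ComStmt : Prop := ∀ (ρ : FIC) (u v : List ℕ), RR ρ [0, 1] [1, 0] → Bal u v → RR ρ u v

/-- **CHB** (uses nothing).  A chain between balanced words can be made balanced.
PROOF.  For a finite set `S` of letters let `StS S u v := (∀ c ∈ S, u.count c = v.count c) ∧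
(RR ρ u v ∨ RR σ u v)`.  Claim: if `ReflTransGen (StS S) u v` and `u.count c = v.count c`, then
`ReflTransGen (StS (insert c S)) u v`.  Write `w₋ := w.filter (· ≠ c)`, `d := u.count c`,
`w* := w₋ ++ replicate d c`.
(1) A step `StS S w w'` gives `StS (insert c S) w* w'*` (`RR.filter`, `RR.append`; the counts of the
letters of `S \ {c}` do not change, the count of `c` is `d` in both).
(2) For every `w` with `ReflTransGen (StS S) u w`: either `ReflTransGen (StS (insert c S)) u w`, or
`ReflTransGen (StS (insert c S)) u u*`.  Induction on the chain: if the first alternative holds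
for `w` and the step `w → w'` keeps the number of `c`, extend; if it does not keep it, then
`w.count c = d` (all counts of `c` are equal along a balanced chain), and `WU` for `ρ` (or `σ`)
gives the step `w → w*`; now `u → .. → w → w* → .. → u*`, the last part is the chain `u → .. → w`
reversed and starred by (1).
(3) If the first alternative holds for `v`: done.  Otherwise `u → .. → u*`; by symmetry (the
reversed chain from `v` to `u`; `RR` is symmetric) `v → .. → v*` (or again done), and
`u* → .. → v*` by (1).
Apply the claim to all letters of the finite set of the letters which occur in the words of the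
chain (for the other letters all counts are 0): precisely, first prove by induction on the chain
that there is a finite set `F` which contains all letters of all words of the chain, and use steps
`StF F u v := (∀ c ∉ F, c ∉ u ∧ c ∉ v) ∧ ..` (the words `w*` have no new letters); after all
letters of `F` are treated the chain is balanced. -/
def ChbStmt : Prop :=
  ∀ (β ρ σ : FIC), WU β → β ≤ ρ → β ≤ σ → ∀ u v : List ℕ, Bal u v → RR (FIC.sup ρ σ) u v →
    Relation.ReflTransGen (StB ρ σ) u v

/-- the modular law for balanced chains -/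
def BalLaw (β : FIC) : Prop :=
  ∀ ρ σ τ : FIC, β ≤ ρ → β ≤ σ → β ≤ τ → ρ ≤ τ → NC2 ρ → NC2 σ →
    ∀ u v : List ℕ, RR τ u v → Relation.ReflTransGen (StB ρ σ) u v →
      RR (FIC.sup ρ (FIC.inf σ τ)) u v

/-- **RED** (uses COM, CHB).  Balanced reduction.
PROOF.  Let `ρ ≤ τ`, `(u, v) ∈ τ`, `(u, v) ∈ sup ρ σ =: κ`, `ω := sup ρ (inf σ τ)`; pass from `Word`
to lists by `FreeMonoid.ofList`/`toList`.
(a) Balanced pairs `(u, v) ∈ τ ∧ κ` are in `ω`: if `ρ` contains `xy = yx`, COM gives `(u,v) ∈ ρ`; if
`σ` contains it, `(u, v) ∈ σ` by COM and `(u, v) ∈ τ`; else CHB and `BalLaw β`.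
(b) General: induction on the number of letters `c` (of `u ++ v`) with `u.count c ≠ v.count c`.  None:
(a).  Let `c` be such a letter, `u' := u₋ ++ replicate (u.count c) c`, `v'` the same for `v`
(`w₋ = w.filter (· ≠ c)`).  `WU` for `θ = τ` and for `θ = κ` gives `(u, u') ∈ τ ∧ κ`, and this pair
is balanced, so it is in `ω` by (a); the same for `(v, v')`.  It remains `(u', v') ∈ ω`:
`(u₋, v₋) ∈ τ ∧ κ` (`RR.filter`) has fewer bad letters, so it is in `ω` by induction; and
`(c^i, c^j)`, `i = u.count c`, `j = v.count c`, is in `ω` by `Helper4_MV.one_distrib` (the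
congruence lattice of `(ℕ, +)` is distributive; it is applied with `h1 : κ`, and `h2` from
`(u, v) ∈ τ` and `ρ ≤ τ`, so `(u,v) ∈ sup ρ τ`), after renaming the letter. -/
def RedStmt : Prop := ∀ β : FIC, WU β → BalLaw β → ModF β

/-- the balanced law for words written in blocks all of whose letters are multiple -/
def BlkLaw (β : FIC) : Prop :=
  ∀ ρ σ τ : FIC, β ≤ ρ → β ≤ σ → β ≤ τ → ρ ≤ τ → NC2 ρ → NC2 σ →
    ∀ (k : ℕ) (B : ℕ → List ℕ) (v : List ℕ), BlkOk k B →
      (∀ j ≤ k, ∀ c ∈ B j, 2 ≤ deg k (fun j => (B j).count c)) →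
      RR τ (asm k B) v → Relation.ReflTransGen (StB ρ σ) (asm k B) v →
        RR (FIC.sup ρ (FIC.inf σ τ)) (asm k B) v

/-- **REN** (uses nothing).  Renaming: the simple letters may be assumed to be `2, …, k+1`.
PROOF.  Let `S := u.filter (fun c => u.count c = 1)` (without repetitions), `k := S.length`.  There is a
permutation `π : Equiv.Perm ℕ` with `π (S[i]) = i + 2` for all `i < k` (an injection of a finite set
into `ℕ` extends to a permutation of `ℕ`: induction on the list `S`, composing with
`Equiv.swap`; or extend between a large finite set).  `u.map π` has the simple letters `2, …, k+1` in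
this order: `(u.map π).filter sep = seps k`, so it is `asm k B` by `dec`; every letter of `B j` is not
simple, so its count is at least 2 (`count_asm`). -/
def RenStmt : Prop :=
  ∀ u : List ℕ, ∃ (k : ℕ) (π : Equiv.Perm ℕ) (B : ℕ → List ℕ), u.map π = asm k B ∧ BlkOk k B ∧
    ∀ j ≤ k, ∀ c ∈ B j, 2 ≤ deg k (fun j => (B j).count c)

/-- **NAM** (uses REN).  PROOF.  `RR.sub (fun c => [π c])` maps `u` to `u.map π` (for every
congruence), so pairs and balanced chains are mapped to pairs and balanced chains; `BlkLaw` for
`u.map π`, `v.map π`; then map back with `π⁻¹`. -/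
def NamStmt : Prop := ∀ β : FIC, BlkLaw β → BalLaw β

/-- one balanced step between words in blocks -/
def StA (ρ σ : FIC) (k : ℕ) (B B' : ℕ → List ℕ) : Prop :=
  BlkOk k B ∧ BlkOk k B' ∧
    (∀ c, deg k (fun j => (B j).count c) = deg k (fun j => (B' j).count c)) ∧
      (RR ρ (asm k B) (asm k B') ∨ RR σ (asm k B) (asm k B'))

/-- **SEQ** (uses nothing).  Congruences without `xy = yx` keep the order of the simple letters.
PROOF.  By induction on the chain it is enough to treat one step: let `u = asm k B`, `BlkOk k B`,
`Bal u w` and `RR θ u w` with `NC2 θ`.  `w.filter sep` (sep = `2 ≤ c ≤ k+1`) is a permutation of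
`seps k` by `Bal` and `RR θ (seps k) (w.filter sep)` (`RR.filter`, `filter_sep`).  If it is not `seps k`,
then two letters `s < t` are in the other order in it (a permutation of an increasing list which is
not increasing has a descent); filtering to `{s, t}` gives `RR θ [s, t] [t, s]`, and renaming gives
`RR θ [0, 1] [1, 0]`, a contradiction.  So `w.filter sep = seps k`, `w = asm k B'` by `dec`, with
`BlkOk`; the degrees agree by `count_asm` and `Bal` for letters `c` with `NS k c` (for the simple
letters both degrees are 0 by `BlkOk`).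
The family `B'` is unique only on `0..k` (`uniq`); the steps of the chain fit together because
`asm k B' = asm k B''` implies `B' j = B'' j` for `j ≤ k` and `StA` only depends on these values. -/
def SeqStmt : Prop :=
  ∀ (ρ σ : FIC), NC2 ρ → NC2 σ → ∀ (k : ℕ) (B : ℕ → List ℕ) (v : List ℕ), BlkOk k B →
    Relation.ReflTransGen (StB ρ σ) (asm k B) v →
      ∃ B' : ℕ → List ℕ, v = asm k B' ∧ BlkOk k B' ∧
        (∀ c, deg k (fun j => (B j).count c) = deg k (fun j => (B' j).count c)) ∧
        Relation.ReflTransGen (StA ρ σ k) B B'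

/-- **ALN** (uses nothing).  Change of the type of one letter in a gathered word.
PROOF.  `(D j).Perm X`, so `D j = Z1 j ++ c :: Z2 j` for every `j` (choose), `c ∉ Z1 j, Z2 j`.  Then
`gb (n j) (D j) = gb (n j) (Z1 j) ++ replicate (n j c) c ++ gb (n j) (Z2 j)`, and
`gb (n' j) (D j)` is the same with `replicate (a' j) c`, where `n'` changes only the letter `c`.
`rr_ins` with `P j = gb (n j) (Z1 j)`, `Q j = gb (n j) (Z2 j)` and the substitution `h 0 = [c]`. -/
def AlnStmt : Prop :=
  ∀ (ω : FIC) (k : ℕ) (X : List ℕ) (n : ℕ → ℕ → ℕ) (D : ℕ → List ℕ), X.Nodup →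
    (∀ j, (D j).Perm X) → ∀ c ∈ X, ∀ a' : ℕ → ℕ, L1 ω k (fun j => n j c) a' →
      RR ω (gw k n D) (gw k (fun j => Function.update (n j) c (a' j)) D)

/-- **ONE** (uses nothing).  Restriction of a chain and of a pair to one letter.
PROOF.  Filter by `p d := decide (d = c) || decide (2 ≤ d ∧ d ≤ k+1)` (`RR.filter`, `asm_filter`): the
block `(B j).filter p` is `replicate ((B j).count c) c` (`NS k d` for the letters of the block);
then `rr_sub` with `h c = [0]`. -/
def OneStmt : Prop :=
  (∀ (θ : FIC) (k : ℕ) (B B' : ℕ → List ℕ) (c : ℕ), NS k c → BlkOk k B → BlkOk k B' →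
    RR θ (asm k B) (asm k B') →
      L1 θ k (fun j => (B j).count c) (fun j => (B' j).count c)) ∧
  (∀ (ρ σ : FIC) (k : ℕ) (B B' : ℕ → List ℕ) (c : ℕ), NS k c →
    Relation.ReflTransGen (StA ρ σ k) B B' →
      Relation.ReflTransGen (St1 ρ σ k) (fun j => (B j).count c) (fun j => (B' j).count c))

/-- **TYP** (uses ALN, ONE).  All types can be adjusted.
PROOF.  `ω := sup ρ (inf σ τ) ≤ τ`.  By `Gath` there is `D` with `(asm k B, gw k n D) ∈ β`,
`n j c = (B j).count c`.  Let `m j c := (B' j).count c`.  Claim: for every list `Y` of letters of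
`X` (induction on `Y`): `(asm k B, gw k n_Y D) ∈ ω`, where `n_Y j c = m j c` for `c ∈ Y`, `n j c` else.
Step for a new letter `c`: ONE gives `L1 τ k (n · c) (m · c)` and the chain `St1 ρ σ`; OneLaw gives
`L1 ω k (n · c) (m · c)`; ALN changes the type of `c` in `gw k n_Y D`.  For `Y = X` the word is
`gw k m D` up to letters outside `X`, which do not occur. -/
def TypStmt : Prop :=
  ∀ β : FIC, Gath β → OneLaw β →
    ∀ ρ σ τ : FIC, β ≤ ρ → β ≤ σ → β ≤ τ → ρ ≤ τ → NC2 ρ → NC2 σ →
      ∀ (k : ℕ) (X : List ℕ) (B B' : ℕ → List ℕ), X.Nodup → (∀ c ∈ X, NS k c) → BlkOk k B →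
        (∀ j ≤ k, ∀ c ∈ B j, c ∈ X) → (∀ c ∈ X, 2 ≤ deg k (fun j => (B j).count c)) →
        RR τ (asm k B) (asm k B') → Relation.ReflTransGen (StA ρ σ k) B B' →
          ∃ D : ℕ → List ℕ, (∀ j, (D j).Perm X) ∧
            RR (FIC.sup ρ (FIC.inf σ τ)) (asm k B) (gw k (fun j c => (B' j).count c) D)

/-- the two letter law which is used along chains -/
def Two (β : FIC) : Prop :=
  ∀ ρ : FIC, β ≤ ρ → NC2 ρ → ∀ (k : ℕ) (a b : ℕ → ℕ) (e : ℕ → Bool) (B : ℕ → List ℕ),
    2 ≤ deg k a → 2 ≤ deg k b → BlkOk k B → (∀ j ≤ k, ∀ c ∈ B j, c = 0 ∨ c = 1) →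
      deg k (fun j => (B j).count 0) = deg k a → deg k (fun j => (B j).count 1) = deg k b →
        RR ρ (w2 k a b e) (asm k B) →
          RR β (w2 k a b e) (asm k B) ∨ ∀ e' : ℕ → Bool, ∀ i ≤ k, Ex ρ k a b e' i

/-- **TWO** (uses nothing).
PROOF.  By `Gath` (with `X = [0, 1]`) `asm k B ≈ gw k n D` in `β`, where `n j c = (B j).count c`, and
`(D j).Perm [0, 1]`, so `gw k n D = w2 k a' b' e'` with `a' j = n j 0`, `b' j = n j 1`,
`e' j = decide (D j = [1, 0])`.  So `RR ρ (w2 k a b e) (w2 k a' b' e')`.  Deleting the letter 1 gives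
`L1 ρ k a a'`, deleting the letter 0 and renaming gives `L1 ρ k b b'`.  `Tight β` for `a`: either the
second alternative (all exchanges of `a` with `b`; done) or `L1 β k a a'`.  `Tight β` for `b`: either
all `Ex ρ k b a e'' i` (exchange the names 0 and 1: this is `Ex ρ k a b (fun j => !(e'' j)) i`; done)
or `L1 β k b b'`.  Now `w2 k a b e' ≈ w2 k a' b' e'` in `β` (change the type of one letter at a time:
`rr_ins` with the other letter as inserted text: `P j`, `Q j` = the power of the other letter at its
side), so `RR ρ (w2 k a b e) (w2 k a b e')`.  Let `r` be the index of `Rig β` for `a, b`.  If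
`e r = e' r`, then `RR β (w2 k a b e) (w2 k a b e')` and the first alternative holds.  If
`e r ≠ e' r`, then `flp e r` and `e'` agree at `r`, so `Ex ρ k a b e r`; for every `e''`, `i`: if `i ≠ r`
then `Ex β k a b e'' i` by `Rig` (`flp e'' i` and `e''` agree at `r`); if `i = r` then one of
`e'', flp e'' r` agrees with `e` at `r` and the other with `flp e r`, so `Ex ρ k a b e'' r`. -/
def TwoStmt : Prop := ∀ β : FIC, Gath β → Rig β → Tight β → Two β

/-- **ORD** (uses BUB, CHB, SEQ).  Two gathered words with the same types.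
PROOF.  `ω := sup ρ (inf σ τ)`.  It is enough to prove: for every family `D` of permutations of `X`
with a chain `ReflTransGen (StA ρ σ k) (blocks of gw k n D) (blocks of gw k n D')` and
`RR τ (gw k n D) (gw k n D')`, and every `i ≤ k` and `D i = A ++ x :: y :: B` with `y` before `x` in
`D' i` (the situation of `Exch (D' i)`), either `RR ρ g g'` or `RR (inf σ τ) g g'`, where
`g = gw k n D`, `g' = gw k n (update D i (A ++ y :: x :: B))`.  Then `g'` satisfies the same hypotheses
(one more step in front of the chain: `StA ρ σ k`, `g'`, `g` have the same letters; `ρ, inf σ τ ≤ τ`),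
and BUB in the block `i`, block after block (`i = 0, …, k`; a family which agrees with `D'` in the
blocks `< i` is transformed into one which agrees in the blocks `≤ i`; finally `asm_congr`), gives
the claim.
The exchange: put `a j = n j x`, `b j = n j y`.  Filter the chain to the letters `x, y` and the
simple letters and rename `x, y` to `0, 1` (`rr_sub`, `asm_filter`): it starts with
`w := w2 k a b e` and ends with `w' := w2 k a b e'` (`e j` = `y` is before `x` in `D j`, `e' j` the same
for `D' j`), `e i = false`, `e' i = true`, and `(w, w') ∈ τ`.  If `n i x = 0` or `n i y = 0` the exchange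
does nothing (`gb` is unchanged).  Let `r` be the index of `Rig`.  If `r ≠ i` all `Ex β k a b e'' i` hold
and `SW β` with `ω = ρ` gives `RR ρ g g'`.  Let `r = i`.  `w` and `w'` are not `β`-related or all
`Ex β k a b e'' i` hold (if `w ~ w'` then, `w' ~ w2 k a b (flp e i)` by `Rig`, `Ex β k a b e i`, hence
for all `e''` as in TWO) and we are done as before.  Otherwise there is a first word `asm k C` of the
chain with `RR β w (asm k C)` whose successor `asm k C'` is not `β`-related to `w`; the step is in
`ρ` or in `σ`, so `RR ρ w (asm k C')` or `RR σ w (asm k C')`, and `Two β` gives `∀ e'', Ex ρ k a b e'' i`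
or `∀ e'', Ex σ k a b e'' i`.  In the second case also `∀ e'', Ex τ k a b e'' i` (from `(w, w') ∈ τ` and
`Rig`), so it holds for `inf σ τ`.  `SW β` with `ω = ρ` or `ω = inf σ τ` gives the exchange in `g`. -/
def OrdStmt : Prop :=
  ∀ β : FIC, Rig β → SW β → Two β →
    ∀ ρ σ τ : FIC, β ≤ ρ → β ≤ σ → β ≤ τ → ρ ≤ τ → NC2 ρ → NC2 σ →
      ∀ (k : ℕ) (X : List ℕ) (n : ℕ → ℕ → ℕ) (D D' : ℕ → List ℕ), GData k X n D →
        (∀ j, (D' j).Perm X) → RR τ (gw k n D) (gw k n D') →
        Relation.ReflTransGen (StA ρ σ k) (fun j => gb (n j) (D j)) (fun j => gb (n j) (D' j)) →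
          RR (FIC.sup ρ (FIC.inf σ τ)) (gw k n D) (gw k n D')

/-- **ASB** (uses CHB, SEQ, TYP, ORD).  Assembly of the block law.
PROOF.  Given `u = asm k B` and the chain to `v`; SEQ: `v = asm k B'` and a chain of `StA`.  Let `X` be
the list of the letters of the blocks (`dedup` of the concatenation); all letters of `X` are multiple
in `u` and in `v` (same degrees).  TYP: `(u, g) ∈ ω`, `g = gw k n D`, `n j c = (B' j).count c`.  `Gath`:
`(v, g') ∈ β`, `g' = gw k n D'`.  `(g, g') ∈ τ` because `ω ≤ τ`.  `(g, u) ∈ ω ≤ sup ρ σ`, so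
`(g, g') ∈ sup ρ σ`, and `g`, `g'` have the same counts; CHB gives a balanced chain from `g` to `g'`,
SEQ a chain of `StA` (the blocks of `g'` are determined by `uniq`; replace the last family by
`fun j => gb (n j) (D' j)`).  ORD: `(g, g') ∈ ω`. -/
def AsbStmt : Prop :=
  ∀ β : FIC, WU β → Gath β → Rig β → SW β → OneLaw β → Two β → BlkLaw β

/-- **SUF** (uses RED, NAM, TWO, ASB).  The sufficiency theorem.
PROOF.  TWO, ASB, NAM, RED. -/
def SufStmt : Prop :=
  ∀ β : FIC, Gath β → Rig β → SW β → Tight β → OneLaw β → WU β → ModF β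

end Pool.Agent.MVO
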