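import Pool.Agent.Helper14_MV.J
import Pool.Agent.Helper2_MV.Keep
import Pool.Agent.Helper4_MV.Dist

/-!
# Words as blocks between simple letters (definitions)

Squad MVO (problem MP_23468a_al).  `asm k B` is the word with the blocks `B 0, …, B k` separated
by the simple letters `2, 3, …, k+1`.  The letters `0` and `1` are the letters `x` and `y` of the
one letter words `mw` and of the two letter words `w2`.
-/

namespace Pool.Agent.MVO

open Pool.Agent.Helper14_MV Pool.Agent.Helper2_MV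

/-- the word `B 0, 2, B 1, 3, B 2, …, k+1, B k` -/
def asm : (k : ℕ) → (ℕ → List ℕ) → List ℕ
  | 0, B => B 0
  | k + 1, B => asm k B ++ (k + 2) :: B (k + 1)

/-- `c` is not one of the simple letters `2, …, k+1` -/
def NS (k c : ℕ) : Prop := ¬ (2 ≤ c ∧ c ≤ k + 1)

/-- the letters in the blocks are not simple letters -/
def BlkOk (k : ℕ) (B : ℕ → List ℕ) : Prop := ∀ j ≤ k, ∀ c ∈ B j, NS k c

/-- the number of occurrences of a letter in the blocks `0, …, k` of a vector -/
def deg (k : ℕ) (a : ℕ → ℕ) : ℕ := ∑ j ∈ Finset.range (k + 1), a j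

/-- the one letter word of type `a` -/
def mw (k : ℕ) (a : ℕ → ℕ) : List ℕ := asm k (fun j => List.replicate (a j) 0)

/-- a block of a two letter word: `x^p y^q`, or `y^q x^p` if `e` is true -/
def bl (p q : ℕ) (e : Bool) : List ℕ :=
  if e then List.replicate q 1 ++ List.replicate p 0 else List.replicate p 0 ++ List.replicate q 1

/-- the gathered two letter word with the types `a`, `b` and the orders `e` -/
def w2 (k : ℕ) (a b : ℕ → ℕ) (e : ℕ → Bool) : List ℕ := asm k (fun j => bl (a j) (b j) (e j))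

/-- change the order in block `i` -/
def flp (e : ℕ → Bool) (i : ℕ) : ℕ → Bool := fun j => if j = i then !(e j) else e j

/-- the one letter identity `a ≈ a'` is in `ρ` -/
def L1 (ρ : FIC) (k : ℕ) (a a' : ℕ → ℕ) : Prop := RR ρ (mw k a) (mw k a')

/-- the exchange of `x^(a i)` and `y^(b i)` in block `i` is in `ρ` -/
def Ex (ρ : FIC) (k : ℕ) (a b : ℕ → ℕ) (e : ℕ → Bool) (i : ℕ) : Prop :=
  RR ρ (w2 k a b e) (w2 k a b (flp e i))

/-- a gathered block: every letter `c` of the list `D` is written `n c` times -/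
def gb (n : ℕ → ℕ) (D : List ℕ) : List ℕ := D.flatMap (fun c => List.replicate (n c) c)

/-- a gathered word -/
def gw (k : ℕ) (n : ℕ → ℕ → ℕ) (D : ℕ → List ℕ) : List ℕ := asm k (fun j => gb (n j) (D j))

/-- admissible data of a gathered word: `X` is the list of the multiple letters -/
structure GData (k : ℕ) (X : List ℕ) (n : ℕ → ℕ → ℕ) (D : ℕ → List ℕ) : Prop where
  nodup : X.Nodup
  ns : ∀ c ∈ X, NS k c
  mult : ∀ c ∈ X, 2 ≤ deg k (fun j => n j c)
  perm : ∀ j, (D j).Perm X

/-- every word is equivalent to a gathered word with the same types -/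
def Gath (β : FIC) : Prop :=
  ∀ (k : ℕ) (B : ℕ → List ℕ) (X : List ℕ), BlkOk k B → X.Nodup → (∀ c ∈ X, NS k c) →
    (∀ j ≤ k, ∀ c ∈ B j, c ∈ X) → (∀ c ∈ X, 2 ≤ deg k (fun j => (B j).count c)) →
      ∃ D : ℕ → List ℕ, (∀ j, (D j).Perm X) ∧
        RR β (asm k B) (gw k (fun j c => (B j).count c) D)

/-- in a two letter word the order matters in at most one block -/
def Rig (β : FIC) : Prop :=
  ∀ (k : ℕ) (a b : ℕ → ℕ), 2 ≤ deg k a → 2 ≤ deg k b →
    ∃ i, ∀ e e' : ℕ → Bool, e i = e' i → RR β (w2 k a b e) (w2 k a b e')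

/-- the two letter exchange gives the exchange in every gathered word -/
def SW (β : FIC) : Prop :=
  ∀ ω : FIC, β ≤ ω → ∀ (k : ℕ) (X : List ℕ) (n : ℕ → ℕ → ℕ) (D : ℕ → List ℕ), GData k X n D →
    ∀ i ≤ k, ∀ (A B : List ℕ) (x y : ℕ), D i = A ++ x :: y :: B →
      (∀ e, Ex ω k (fun j => n j x) (fun j => n j y) e i) →
        RR ω (gw k n D) (gw k n (Function.update D i (A ++ y :: x :: B)))

/-- TIGHTNESS: a one letter identity of `ρ` which is not in `β` and keeps the degree forces all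
exchanges of its left side -/
def Tight (β : FIC) : Prop :=
  ∀ ρ : FIC, β ≤ ρ → ¬ RR ρ [0, 1] [1, 0] → ∀ (k : ℕ) (a a' : ℕ → ℕ), 2 ≤ deg k a →
    deg k a = deg k a' → L1 ρ k a a' →
      L1 β k a a' ∨ ∀ (b : ℕ → ℕ) (e : ℕ → Bool), 2 ≤ deg k b → ∀ i ≤ k, Ex ρ k a b e i

/-- one step between one letter types of the same degree -/
def St1 (ρ σ : FIC) (k : ℕ) (a a' : ℕ → ℕ) : Prop :=
  deg k a = deg k a' ∧ (L1 ρ k a a' ∨ L1 σ k a a')

/-- the modular law for balanced one letter identities -/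
def OneLaw (β : FIC) : Prop :=
  ∀ ρ σ τ : FIC, β ≤ ρ → β ≤ σ → β ≤ τ → ρ ≤ τ → ¬ RR ρ [0, 1] [1, 0] → ¬ RR σ [0, 1] [1, 0] →
    ∀ (k : ℕ) (a a' : ℕ → ℕ), 2 ≤ deg k a → deg k a = deg k a' → L1 τ k a a' →
      Relation.ReflTransGen (St1 ρ σ k) a a' → L1 (FIC.sup ρ (FIC.inf σ τ)) k a a'

/-- unbalanced identities: a letter with different numbers of occurrences can be moved to the
end -/
def WU (β : FIC) : Prop :=
  ∀ θ : FIC, β ≤ θ → ∀ (u v : List ℕ) (c : ℕ), RR θ u v → u.count c ≠ v.count c →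
    RR θ u (u.filter (fun d => d ≠ c) ++ List.replicate (u.count c) c)

/-- image of a vector under a map of the blocks `0, …, k` -/
def psh (k : ℕ) (f : ℕ → ℕ) (a : ℕ → ℕ) : ℕ → ℕ :=
  fun j => ∑ i ∈ Finset.range (k + 1), if f i = j then a i else 0

/-- image of a family of blocks under a map of the blocks `0, …, k` -/
def pshB (k : ℕ) (f : ℕ → ℕ) (B : ℕ → List ℕ) : ℕ → List ℕ :=
  fun j => ((List.range (k + 1)).filter (fun i => f i = j)).flatMap B

/-- `f` is an order preserving map from the blocks `0, …, k` to the blocks `0, …, k'` -/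
structure BMap (k k' : ℕ) (f : ℕ → ℕ) : Prop where
  mono : ∀ i j, i ≤ j → j ≤ k → f i ≤ f j
  le : ∀ i ≤ k, f i ≤ k'

/-- functorial congruences: one letter parts of fully invariant congruences -/
structure FC where
  R : ℕ → (ℕ → ℕ) → (ℕ → ℕ) → Prop
  refl : ∀ k a, R k a a
  symm : ∀ {k a b}, R k a b → R k b a
  trans : ∀ {k a b c}, R k a b → R k b c → R k a c
  ext : ∀ {k a a' b b'}, (∀ j ≤ k, a j = a' j) → (∀ j ≤ k, b j = b' j) → R k a b → R k a' b'
  add : ∀ {k a b} (d : ℕ → ℕ), R k a b → R k (fun j => a j + d j) (fun j => b j + d j)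
  push : ∀ {k a b} (k' : ℕ) (f : ℕ → ℕ), BMap k k' f → R k a b →
    R k' (psh k f a) (psh k f b)

end Pool.Agent.MVO
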