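import Pool.Agent.MVO.StmtsV
import Pool.Agent.MVO.StmtsF

/-!
# Squad MVO, the final list of identity systems (MP_23468a_al)

`S u v` stands for: the variety satisfies the identity `u ≈ v`; words are lists of letters, the
letters `0, 1, 2, 3` are written `x, y, t, s`.  This file only contains definitions in explicit words
and their translations to the vocabulary of the blocks A, C, F, V.
-/

namespace Pool.Agent.MVO.Sys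

/-- every letter of `c` occurs at least twice in `w` -/
def Mul (c w : List ℕ) : Prop := ∀ a ∈ c, 2 ≤ w.count a

section

variable (S : List ℕ → List ℕ → Prop)

/-! ### identities in one multiple letter -/

/-- `x²tx ≈ xtx²` -/
def P1 : Prop := S [0, 0, 2, 0] [0, 2, 0, 0]
/-- `xtx² ≈ tx³` -/
def P2 : Prop := S [0, 2, 0, 0] [2, 0, 0, 0]
/-- `x³t ≈ x²tx` -/
def P3 : Prop := S [0, 0, 0, 2] [0, 0, 2, 0]
/-- `tx³ ≈ x²tx` and `xtx² ≈ x³t` -/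
def P4 : Prop := S [2, 0, 0, 0] [0, 0, 2, 0] ∧ S [0, 2, 0, 0] [0, 0, 0, 2]
/-- `xtxsx ≈ x²tsx` -/
def Q1 : Prop := S [0, 2, 0, 3, 0] [0, 0, 2, 3, 0]
/-- `xtxsx ≈ tx²sx` -/
def Q2 : Prop := S [0, 2, 0, 3, 0] [2, 0, 0, 3, 0]
/-- `xtxsx ≈ xtx²s` -/
def Q3 : Prop := S [0, 2, 0, 3, 0] [0, 2, 0, 0, 3]

/-! ### identities which exchange two adjacent powers -/

/-- `ytx²sxy ≈ ytx²syx` -/
def D1 : Prop := S [1, 2, 0, 0, 3, 0, 1] [1, 2, 0, 0, 3, 1, 0]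
/-- `x²tysxy ≈ x²tysyx` -/
def D2 : Prop := S [0, 0, 2, 1, 3, 0, 1] [0, 0, 2, 1, 3, 1, 0]
/-- `xytx²sy ≈ yxtx²sy` -/
def D3 : Prop := S [0, 1, 2, 0, 0, 3, 1] [1, 0, 2, 0, 0, 3, 1]
/-- `xytysx² ≈ yxtysx²` -/
def D4 : Prop := S [0, 1, 2, 1, 3, 0, 0] [1, 0, 2, 1, 3, 0, 0]
/-- `x²txysy ≈ x²tyxsy` -/
def D5 : Prop := S [0, 0, 2, 0, 1, 3, 1] [0, 0, 2, 1, 0, 3, 1]
/-- `x³yty ≈ yx³ty` -/
def D6 : Prop := S [0, 0, 0, 1, 2, 1] [1, 0, 0, 0, 2, 1]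
/-- `ytx³y ≈ ytyx³` -/
def D7 : Prop := S [1, 2, 0, 0, 0, 1] [1, 2, 1, 0, 0, 0]

/-! ### infinite systems -/

/-- `p xy q x c y r ≈ p yx q x c y r` if the letters of `c` occur at least twice -/
def F : Prop := ∀ (p q c r : List ℕ) (x y : ℕ),
  Mul c (p ++ x :: y :: (q ++ x :: (c ++ y :: r))) →
    S (p ++ x :: y :: (q ++ x :: (c ++ y :: r))) (p ++ y :: x :: (q ++ x :: (c ++ y :: r)))

/-- `p x c y q xy r ≈ p x c y q yx r` if the letters of `c` occur at least twice -/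
def F' : Prop := ∀ (p q c r : List ℕ) (x y : ℕ),
  Mul c (p ++ x :: (c ++ y :: (q ++ x :: y :: r))) →
    S (p ++ x :: (c ++ y :: (q ++ x :: y :: r))) (p ++ x :: (c ++ y :: (q ++ y :: x :: r)))

/-- `p yx c y q ≈ p xy c y q` if the letters of `c` occur at least twice and `x` is a letter of
`pcq` -/
def G : Prop := ∀ (p c q : List ℕ) (x y : ℕ), x ≠ y → x ∈ p ++ (c ++ q) →
  Mul c (p ++ y :: x :: (c ++ y :: q)) →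
    S (p ++ y :: x :: (c ++ y :: q)) (p ++ x :: y :: (c ++ y :: q))

/-- `p c xy q ≈ p c yx q` if the letters of `c` occur at least twice, `y` is a letter of `c`, `x` is not
a letter of `q`, `y` is not a letter of `pq` and `x` occurs at least three times -/
def H1 : Prop := ∀ (p c q : List ℕ) (x y : ℕ), y ∈ c → y ∉ p → y ∉ q → x ∉ q →
  Mul c (p ++ (c ++ x :: y :: q)) → 3 ≤ (p ++ (c ++ x :: y :: q)).count x →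
    S (p ++ (c ++ x :: y :: q)) (p ++ (c ++ y :: x :: q))

/-- the mirror image of `H1`: `p xy c q ≈ p yx c q` -/
def H2 : Prop := ∀ (p c q : List ℕ) (x y : ℕ), y ∈ c → y ∉ p → y ∉ q → x ∉ p →
  Mul c (p ++ x :: y :: (c ++ q)) → 3 ≤ (p ++ x :: y :: (c ++ q)).count x →
    S (p ++ x :: y :: (c ++ q)) (p ++ y :: x :: (c ++ q))

/-- as `H2`, but `x` occurs at least twice and `y` at least three times -/
def H3 : Prop := ∀ (p c q : List ℕ) (x y : ℕ), y ∈ c → y ∉ p → y ∉ q → x ∉ p →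
  Mul c (p ++ x :: y :: (c ++ q)) → 2 ≤ (p ++ x :: y :: (c ++ q)).count x →
    3 ≤ (p ++ x :: y :: (c ++ q)).count y →
      S (p ++ x :: y :: (c ++ q)) (p ++ y :: x :: (c ++ q))

/-! ### the three systems -/

/-- first system: `xytxsy ≈ yxtxsy`, `xtxysy ≈ xtyxsy`, `x²y² ≈ y²x²` -/
def SysA : Prop :=
  S [0, 1, 2, 0, 3, 1] [1, 0, 2, 0, 3, 1] ∧ S [0, 2, 0, 1, 3, 1] [0, 2, 1, 0, 3, 1] ∧
  S [0, 0, 1, 1] [1, 1, 0, 0] ∧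
  ((P1 S ∧ (P2 S ∨ D7 S ∨ S [0, 1, 2, 0, 0, 1] [0, 1, 2, 1, 0, 0]) ∧
      (Q1 S ∨ (D1 S ∧ (D2 S ∨ S [0, 2, 0, 1, 3, 0, 1] [0, 2, 0, 1, 3, 1, 0])))) ∨
    (P2 S ∧ (P1 S ∨ D7 S ∨ S [0, 0, 1, 2, 0, 1] [0, 0, 1, 2, 1, 0]) ∧
      (Q2 S ∨ (D2 S ∧ (D1 S ∨ S [0, 1, 2, 0, 3, 0, 1] [0, 1, 2, 0, 3, 1, 0])))) ∨
    P3 S ∨ P4 S)

/-- second system: `xtxysy ≈ xtyxsy`, `F`, `F'`, and `xtxy² ≈ xty²x` or `H1`, `H2`, `H3` -/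
def SysC : Prop :=
  S [0, 2, 0, 1, 3, 1] [0, 2, 1, 0, 3, 1] ∧ F S ∧ F' S ∧
  (S [0, 2, 0, 1, 1] [0, 2, 1, 1, 0] ∨ (H1 S ∧ H2 S ∧ H3 S)) ∧
  ((P1 S ∧ (Q1 S ∨ (D1 S ∧ D3 S))) ∨ (P2 S ∧ (Q2 S ∨ D2 S)) ∨ (P3 S ∧ (Q3 S ∨ D4 S)) ∨ P4 S)

/-- third system: `G`, `F`, `F'` -/
def SysV : Prop :=
  G S ∧ F S ∧ F' S ∧
  ((P1 S ∧ (P2 S ∨ D6 S) ∧ (Q1 S ∨ (D1 S ∧ D5 S))) ∨
    (P2 S ∧ (P1 S ∨ D6 S) ∧ (Q2 S ∨ (D2 S ∧ D5 S ∧ S [0, 0, 1, 2, 0, 3, 1] [1, 0, 0, 2, 0, 3, 1] ∧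
      S [0, 0, 1, 2, 1, 3, 0] [1, 0, 0, 2, 1, 3, 0]))) ∨
    (P3 S ∧ (Q3 S ∨ (D4 S ∧ S [1, 2, 0, 1, 3, 0, 0] [1, 2, 1, 0, 3, 0, 0]))) ∨ P4 S)

/-- one of the three systems -/
def Good : Prop := SysA S ∨ SysC S ∨ SysV S

end

end Pool.Agent.MVO.Sys
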